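import Mathlib.Tactic.FinCases
import Mathlib.Algebra.EuclideanDomain.Basic
import Mathlib.Algebra.EuclideanDomain.Field
import Mathlib.Algebra.Notation.Lemmas
import Mathlib.Tactic.SuppressCompilation
import Mathlib.Tactic.Monotonicity.Lemmas
import Mathlib.Data.Int.Star
import Mathlib.Algebra.Order.Ring.Star
import Mathlib.Analysis.Complex.Exponential
import Mathlib.Algebra.Order.Star.Real
import Mathlib.Combinatorics.SimpleGraph.Basic
import Mathlib.Tactic.Algebra.Basic

-- ======== part 0: formerly Pool.Agent.MP_a4cd82_co.h14.Minor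
section MrgPart0

/-!
Connected sets, families of branch sets, and sparsity of graphs without a `K₃,₃` minor.
-/

set_option autoImplicit false
set_option linter.unusedSectionVars false
set_option linter.unusedVariables false

open Finset

namespace Pool.Agent.MP_a4cd82_co.H14

variable {V : Type*} [DecidableEq V] (G : SimpleGraph V)

/-- `X` is nonempty and induces a connected subgraph. -/
def Conn (X : Finset V) : Prop :=
  X.Nonempty ∧ ∀ x ∈ X, ∀ y ∈ X, Relation.ReflTransGen (fun a b => G.Adj a b ∧ b ∈ X) x y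

/-- Some edge joins `X` and `Y`. -/
def Touch (X Y : Finset V) : Prop := ∃ x ∈ X, ∃ y ∈ Y, G.Adj x y

/-- `u` has a neighbour in `X`. -/
def Hit (u : V) (X : Finset V) : Prop := ∃ y ∈ X, G.Adj u y

/-- A `K₃,₃` minor. -/
def K33 : Prop :=
  ∃ X Y : Fin 3 → Finset V, (∀ i, Conn G (X i)) ∧ (∀ i, Conn G (Y i)) ∧
    (∀ i j, i ≠ j → Disjoint (X i) (X j)) ∧ (∀ i j, i ≠ j → Disjoint (Y i) (Y j)) ∧
    (∀ i j, Disjoint (X i) (Y j)) ∧ ∀ i j, Touch G (X i) (Y j)

variable {G}

theorem Touch.symm {X Y : Finset V} (h : Touch G X Y) : Touch G Y X := by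
  obtain ⟨x, hx, y, hy, h⟩ := h
  exact ⟨y, hy, x, hx, h.symm⟩

theorem Touch.mono {X Y X' Y' : Finset V} (h : Touch G X Y) (h1 : X ⊆ X') (h2 : Y ⊆ Y') :
    Touch G X' Y' := by
  obtain ⟨x, hx, y, hy, h⟩ := h
  exact ⟨x, h1 hx, y, h2 hy, h⟩

theorem Hit.mono {u : V} {X Y : Finset V} (h : Hit G u X) (h1 : X ⊆ Y) : Hit G u Y := by
  obtain ⟨y, hy, h⟩ := h
  exact ⟨y, h1 hy, h⟩

theorem touch_singleton {u : V} {X : Finset V} : Touch G {u} X ↔ Hit G u X := by
  simp [Touch, Hit]

theorem conn_singleton (u : V) : Conn G {u} := by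
  refine ⟨singleton_nonempty u, fun x hx y hy => ?_⟩
  rw [mem_singleton] at hx hy
  subst hx hy
  exact Relation.ReflTransGen.refl

theorem rtg_mono {X Y : Finset V} (h : X ⊆ Y) {x y : V}
    (hxy : Relation.ReflTransGen (fun a b => G.Adj a b ∧ b ∈ X) x y) :
    Relation.ReflTransGen (fun a b => G.Adj a b ∧ b ∈ Y) x y :=
  by
  induction hxy with
  | refl => exact Relation.ReflTransGen.refl
  | tail _ h2 ih => exact ih.tail ⟨h2.1, h h2.2⟩

theorem Conn.union_of_mem {X Y : Finset V} (hX : Conn G X) (hY : Conn G Y) {z : V} (h1 : z ∈ X)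
    (h2 : z ∈ Y) : Conn G (X ∪ Y) := by
  refine ⟨⟨z, mem_union_left _ h1⟩, fun x hx y hy => ?_⟩
  have a1 : Relation.ReflTransGen (fun a b => G.Adj a b ∧ b ∈ X ∪ Y) x z := by
    rcases mem_union.1 hx with h | h
    · exact rtg_mono subset_union_left (hX.2 x h z h1)
    · exact rtg_mono subset_union_right (hY.2 x h z h2)
  have a2 : Relation.ReflTransGen (fun a b => G.Adj a b ∧ b ∈ X ∪ Y) z y := by
    rcases mem_union.1 hy with h | h
    · exact rtg_mono subset_union_left (hX.2 z h1 y h)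
    · exact rtg_mono subset_union_right (hY.2 z h2 y h)
  exact a1.trans a2

theorem conn_pair {x y : V} (h : G.Adj x y) : Conn G {x, y} := by
  refine ⟨⟨x, by simp⟩, fun a ha b hb => ?_⟩
  simp only [mem_insert, mem_singleton] at ha hb
  rcases ha with rfl | rfl <;> rcases hb with rfl | rfl
  · exact Relation.ReflTransGen.refl
  · exact Relation.ReflTransGen.single ⟨h, by simp⟩
  · exact Relation.ReflTransGen.single ⟨h.symm, by simp⟩
  · exact Relation.ReflTransGen.refl

theorem Conn.union {X Y : Finset V} (hX : Conn G X) (hY : Conn G Y) (h : Touch G X Y) :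
    Conn G (X ∪ Y) := by
  obtain ⟨x, hx, y, hy, h⟩ := h
  have a1 := (hX.union_of_mem (conn_pair h) hx (by simp)).union_of_mem hY
    (z := y) (by simp) hy
  have a2 : X ∪ {x, y} ∪ Y = X ∪ Y := by
    ext z
    simp only [mem_union, mem_insert, mem_singleton]
    constructor
    · rintro ((h | rfl | rfl) | h) <;> tauto
    · tauto
  rwa [a2] at a1

/-- A connected set that meets a set closed under adjacency lies in it. -/
theorem Conn.subset_of_closed {X : Finset V} (hX : Conn G X) {P : V → Prop} {x : V} (hx : x ∈ X)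
    (hP : P x) (hc : ∀ a ∈ X, ∀ b ∈ X, P a → G.Adj a b → P b) : ∀ y ∈ X, P y := by
  intro y hy
  have h := hX.2 x hx y hy
  have : y ∈ X ∧ P y := by
    clear hy
    induction h with
    | refl => exact ⟨hx, hP⟩
    | tail _ h2 ih => exact ⟨h2.2, hc _ ih.1 _ h2.2 ih.2 h2.1⟩
  exact this.2

section Fam

variable {ι : Type*} [DecidableEq ι]

/-- A family of pairwise disjoint connected sets. -/
structure Fam (G : SimpleGraph V) (s : Finset ι) (B : ι → Finset V) : Prop where
  conn : ∀ i ∈ s, Conn G (B i)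
  disj : ∀ i ∈ s, ∀ j ∈ s, i ≠ j → Disjoint (B i) (B j)

open Classical in
/-- Members of the family adjacent to the member `i`. -/
noncomputable def nb (G : SimpleGraph V) (s : Finset ι) (B : ι → Finset V) (i : ι) : Finset ι :=
  s.filter fun j => j ≠ i ∧ Touch G (B i) (B j)

theorem mem_nb {s : Finset ι} {B : ι → Finset V} {i j : ι} :
    j ∈ nb G s B i ↔ j ∈ s ∧ j ≠ i ∧ Touch G (B i) (B j) := by
  simp [nb]

/-- Number of ordered adjacent pairs. -/
noncomputable def ec (G : SimpleGraph V) (s : Finset ι) (B : ι → Finset V) : ℕ :=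
  ∑ i ∈ s, (nb G s B i).card

theorem Fam.mono {s t : Finset ι} {B : ι → Finset V} (h : Fam G s B) (hts : t ⊆ s) : Fam G t B :=
  ⟨fun i hi => h.conn i (hts hi), fun i hi j hj => h.disj i (hts hi) j (hts hj)⟩

theorem ec_merge {s : Finset ι} {B : ι → Finset V} {i j : ι} (hi : i ∈ s) (hj : j ∈ nb G s B i) :
    ec G s B ≤ ec G (s.erase j) (Function.update B i (B i ∪ B j)) + 2 +
      2 * (nb G (nb G s B i) B j).card := by
  classical
  obtain ⟨hjs, hji, hT⟩ := mem_nb.1 hj
  set B' := Function.update B i (B i ∪ B j) with hB'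
  set s' := s.erase j with hs'
  set C := nb G (nb G s B i) B j with hC
  have hBi : B' i = B i ∪ B j := by simp [hB']
  have hBk : ∀ k, k ≠ i → B' k = B k := fun k hk => by simp [hB', hk]
  have his' : i ∈ s' := mem_erase.2 ⟨hji.symm, hi⟩
  have hCm : ∀ k, k ∈ C ↔ k ∈ nb G s B i ∧ k ∈ nb G s B j := by
    intro k
    simp only [hC, mem_nb]
    tauto
  have e1 : ec G s B = (nb G s B i).card + (nb G s B j).card +
      ∑ k ∈ s'.erase i, (nb G s B k).card := by
    rw [ec, ← add_sum_erase s _ hjs, ← add_sum_erase s' _ his']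
    ring
  have e2 : ec G s' B' = (nb G s' B' i).card + ∑ k ∈ s'.erase i, (nb G s' B' k).card := by
    rw [ec, ← add_sum_erase s' _ his']
  have a1 : (nb G s B i).card + (nb G s B j).card ≤ (nb G s' B' i).card + 2 + C.card := by
    have b1 : C = nb G s B i ∩ nb G s B j := by
      ext k; rw [hCm, mem_inter]
    have b2 := card_union_add_card_inter (nb G s B i) (nb G s B j)
    have b3 : nb G s B i ∪ nb G s B j ⊆ insert i (insert j (nb G s' B' i)) := by
      intro k hk
      by_cases hki : k = i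
      · simp [hki]
      by_cases hkj : k = j
      · simp [hkj]
      refine mem_insert_of_mem (mem_insert_of_mem (mem_nb.2 ?_))
      rw [hBi, hBk k hki]
      rcases mem_union.1 hk with h | h
      · exact ⟨mem_erase.2 ⟨hkj, (mem_nb.1 h).1⟩, hki,
          (mem_nb.1 h).2.2.mono subset_union_left Subset.rfl⟩
      · exact ⟨mem_erase.2 ⟨hkj, (mem_nb.1 h).1⟩, hki,
          (mem_nb.1 h).2.2.mono subset_union_right Subset.rfl⟩
    have b4 := card_le_card b3
    have b5 := card_insert_le i (insert j (nb G s' B' i))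
    have b6 := card_insert_le j (nb G s' B' i)
    rw [b1]
    omega
  have a2 : ∀ k ∈ s'.erase i,
      (nb G s B k).card ≤ (nb G s' B' k).card + (if k ∈ C then 1 else 0) := by
    intro k hk
    obtain ⟨hki, hk'⟩ := mem_erase.1 hk
    obtain ⟨hkj, hks⟩ := mem_erase.1 hk'
    have c1 : ∀ l ∈ nb G s B k, l ≠ j → l ∈ nb G s' B' k := by
      intro l hl hlj
      obtain ⟨d1, d2, d3⟩ := mem_nb.1 hl
      refine mem_nb.2 ⟨mem_erase.2 ⟨hlj, d1⟩, d2, ?_⟩
      rw [hBk k hki]
      by_cases hli : l = i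
      · rw [hli, hBi]
        exact (hli ▸ d3).mono Subset.rfl subset_union_left
      · rwa [hBk l hli]
    split_ifs with hkC
    · have : nb G s B k ⊆ insert j (nb G s' B' k) := by
        intro l hl
        by_cases hlj : l = j
        · simp [hlj]
        · exact mem_insert_of_mem (c1 l hl hlj)
      exact (card_le_card this).trans (card_insert_le _ _)
    · by_cases hjk : j ∈ nb G s B k
      · have hik : i ∉ nb G s B k := by
          intro hik
          exact hkC ((hCm k).2 ⟨mem_nb.2 ⟨hks, hki, (mem_nb.1 hik).2.2.symm⟩,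
            mem_nb.2 ⟨hks, hkj, (mem_nb.1 hjk).2.2.symm⟩⟩)
        have d1 : insert i ((nb G s B k).erase j) ⊆ nb G s' B' k := by
          intro l hl
          rcases mem_insert.1 hl with rfl | hl
          · refine mem_nb.2 ⟨his', fun h => hki h.symm, ?_⟩
            rw [hBk k hki, hBi]
            exact (mem_nb.1 hjk).2.2.mono Subset.rfl subset_union_right
          · exact c1 l (mem_erase.1 hl).2 (mem_erase.1 hl).1
        have d2 := card_le_card d1
        rw [card_insert_of_notMem (fun h => hik (mem_erase.1 h).2), card_erase_of_mem hjk] at d2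
        have d3 := card_pos.2 ⟨j, hjk⟩
        omega
      · exact (card_le_card fun l hl => c1 l hl (fun h => hjk (h ▸ hl))).trans (by omega)
  have a3 := sum_le_sum a2
  rw [sum_add_distrib, ← card_filter] at a3
  have a4 : ((s'.erase i).filter (· ∈ C)).card ≤ C.card :=
    card_le_card fun k hk => (mem_filter.1 hk).2
  omega

theorem mader (c : ℕ) (hc : 1 ≤ c) (Q : Finset V → Prop) (hQ : ∀ X Y, Q X → Q Y → Q (X ∪ Y))
    (m : ℕ) : ∀ (s : Finset ι) (B : ι → Finset V), s.card ≤ m → Fam G s B → s.Nonempty →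
      2 * c * s.card ≤ ec G s B → (∀ i ∈ s, Q (B i)) →
      ∃ (s' : Finset ι) (B' : ι → Finset V) (i : ι), Fam G s' B' ∧ i ∈ s' ∧ (∀ j ∈ s', Q (B' j)) ∧
        (nb G s' B' i).Nonempty ∧ ∀ j ∈ nb G s' B' i, c ≤ (nb G (nb G s' B' i) B' j).card := by
  induction m with
  | zero =>
    intro s B h1 _ h3
    have := card_pos.2 h3
    omega
  | succ m ih =>
    intro s B h1 h2 h3 h4 h5
    by_cases h : ∃ i ∈ s, ∃ j ∈ nb G s B i, (nb G (nb G s B i) B j).card < c
    · obtain ⟨i, hi, j, hj, hlt⟩ := h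
      obtain ⟨hjs, hji, hT⟩ := mem_nb.1 hj
      have a1 := ec_merge hi hj
      have a2 := card_erase_of_mem hjs
      have a3 := card_pos.2 h3
      refine ih (s.erase j) (Function.update B i (B i ∪ B j)) (by omega) ⟨?_, ?_⟩
        ⟨i, mem_erase.2 ⟨hji.symm, hi⟩⟩ ?_ ?_
      · intro k hk
        by_cases hki : k = i
        · subst hki
          simpa using (h2.conn k hi).union (h2.conn j hjs) hT
        · simpa [hki] using h2.conn k (mem_erase.1 hk).2
      · intro k hk l hl hkl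
        obtain ⟨hkj, hks⟩ := mem_erase.1 hk
        obtain ⟨hlj, hls⟩ := mem_erase.1 hl
        by_cases hki : k = i
        · subst hki
          simp only [Function.update_self, Function.update_of_ne hkl.symm, disjoint_union_left]
          exact ⟨h2.disj k hks l hls hkl, h2.disj j hjs l hls hlj.symm⟩
        · by_cases hli : l = i
          · subst hli
            simp only [Function.update_self, Function.update_of_ne hkl, disjoint_union_right]
            exact ⟨h2.disj k hks l hls hkl, h2.disj k hks j hjs hkj⟩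
          · simp only [Function.update_of_ne hki, Function.update_of_ne hli]
            exact h2.disj k hks l hls hkl
      · rw [a2]
        obtain ⟨k, hk⟩ : ∃ k, s.card = k + 1 := ⟨s.card - 1, by omega⟩
        rw [hk] at h4 ⊢
        simp only [Nat.add_sub_cancel]
        nlinarith
      · intro k hk
        by_cases hki : k = i
        · subst hki
          simpa using hQ _ _ (h5 k hi) (h5 j hjs)
        · simpa [hki] using h5 k (mem_erase.1 hk).2
    · push Not at h
      have a1 : ∃ i ∈ s, (nb G s B i).Nonempty := by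
        by_contra hn
        push Not at hn
        have : ec G s B = 0 := sum_eq_zero fun i hi => by rw [hn i hi, card_empty]
        have a3 := card_pos.2 h3
        have : 0 < 2 * c * s.card := by positivity
        omega
      obtain ⟨i, hi, hne⟩ := a1
      exact ⟨s, B, i, h2, hi, h5, hne, h i hi⟩

/-- Families of branch sets in a graph without a `K₃,₃` minor are sparse. -/
theorem density (hG : ¬ K33 G) {s : Finset ι} {B : ι → Finset V} (h : Fam G s B) :
    ec G s B ≤ 12 * s.card := by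
  by_contra hlt
  push Not at hlt
  have hs : s.Nonempty := by
    rcases s.eq_empty_or_nonempty with rfl | hs
    · simp [ec] at hlt
    · exact hs
  obtain ⟨s1, B1, i1, f1, hi1, -, n1, d1⟩ := mader 6 (by norm_num) (fun _ => True)
    (fun _ _ _ _ => trivial) s.card s B le_rfl h hs (by omega) (fun _ _ => trivial)
  set L1 := nb G s1 B1 i1 with hL1
  have hL1s : L1 ⊆ s1 := fun j hj => (mem_nb.1 hj).1
  have e1 : 2 * 3 * L1.card ≤ ec G L1 B1 := by
    have := card_nsmul_le_sum L1 (fun j => (nb G L1 B1 j).card) 6 d1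
    rw [smul_eq_mul] at this
    rw [ec]
    omega
  obtain ⟨s2, B2, i2, f2, hi2, q2, n2, d2⟩ := mader 3 (by norm_num)
    (fun X => Disjoint (B1 i1) X ∧ Touch G (B1 i1) X)
    (fun X Y hX hY => ⟨disjoint_union_right.2 ⟨hX.1, hY.1⟩,
      hX.2.mono Subset.rfl subset_union_left⟩) L1.card L1 B1 le_rfl (f1.mono hL1s) n1 e1
    (fun j hj => ⟨f1.disj i1 hi1 j (hL1s hj) (mem_nb.1 hj).2.1.symm, (mem_nb.1 hj).2.2⟩)
  obtain ⟨j, hj⟩ := n2
  obtain ⟨T, hT, hTc⟩ := exists_subset_card_eq (d2 j hj)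
  obtain ⟨a, b, c, hab, hac, hbc, rfl⟩ := card_eq_three.1 hTc
  obtain ⟨hjs, hji, hjT⟩ := mem_nb.1 hj
  have key : ∀ k ∈ ({a, b, c} : Finset ι), k ∈ s2 ∧ k ≠ i2 ∧ Touch G (B2 i2) (B2 k) ∧ k ≠ j ∧
      Touch G (B2 j) (B2 k) := by
    intro k hk
    obtain ⟨g1, g2, g3⟩ := mem_nb.1 (hT hk)
    obtain ⟨g4, g5, g6⟩ := mem_nb.1 g1
    exact ⟨g4, g5, g6, g2, g3⟩
  have ka := key a (by simp)
  have kb := key b (by simp)
  have kc := key c (by simp)
  let y : Fin 3 → ι := ![a, b, c]
  have ky : ∀ t, y t ∈ s2 ∧ y t ≠ i2 ∧ Touch G (B2 i2) (B2 (y t)) ∧ y t ≠ j ∧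
      Touch G (B2 j) (B2 (y t)) := by
    intro t
    fin_cases t
    · exact ka
    · exact kb
    · exact kc
  have hy : ∀ t u, t ≠ u → y t ≠ y u := by
    intro t u htu
    fin_cases t <;> fin_cases u <;> simp_all [y, eq_comm]
  refine hG ⟨![B1 i1, B2 i2, B2 j], fun t => B2 (y t), ?_, fun t => f2.conn _ (ky t).1, ?_,
    fun t u htu => f2.disj _ (ky t).1 _ (ky u).1 (hy t u htu), ?_, ?_⟩
  · intro t
    fin_cases t
    · exact f1.conn i1 hi1
    · exact f2.conn i2 hi2
    · exact f2.conn j hjs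
  · have g1 := (q2 i2 hi2).1
    have g2 := (q2 j hjs).1
    have g3 := f2.disj i2 hi2 j hjs hji.symm
    intro t u htu
    fin_cases t <;> fin_cases u <;>
      first
      | exact absurd rfl htu
      | exact g1
      | exact g2
      | exact g3
      | exact g1.symm
      | exact g2.symm
      | exact g3.symm
  · intro t u
    fin_cases t
    · exact (q2 _ (ky u).1).1
    · exact f2.disj i2 hi2 _ (ky u).1 (ky u).2.1.symm
    · exact f2.disj j hjs _ (ky u).1 (ky u).2.2.2.1.symm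
  · intro t u
    fin_cases t
    · exact (q2 _ (ky u).1).2
    · exact (ky u).2.2.1
    · exact (ky u).2.2.2.2

end Fam

end Pool.Agent.MP_a4cd82_co.H14

end MrgPart0

-- ======== part 1: formerly Pool.Agent.MP_a4cd82_co.h14.Witness
section MrgPart1

/-!
Shallow minors: the witness lemma, and the number of connected sets seeing three hubs.
-/

set_option autoImplicit false
set_option linter.unusedSectionVars false
set_option linter.unusedVariables false

open Finset

namespace Pool.Agent.MP_a4cd82_co.H14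

variable {V : Type*} [DecidableEq V] {G : SimpleGraph V} {κ : Type*} [DecidableEq κ]

open Classical in
theorem hit_count (hG : ¬ K33 G) (U : Finset V) (t : Finset κ) (C : κ → Finset V)
    (hC : Fam G t C) (hU : ∀ k ∈ t, Disjoint (C k) U) :
    ∑ u ∈ U, (t.filter fun k => Hit G u (C k)).card ≤ 12 * (U.card + t.card) := by
  let B : V ⊕ κ → Finset V := Sum.elim (fun u => {u}) C
  have hF : Fam G (U.disjSum t) B := by
    refine ⟨?_, ?_⟩
    · rintro (u | k) h
      · exact conn_singleton u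
      · exact hC.conn k (by simpa using h)
    · rintro (u | k) h (u' | k') h' hne
      · simpa [B] using fun e : u = u' => hne (by rw [e])
      · simp only [inl_mem_disjSum, inr_mem_disjSum] at h h'
        exact ((hU k' h').mono_right (singleton_subset_iff.2 h)).symm
      · simp only [inl_mem_disjSum, inr_mem_disjSum] at h h'
        exact (hU k h).mono_right (singleton_subset_iff.2 h')
      · simp only [inr_mem_disjSum] at h h'
        exact hC.disj k h k' h' fun e => hne (by rw [e])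
  have h1 := density hG hF
  rw [card_disjSum, ec, sum_disjSum] at h1
  refine le_trans (le_trans (sum_le_sum fun u hu => ?_) (Nat.le_add_right _ _)) h1
  refine card_le_card_of_injOn Sum.inr (fun k hk => ?_) (fun _ _ _ _ h => Sum.inr_injective h)
  obtain ⟨h1, h2⟩ := mem_filter.1 (mem_coe.1 hk)
  exact mem_coe.2 (mem_nb.2 ⟨by simpa using h1, by simp, touch_singleton.2 h2⟩)

open Classical in
theorem witness (hG : ¬ K33 G) (U : Finset V) (t : Finset κ) (C : κ → Finset V)
    (hC : Fam G t C) (hU : ∀ k ∈ t, Disjoint (C k) U) :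
    ∃ (Γ : V → Finset V) (Wt : Finset κ), Wt ⊆ t ∧
      (∀ u ∈ U, ∀ u' ∈ U, G.Adj u u' → u' ∈ Γ u) ∧
      (∀ k ∈ t, k ∉ Wt → ∀ u ∈ U, ∀ u' ∈ U, u' ≠ u → Hit G u (C k) → Hit G u' (C k) →
        u' ∈ Γ u) ∧
      ∑ u ∈ U, ((Γ u).card + (Wt.filter fun k => Hit G u (C k)).card) ≤ 168 * U.card := by
  let P : Finset κ → Prop := fun Wt => ∃ B : V → Finset V, Fam G U B ∧ (∀ u ∈ U, u ∈ B u) ∧
    (∀ u ∈ U, ∀ k ∈ t, k ∉ Wt → Disjoint (B u) (C k)) ∧ Wt.card ≤ ec G U B
  have h0 : P ∅ := ⟨fun u => {u}, ⟨fun u _ => conn_singleton u, fun u _ u' _ h => by simpa⟩,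
    fun u _ => mem_singleton_self u,
    fun u hu k hk _ => ((hU k hk).mono_right (singleton_subset_iff.2 hu)).symm, by simp⟩
  obtain ⟨Wt, hWt, hmax⟩ := exists_max_image (t.powerset.filter P) card
    ⟨∅, mem_filter.2 ⟨by simp, h0⟩⟩
  obtain ⟨hWt1, B, b1, b2, b3, b4⟩ := mem_filter.1 hWt
  have hWt1 := mem_powerset.1 hWt1
  refine ⟨nb G U B, Wt, hWt1, fun u hu u' hu' h =>
    mem_nb.2 ⟨hu', h.ne.symm, u, b2 u hu, u', b2 u' hu', h⟩, ?_, ?_⟩
  · intro k hk hkW u hu u' hu' hne h1 h2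
    by_contra hn
    set B' := Function.update B u (B u ∪ C k) with hB'
    have hBu : B' u = B u ∪ C k := by simp [hB']
    have hBv : ∀ v, v ≠ u → B' v = B v := fun v hv => by simp [hB', hv]
    have hsub : ∀ v, B v ⊆ B' v := by
      intro v
      by_cases hv : v = u
      · rw [hv, hBu]; exact subset_union_left
      · rw [hBv v hv]
    have hP : P (insert k Wt) := by
      refine ⟨B', ⟨?_, ?_⟩, fun v hv => hsub v (b2 v hv), ?_, ?_⟩
      · intro v hv
        by_cases hvu : v = u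
        · rw [hvu, hBu]
          exact (b1.conn u hu).union (hC.conn k hk)
            ((touch_singleton.2 h1).mono (singleton_subset_iff.2 (b2 u hu)) Subset.rfl)
        · rw [hBv v hvu]; exact b1.conn v hv
      · intro v hv w hw hvw
        by_cases hvu : v = u
        · subst hvu
          rw [hBu, hBv w hvw.symm, disjoint_union_left]
          exact ⟨b1.disj v hv w hw hvw, (b3 w hw k hk hkW).symm⟩
        · by_cases hwu : w = u
          · subst hwu
            rw [hBu, hBv v hvw, disjoint_union_right]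
            exact ⟨b1.disj v hv w hw hvw, b3 v hv k hk hkW⟩
          · rw [hBv v hvu, hBv w hwu]
            exact b1.disj v hv w hw hvw
      · intro v hv k' hk' hk'W
        have c1 : k' ≠ k := fun e => hk'W (e ▸ mem_insert_self _ _)
        have c2 : k' ∉ Wt := fun e => hk'W (mem_insert_of_mem e)
        by_cases hvu : v = u
        · rw [hvu, hBu, disjoint_union_left]
          exact ⟨b3 u hu k' hk' c2, hC.disj k hk k' hk' c1.symm⟩
        · rw [hBv v hvu]; exact b3 v hv k' hk' c2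
      · rw [card_insert_of_notMem hkW]
        have c1 : ∀ v, nb G U B v ⊆ nb G U B' v := fun v w hw =>
          mem_nb.2 ⟨(mem_nb.1 hw).1, (mem_nb.1 hw).2.1, (mem_nb.1 hw).2.2.mono (hsub v) (hsub w)⟩
        have c2 : ec G U B < ec G U B' := by
          refine sum_lt_sum (fun v _ => card_le_card (c1 v)) ⟨u, hu, card_lt_card ⟨c1 u, ?_⟩⟩
          intro hs
          refine hn (hs (mem_nb.2 ⟨hu', hne, ?_⟩))
          rw [hBu]
          exact (touch_singleton.2 h2).symm.mono subset_union_right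
            (singleton_subset_iff.2 (hsub u' (b2 u' hu')))
        omega
    have := hmax (insert k Wt) (mem_filter.2 ⟨mem_powerset.2 (insert_subset hk hWt1), hP⟩)
    rw [card_insert_of_notMem hkW] at this
    omega
  · have c1 := density hG b1
    have c2 := hit_count hG U Wt C (hC.mono hWt1) fun k hk => hU k (hWt1 hk)
    rw [sum_add_distrib]
    have c3 : ∑ u ∈ U, (nb G U B u).card = ec G U B := rfl
    omega

theorem three_le (hG : ¬ K33 G) {t : Finset κ} {C : κ → Finset V} (hC : Fam G t C) {a b c : V}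
    (hab : a ≠ b) (hac : a ≠ c) (hbc : b ≠ c)
    (h : ∀ k ∈ t, (a ∉ C k ∧ b ∉ C k ∧ c ∉ C k) ∧ Hit G a (C k) ∧ Hit G b (C k) ∧ Hit G c (C k)) :
    t.card ≤ 2 := by
  by_contra hlt
  obtain ⟨T, hT, hTc⟩ := exists_subset_card_eq (show 3 ≤ t.card by omega)
  obtain ⟨i, j, k, hij, hik, hjk, rfl⟩ := card_eq_three.1 hTc
  let y : Fin 3 → κ := ![i, j, k]
  have ky : ∀ u, y u ∈ t := by
    intro u
    fin_cases u <;> exact hT (by simp [y])
  have hy : ∀ t u, t ≠ u → y t ≠ y u := by
    intro t u htu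
    fin_cases t <;> fin_cases u <;> simp_all [y, eq_comm]
  let x : Fin 3 → V := ![a, b, c]
  have hx : ∀ t u, t ≠ u → x t ≠ x u := by
    intro t u htu
    fin_cases t <;> fin_cases u <;> simp_all [x, eq_comm]
  refine hG ⟨fun u => {x u}, fun u => C (y u), fun u => conn_singleton _,
    fun u => hC.conn _ (ky u), fun t u htu => by simpa using hx t u htu,
    fun t u htu => hC.disj _ (ky t) _ (ky u) (hy t u htu), ?_, ?_⟩
  · intro t u
    rw [disjoint_singleton_left]
    fin_cases t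
    · exact (h _ (ky u)).1.1
    · exact (h _ (ky u)).1.2.1
    · exact (h _ (ky u)).1.2.2
  · intro t u
    rw [touch_singleton]
    fin_cases t
    · exact (h _ (ky u)).2.1
    · exact (h _ (ky u)).2.2.1
    · exact (h _ (ky u)).2.2.2

theorem exists_small {U : Finset V} (hU : U.Nonempty) (f : V → ℕ) (c : ℕ)
    (h : ∑ u ∈ U, f u ≤ c * U.card) : ∃ u ∈ U, f u ≤ c := by
  by_contra hn
  push Not at hn
  have h1 := card_nsmul_le_sum U f (c + 1) hn
  have h2 := card_pos.2 hU
  rw [smul_eq_mul] at h1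
  nlinarith

open Classical in
/-- Few disjoint connected sets see three vertices of `I`. -/
theorem wild_count (hG : ¬ K33 G) (C : κ → Finset V) (m : ℕ) : ∀ (I : Finset V) (t : Finset κ),
    I.card ≤ m → Fam G t C → (∀ k ∈ t, Disjoint (C k) I) →
    (∀ k ∈ t, 3 ≤ (I.filter fun u => Hit G u (C k)).card) → t.card ≤ 60000 * I.card := by
  induction m with
  | zero =>
    intro I t h1 _ _ h4
    have : I = ∅ := card_eq_zero.1 (by omega)
    subst this
    rcases t.eq_empty_or_nonempty with rfl | ⟨k, hk⟩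
    · simp
    · simpa using h4 k hk
  | succ m ih =>
    intro I t h1 h2 h3 h4
    rcases I.eq_empty_or_nonempty with rfl | hI
    · rcases t.eq_empty_or_nonempty with rfl | ⟨k, hk⟩
      · simp
      · simpa using h4 k hk
    obtain ⟨Γ, Wt, w1, -, w3, w4⟩ := witness hG I t C h2 h3
    obtain ⟨u, hu, hsc⟩ := exists_small hI _ 168 w4
    have a1 := ih (I.erase u) (t.filter fun k => ¬ Hit G u (C k))
      (by rw [card_erase_of_mem hu]; omega) (h2.mono (filter_subset _ _))
      (fun k hk => (h3 k (mem_filter.1 hk).1).mono_right (erase_subset _ _))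
      (fun k hk => (h4 k (mem_filter.1 hk).1).trans (card_le_card fun x hx => by
        obtain ⟨b1, b2⟩ := mem_filter.1 hx
        exact mem_filter.2 ⟨mem_erase.2 ⟨fun e => (mem_filter.1 hk).2 (e ▸ b2), b1⟩, b2⟩))
    have a2 : (t.filter fun k => Hit G u (C k)) ⊆ (Wt.filter fun k => Hit G u (C k)) ∪
        (Γ u ×ˢ Γ u).biUnion fun q => t.filter fun k => (q.1 ∈ I ∧ q.2 ∈ I ∧ u ≠ q.1 ∧
          u ≠ q.2 ∧ q.1 ≠ q.2) ∧ Hit G u (C k) ∧ Hit G q.1 (C k) ∧ Hit G q.2 (C k) := by
      intro k hk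
      obtain ⟨b1, b2⟩ := mem_filter.1 hk
      by_cases hkW : k ∈ Wt
      · exact mem_union_left _ (mem_filter.2 ⟨hkW, b2⟩)
      have b3 : 1 < ((I.filter fun u => Hit G u (C k)).erase u).card := by
        have := h4 k b1
        rw [card_erase_of_mem (mem_filter.2 ⟨hu, b2⟩)]
        omega
      obtain ⟨a, ha, b, hb, hab⟩ := one_lt_card.1 b3
      obtain ⟨c1, c2⟩ := mem_erase.1 ha
      obtain ⟨c3, c4⟩ := mem_erase.1 hb
      obtain ⟨c5, c6⟩ := mem_filter.1 c2
      obtain ⟨c7, c8⟩ := mem_filter.1 c4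
      refine mem_union_right _ (mem_biUnion.2 ⟨(a, b), mem_product.2
        ⟨w3 k b1 hkW u hu a c5 c1 b2 c6, w3 k b1 hkW u hu b c7 c3 b2 c8⟩,
        mem_filter.2 ⟨b1, ⟨c5, c7, c1.symm, c3.symm, hab⟩, b2, c6, c8⟩⟩)
    have a3 : ((Γ u ×ˢ Γ u).biUnion fun q => t.filter fun k => (q.1 ∈ I ∧ q.2 ∈ I ∧ u ≠ q.1 ∧
          u ≠ q.2 ∧ q.1 ≠ q.2) ∧ Hit G u (C k) ∧ Hit G q.1 (C k) ∧ Hit G q.2 (C k)).card ≤
        (Γ u ×ˢ Γ u).card * 2 := by
      refine card_biUnion_le_card_mul _ _ _ fun q _ => ?_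
      by_cases hq : q.1 ∈ I ∧ q.2 ∈ I ∧ u ≠ q.1 ∧ u ≠ q.2 ∧ q.1 ≠ q.2
      · refine three_le hG (h2.mono (filter_subset _ _)) hq.2.2.1 hq.2.2.2.1 hq.2.2.2.2
          fun k hk => ?_
        obtain ⟨b1, -, b2⟩ := mem_filter.1 hk
        have b3 := disjoint_right.1 (h3 k b1)
        exact ⟨⟨b3 hu, b3 hq.1, b3 hq.2.1⟩, b2⟩
      · simp [hq]
    have a4 := (card_le_card a2).trans (card_union_le _ _)
    have a5 := card_filter_add_card_filter_not (s := t) fun k => Hit G u (C k)
    rw [card_product] at a3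
    rw [card_erase_of_mem hu] at a1
    have a6 : (Γ u).card * (Γ u).card ≤ 168 * 168 := Nat.mul_le_mul (by omega) (by omega)
    have a7 := card_pos.2 hI
    omega

end Pool.Agent.MP_a4cd82_co.H14

end MrgPart1

-- ======== part 2: formerly Pool.Agent.MP_a4cd82_co.h14.Order
section MrgPart2

/-!
Vertex orders of bounded arrangeability with a prescribed small initial segment.
-/

set_option autoImplicit false
set_option linter.unusedSectionVars false
set_option linter.unusedVariables false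

open Finset

namespace Pool.Agent.MP_a4cd82_co.H14

variable {V : Type*} [Fintype V] [DecidableEq V] {G : SimpleGraph V} {κ : Type*} [DecidableEq κ]

open Classical in
/-- `u` may be placed last among the vertices of `U`. -/
def Good (G : SimpleGraph V) (I : Finset V) (t : Finset κ) (C : κ → Finset V) (U : Finset V)
    (u : V) : Prop :=
  (U.filter (G.Adj u)).card ≤ 700 ∧
    (U.filter fun x => ∃ w, w ∉ U ∧ G.Adj u w ∧ G.Adj w x).card ≤ 500000 ∧
    (u ∈ I → ((U ∩ I).filter fun x => x ≠ u ∧ ∃ k ∈ t, Hit G u (C k) ∧ Hit G x (C k)).card ≤ 700)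

open Classical in
theorem exists_good (hG : ¬ K33 G) {I : Finset V} {t : Finset κ} {C : κ → Finset V}
    (hC : Fam G t C) (hI : ∀ k ∈ t, Disjoint (C k) I)
    (htame : ∀ k ∈ t, (I.filter fun u => Hit G u (C k)).card ≤ 2) (U A : Finset V)
    (hU : ∀ w, w ∉ U → (U.filter (G.Adj w)).card ≤ 700) (hA : 2 * A.card < U.card) :
    ∃ u ∈ U, u ∉ A ∧ Good G I t C U u := by
  obtain ⟨Γ, Wt, w1, w2, w3, w4⟩ := witness hG U (univ \ U) (fun w => {w})
    ⟨fun u _ => conn_singleton u, fun u _ u' _ h => by simpa⟩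
    (fun k hk => by simpa using hk)
  obtain ⟨Γ', Wt', v1, -, v3, v4⟩ := witness hG (U ∩ I) t C hC
    (fun k hk => (hI k hk).mono_right inter_subset_right)
  let f1 : V → ℕ := fun u => (Γ u).card + (Wt.filter fun k => Hit G u {k}).card
  let f2 : V → ℕ := fun u => (Γ' u).card + (Wt'.filter fun k => Hit G u (C k)).card
  have a1 : ∑ u ∈ U, (if u ∈ I then f2 u else 0) ≤ 168 * U.card := by
    rw [← sum_filter, filter_mem_eq_inter]
    exact v4.trans (Nat.mul_le_mul_left _ (card_le_card inter_subset_left))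
  have a2 := le_card_sdiff A U
  have a3 : ∑ u ∈ U \ A, (f1 u + if u ∈ I then f2 u else 0) ≤ 700 * (U \ A).card := by
    refine (sum_le_sum_of_subset sdiff_subset).trans ?_
    rw [sum_add_distrib]
    have : ∑ u ∈ U, f1 u ≤ 168 * U.card := w4
    omega
  obtain ⟨u, hu, hsc⟩ := exists_small (card_pos.1 (by omega)) _ 700 a3
  obtain ⟨hu, huA⟩ := mem_sdiff.1 hu
  have b1 : (Γ u).card + (Wt.filter fun k => Hit G u {k}).card ≤ 700 := by
    have : f1 u ≤ 700 := by omega
    exact this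
  refine ⟨u, hu, huA, ?_, ?_, ?_⟩
  · exact (card_le_card fun x hx => w2 u hu x (mem_filter.1 hx).1 (mem_filter.1 hx).2).trans
      (show (Γ u).card ≤ 700 by omega)
  · have c1 : (U.filter fun x => ∃ w, w ∉ U ∧ G.Adj u w ∧ G.Adj w x) ⊆ insert u (Γ u ∪
        (Wt.filter fun k => Hit G u {k}).biUnion fun w => U.filter (G.Adj w)) := by
      intro x hx
      obtain ⟨d1, w, d2, d3, d4⟩ := mem_filter.1 hx
      by_cases hxu : x = u
      · simp [hxu]
      refine mem_insert_of_mem ?_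
      have d5 : Hit G u {w} := ⟨w, mem_singleton_self w, d3⟩
      by_cases hw : w ∈ Wt
      · exact mem_union_right _ (mem_biUnion.2 ⟨w, mem_filter.2 ⟨hw, d5⟩, mem_filter.2 ⟨d1, d4⟩⟩)
      · exact mem_union_left _ (w3 w (by simpa using d2) hw u hu x d1 hxu d5
          ⟨w, mem_singleton_self w, d4.symm⟩)
    have c2 : ((Wt.filter fun k => Hit G u {k}).biUnion fun w => U.filter (G.Adj w)).card ≤
        (Wt.filter fun k => Hit G u {k}).card * 700 :=
      card_biUnion_le_card_mul _ _ _ fun w hw => hU w (by simpa using w1 (mem_filter.1 hw).1)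
    have c3 := (card_le_card c1).trans (card_insert_le _ _)
    have c4 := card_union_le (Γ u)
      ((Wt.filter fun k => Hit G u {k}).biUnion fun w => U.filter (G.Adj w))
    omega
  · intro huI
    have b2 : (Γ' u).card + (Wt'.filter fun k => Hit G u (C k)).card ≤ 700 := by
      rw [if_pos huI] at hsc
      have : f2 u ≤ 700 := by omega
      exact this
    have c1 : ((U ∩ I).filter fun x => x ≠ u ∧ ∃ k ∈ t, Hit G u (C k) ∧ Hit G x (C k)) ⊆ Γ' u ∪
        (Wt'.filter fun k => Hit G u (C k)).biUnion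
          fun k => (I.filter fun x => Hit G x (C k)).erase u := by
      intro x hx
      obtain ⟨d1, d2, k, d3, d4, d5⟩ := mem_filter.1 hx
      by_cases hk : k ∈ Wt'
      · exact mem_union_right _ (mem_biUnion.2 ⟨k, mem_filter.2 ⟨hk, d4⟩,
          mem_erase.2 ⟨d2, mem_filter.2 ⟨(mem_inter.1 d1).2, d5⟩⟩⟩)
      · exact mem_union_left _ (v3 k d3 hk u (mem_inter.2 ⟨hu, huI⟩) x d1 d2 d4 d5)
    have c2 : ((Wt'.filter fun k => Hit G u (C k)).biUnion
          fun k => (I.filter fun x => Hit G x (C k)).erase u).card ≤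
        (Wt'.filter fun k => Hit G u (C k)).card * 1 := by
      refine card_biUnion_le_card_mul _ _ _ fun k hk => ?_
      obtain ⟨d1, d2⟩ := mem_filter.1 hk
      have := htame k (v1 d1)
      rw [card_erase_of_mem (mem_filter.2 ⟨huI, d2⟩)]
      omega
    have c3 := (card_le_card c1).trans (card_union_le _ _)
    omega

open Classical in
theorem order_aux (hG : ¬ K33 G) {I : Finset V} {t : Finset κ} {C : κ → Finset V}
    (hC : Fam G t C) (hI : ∀ k ∈ t, Disjoint (C k) I)
    (htame : ∀ k ∈ t, (I.filter fun u => Hit G u (C k)).card ≤ 2) (A : Finset V) (m : ℕ) :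
    ∀ U : Finset V, U.card = m → (∀ w, w ∉ U → (U.filter (G.Adj w)).card ≤ 700) →
      ∃ rk : V → ℕ, Set.InjOn rk U ∧ (∀ u ∈ U, rk u < m) ∧
        (∀ u ∈ U, Good G I t C (U.filter fun x => rk x ≤ rk u) u) ∧
        (A ⊆ U → ∃ E, A ⊆ E ∧ E ⊆ U ∧ E.card ≤ 2 * A.card ∧
          ∀ x ∈ E, ∀ y ∈ U, y ∉ E → rk x < rk y) := by
  induction m with
  | zero =>
    intro U h1 _
    have : U = ∅ := card_eq_zero.1 h1
    subst this
    exact ⟨fun _ => 0, by simp, by simp, by simp, fun h => ⟨∅, h, by simp, by simp, by simp⟩⟩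
  | succ m ih =>
    intro U h1 h2
    have a1 : ∃ u ∈ U, Good G I t C U u ∧ (2 * A.card < U.card → u ∉ A) := by
      by_cases h : 2 * A.card < U.card
      · obtain ⟨u, b1, b2, b3⟩ := exists_good hG hC hI htame U A h2 h
        exact ⟨u, b1, b3, fun _ => b2⟩
      · obtain ⟨u, b1, -, b3⟩ := exists_good hG hC hI htame U ∅ h2 (by rw [card_empty]; omega)
        exact ⟨u, b1, b3, fun h' => absurd h' h⟩
    obtain ⟨u, hu, hg, huA⟩ := a1
    obtain ⟨rk, r1, r2, r3, r4⟩ := ih (U.erase u) (by rw [card_erase_of_mem hu]; omega)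
      (fun w hw => by
        refine (card_le_card (filter_subset_filter _ (erase_subset _ _))).trans ?_
        by_cases hwu : w = u
        · rw [hwu]; exact hg.1
        · exact h2 w fun h => hw (mem_erase.2 ⟨hwu, h⟩))
    set rk' := Function.update rk u m with hrk'
    have e1 : rk' u = m := by simp [hrk']
    have e2 : ∀ x, x ≠ u → rk' x = rk x := fun x hx => by simp [hrk', hx]
    have e3 : ∀ x ∈ U, x ≠ u → rk' x < m := fun x hx hxu => by
      rw [e2 x hxu]; exact r2 x (mem_erase.2 ⟨hxu, hx⟩)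
    refine ⟨rk', ?_, ?_, ?_, ?_⟩
    · intro x hx y hy hxy
      by_cases hxu : x = u <;> by_cases hyu : y = u
      · rw [hxu, hyu]
      · have := e3 y hy hyu
        rw [hxu, e1] at hxy
        omega
      · have := e3 x hx hxu
        rw [hyu, e1] at hxy
        omega
      · rw [e2 x hxu, e2 y hyu] at hxy
        exact r1 (mem_coe.2 (mem_erase.2 ⟨hxu, hx⟩)) (mem_coe.2 (mem_erase.2 ⟨hyu, hy⟩)) hxy
    · intro x hx
      by_cases hxu : x = u
      · rw [hxu, e1]; omega
      · have := e3 x hx hxu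
        omega
    · intro x hx
      by_cases hxu : x = u
      · have : (U.filter fun y => rk' y ≤ rk' x) = U := by
          refine filter_true_of_mem fun y hy => ?_
          rw [hxu, e1]
          by_cases hyu : y = u
          · rw [hyu, e1]
          · exact (e3 y hy hyu).le
        rw [this, hxu]
        exact hg
      · have : (U.filter fun y => rk' y ≤ rk' x) = (U.erase u).filter fun y => rk y ≤ rk x := by
          ext y
          simp only [mem_filter, mem_erase]
          by_cases hyu : y = u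
          · have := e3 x hx hxu
            simp only [hyu, e1, ne_eq, not_true_eq_false, false_and, iff_false, not_and, not_le]
            exact fun _ => this
          · simp [e2 y hyu, e2 x hxu, hyu]
        rw [this]
        exact r3 x (mem_erase.2 ⟨hxu, hx⟩)
    · intro hAU
      by_cases h : 2 * A.card < U.card
      · obtain ⟨E, g1, g2, g3, g4⟩ := r4 fun x hx => mem_erase.2 ⟨fun e => huA h (e ▸ hx), hAU hx⟩
        refine ⟨E, g1, g2.trans (erase_subset _ _), g3, fun x hx y hy hyE => ?_⟩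
        obtain ⟨hxu, hxU⟩ := mem_erase.1 (g2 hx)
        by_cases hyu : y = u
        · rw [hyu, e1]; exact e3 x hxU hxu
        · rw [e2 x hxu, e2 y hyu]
          exact g4 x hx y (mem_erase.2 ⟨hyu, hy⟩) hyE
      · exact ⟨U, hAU, Subset.rfl, by omega, fun x _ y hy hyE => absurd hy hyE⟩

open Classical in
theorem exists_order (hG : ¬ K33 G) {I : Finset V} {t : Finset κ} {C : κ → Finset V}
    (hC : Fam G t C) (hI : ∀ k ∈ t, Disjoint (C k) I)
    (htame : ∀ k ∈ t, (I.filter fun u => Hit G u (C k)).card ≤ 2) (A : Finset V) :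
    ∃ (rk : V → ℕ) (E : Finset V) (R Lk : V → Finset V), Function.Injective rk ∧ A ⊆ E ∧
      E.card ≤ 2 * A.card ∧ (∀ x ∈ E, ∀ y, y ∉ E → rk x < rk y) ∧
      (∀ w, (univ.filter fun x => G.Adj w x ∧ rk x < rk w).card ≤ 500000) ∧
      (∀ v, (R v).card ≤ 500000) ∧
      (∀ v w x, G.Adj v w → rk v < rk w → G.Adj w x → rk x < rk v → x ∈ R v) ∧
      (∀ v, (Lk v).card ≤ 500000) ∧
      (∀ v ∈ I, ∀ x ∈ I, rk x < rk v → ∀ k ∈ t, Hit G v (C k) → Hit G x (C k) → x ∈ Lk v) := by
  obtain ⟨rk, r1, -, r3, r4⟩ := order_aux hG hC hI htame A _ univ rfl (by simp)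
  obtain ⟨E, g1, -, g3, g4⟩ := r4 (subset_univ _)
  let U : V → Finset V := fun u => univ.filter fun x => rk x ≤ rk u
  refine ⟨rk, E, fun u => (U u).filter fun x => ∃ w, w ∉ U u ∧ G.Adj u w ∧ G.Adj w x,
    fun u => if u ∈ I then (U u ∩ I).filter
      fun x => x ≠ u ∧ ∃ k ∈ t, Hit G u (C k) ∧ Hit G x (C k) else ∅,
    fun x y h => r1 (by simp) (by simp) h, g1, g3, fun x hx y hy => g4 x hx y (mem_univ _) hy,
    fun w => ?_, fun v => (r3 v (mem_univ _)).2.1, ?_, fun v => ?_, ?_⟩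
  · refine le_trans (card_le_card fun x hx => ?_) ((r3 w (mem_univ _)).1.trans (by norm_num))
    obtain ⟨-, h1, h2⟩ := mem_filter.1 hx
    exact mem_filter.2 ⟨mem_filter.2 ⟨mem_univ _, h2.le⟩, h1⟩
  · intro v w x h1 h2 h3 h4
    exact mem_filter.2 ⟨mem_filter.2 ⟨mem_univ _, h4.le⟩, w, by simpa [U] using h2, h1, h3⟩
  · beta_reduce
    split_ifs with h
    · exact ((r3 v (mem_univ _)).2.2 h).trans (by norm_num)
    · simp
  · intro v hv x hx h1 k hk h2 h3
    simp only [if_pos hv]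
    exact mem_filter.2 ⟨mem_inter.2 ⟨mem_filter.2 ⟨mem_univ _, h1.le⟩, hx⟩,
      fun e => by rw [e] at h1; omega, k, hk, h2, h3⟩

end Pool.Agent.MP_a4cd82_co.H14

end MrgPart2

-- ======== part 3: formerly Pool.Agent.MP_a4cd82_co.h14.Sep
section MrgPart3

/-!
The separator theorem of Alon, Seymour and Thomas for graphs without a `K₃,₃` minor.
-/

set_option autoImplicit false
set_option linter.unusedSectionVars false
set_option linter.unusedVariables false

open Finset

namespace Pool.Agent.MP_a4cd82_co.H14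

variable {V : Type*} [DecidableEq V] {G : SimpleGraph V}

open Classical in
/-- The component of `x` inside `S`. -/
noncomputable def comp (G : SimpleGraph V) (S : Finset V) (x : V) : Finset V :=
  S.filter fun y => Relation.ReflTransGen (fun a b => G.Adj a b ∧ b ∈ S) x y

theorem comp_subset (S : Finset V) (x : V) : comp G S x ⊆ S := by
  classical
  exact filter_subset _ _

theorem mem_comp {S : Finset V} {x y : V} : y ∈ comp G S x ↔
    y ∈ S ∧ Relation.ReflTransGen (fun a b => G.Adj a b ∧ b ∈ S) x y := by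
  simp [comp]

theorem mem_comp_self {S : Finset V} {x : V} (hx : x ∈ S) : x ∈ comp G S x :=
  mem_comp.2 ⟨hx, Relation.ReflTransGen.refl⟩

theorem comp_closed {S : Finset V} {x y z : V} (hy : y ∈ comp G S x) (hz : z ∈ S)
    (h : G.Adj y z) : z ∈ comp G S x :=
  mem_comp.2 ⟨hz, (mem_comp.1 hy).2.tail ⟨h, hz⟩⟩

theorem conn_comp {S : Finset V} {x : V} (hx : x ∈ S) : Conn G (comp G S x) := by
  have key : ∀ y, Relation.ReflTransGen (fun a b => G.Adj a b ∧ b ∈ S) x y →
      y ∈ comp G S x ∧ Relation.ReflTransGen (fun a b => G.Adj a b ∧ b ∈ comp G S x) x y ∧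
        Relation.ReflTransGen (fun a b => G.Adj a b ∧ b ∈ comp G S x) y x := by
    intro y h
    induction h with
    | refl => exact ⟨mem_comp_self hx, Relation.ReflTransGen.refl, Relation.ReflTransGen.refl⟩
    | tail _ h2 ih =>
      have := comp_closed ih.1 h2.2 h2.1
      exact ⟨this, ih.2.1.tail ⟨h2.1, this⟩, ih.2.2.head ⟨h2.1.symm, ih.1⟩⟩
  exact ⟨⟨x, mem_comp_self hx⟩, fun a ha b hb =>
    (key a (mem_comp.1 ha).2).2.2.trans (key b (mem_comp.1 hb).2).2.1⟩

theorem Conn.subset_comp {S X : Finset V} (hX : Conn G X) (hXS : X ⊆ S) {x y : V} (hy : y ∈ X)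
    (hxy : y ∈ comp G S x) : X ⊆ comp G S x :=
  hX.subset_of_closed (P := fun a => a ∈ comp G S x) hy hxy
    fun _ _ _ hb ha h => comp_closed ha (hXS hb) h

theorem comp_eq {S : Finset V} {x y : V} (hx : x ∈ S) (hy : y ∈ comp G S x) :
    comp G S y = comp G S x := by
  have hyS := comp_subset S x hy
  have h1 : comp G S y ⊆ comp G S x :=
    (conn_comp hyS).subset_comp (comp_subset _ _) (mem_comp_self hyS) hy
  have h2 : comp G S x ⊆ comp G S y :=
    (conn_comp hx).subset_comp (comp_subset _ _) hy (mem_comp_self hyS)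
  exact Subset.antisymm h1 h2

open Classical in
/-- Balls around `A` inside `Y`. -/
noncomputable def ball (G : SimpleGraph V) (Y A : Finset V) : ℕ → Finset V
  | 0 => ∅
  | j + 1 => Y.filter fun y => y ∈ A ∨ y ∈ ball G Y A j ∨ Hit G y (ball G Y A j)

theorem ball_subset (Y A : Finset V) (j : ℕ) : ball G Y A j ⊆ Y := by
  classical
  cases j with
  | zero => simp [ball]
  | succ j => exact filter_subset _ _

theorem mem_ball_succ {Y A : Finset V} {j : ℕ} {y : V} : y ∈ ball G Y A (j + 1) ↔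
    y ∈ Y ∧ (y ∈ A ∨ y ∈ ball G Y A j ∨ Hit G y (ball G Y A j)) := by
  simp [ball]

theorem ball_mono (Y A : Finset V) : Monotone (ball G Y A) :=
  monotone_nat_of_le_succ fun j _ hy =>
    mem_ball_succ.2 ⟨ball_subset Y A j hy, Or.inr (Or.inl hy)⟩

theorem ball_path {Y A : Finset V} (j : ℕ) : ∀ y ∈ ball G Y A j,
    ∃ P, P ⊆ Y ∧ Conn G P ∧ y ∈ P ∧ ¬ Disjoint P A ∧ P.card ≤ j := by
  induction j with
  | zero => simp [ball]
  | succ j ih =>
    intro y hy
    obtain ⟨h1, h2 | h2 | ⟨z, h2, h3⟩⟩ := mem_ball_succ.1 hy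
    · exact ⟨{y}, by simpa, conn_singleton y, by simp, by simpa, by simp⟩
    · obtain ⟨P, a1, a2, a3, a4, a5⟩ := ih y h2
      exact ⟨P, a1, a2, a3, a4, by omega⟩
    · obtain ⟨P, a1, a2, a3, a4, a5⟩ := ih z h2
      refine ⟨{y} ∪ P, union_subset (by simpa) a1,
        (conn_singleton y).union a2 (touch_singleton.2 ⟨z, a3, h3⟩), by simp,
        fun h => a4 (h.mono_left subset_union_right), (card_union_le _ _).trans ?_⟩
      rw [card_singleton]
      omega

theorem ball_layer {Y A : Finset V} {r : ℕ} (hr : 1 ≤ r) (hY : Y.card ≤ r * r) :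
    ∃ j < r, (ball G Y A (j + 1) \ ball G Y A j).card ≤ r := by
  have h1 : ∀ k, ∑ j ∈ range k, (ball G Y A (j + 1) \ ball G Y A j).card = (ball G Y A k).card := by
    intro k
    induction k with
    | zero => simp [ball]
    | succ k ih =>
      rw [sum_range_succ, ih, add_comm]
      exact card_sdiff_add_card_eq_card (ball_mono Y A (Nat.le_succ k))
  by_contra hn
  push Not at hn
  have h2 := card_nsmul_le_sum (range r) _ (r + 1) fun j hj => hn j (mem_range.1 hj)
  rw [h1, card_range, smul_eq_mul] at h2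
  have h3 := card_le_card (ball_subset (G := G) Y A r)
  nlinarith

theorem tree_or_cut {ι : Type*} {Y : Finset V} (hne : Y.Nonempty) {r : ℕ} (hr : 1 ≤ r)
    (hY : Y.card ≤ r * r) (σ : Finset ι) (hσ : σ.card ≤ 4) (A : ι → Finset V) :
    (∃ T, T ⊆ Y ∧ Conn G T ∧ T.card ≤ 5 * r ∧ ∀ i ∈ σ, ¬ Disjoint T (A i)) ∨
      ∃ Z, Z ⊆ Y ∧ Z.card ≤ 5 * r ∧ ∀ X, X ⊆ Y \ Z → Conn G X → ∃ i ∈ σ, Disjoint X (A i) := by
  classical
  by_cases h : ∃ v ∈ Y, ∀ i ∈ σ, v ∈ ball G Y (A i) r
  · obtain ⟨v, hv, h⟩ := h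
    left
    have key : ∀ τ : Finset ι, τ ⊆ σ → ∃ T, T ⊆ Y ∧ Conn G T ∧ v ∈ T ∧
        T.card ≤ 1 + τ.card * r ∧ ∀ i ∈ τ, ¬ Disjoint T (A i) := by
      intro τ
      induction τ using Finset.induction_on with
      | empty => exact fun _ => ⟨{v}, by simpa, conn_singleton v, by simp, by simp, by simp⟩
      | insert i τ hi ih =>
        intro hs
        obtain ⟨T, a1, a2, a3, a4, a5⟩ := ih ((subset_insert _ _).trans hs)
        obtain ⟨P, b1, b2, b3, b4, b5⟩ := ball_path r v (h i (hs (mem_insert_self _ _)))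
        refine ⟨T ∪ P, union_subset a1 b1, a2.union_of_mem b2 a3 b3, mem_union_left _ a3,
          (card_union_le _ _).trans ?_, fun k hk => ?_⟩
        · rw [card_insert_of_notMem hi]
          nlinarith
        · rcases mem_insert.1 hk with rfl | hk
          · exact fun h => b4 (h.mono_left subset_union_right)
          · exact fun h => a5 k hk (h.mono_left subset_union_left)
    obtain ⟨T, a1, a2, -, a4, a5⟩ := key σ Subset.rfl
    exact ⟨T, a1, a2, by nlinarith, a5⟩
  · right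
    choose j hj using fun i => ball_layer (G := G) (A := A i) hr hY
    refine ⟨σ.biUnion fun i => ball G Y (A i) (j i + 1) \ ball G Y (A i) (j i),
      biUnion_subset.2 fun i _ => sdiff_subset.trans (ball_subset _ _ _),
      (card_biUnion_le_card_mul _ _ r fun i _ => (hj i).2).trans (by nlinarith), ?_⟩
    intro X hX hc
    by_contra hn
    push Not at hn
    obtain ⟨v, hv⟩ := hc.1
    refine h ⟨v, (mem_sdiff.1 (hX hv)).1, fun i hi => ball_mono Y (A i) (hj i).1.le ?_⟩
    have key : ∀ y ∈ X, y ∈ ball G Y (A i) (j i + 1) → y ∈ ball G Y (A i) (j i) := by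
      intro y hy h1
      by_contra h2
      exact (mem_sdiff.1 (hX hy)).2 (mem_biUnion.2 ⟨i, hi, mem_sdiff.2 ⟨h1, h2⟩⟩)
    obtain ⟨a, ha, haA⟩ := not_disjoint_iff.1 (hn i hi)
    exact hc.subset_of_closed (P := fun y => y ∈ ball G Y (A i) (j i)) ha
      (key a ha (mem_ball_succ.2 ⟨(mem_sdiff.1 (hX ha)).1, Or.inl haA⟩))
      (fun x _ y hy hx hxy => key y hy (mem_ball_succ.2
        ⟨(mem_sdiff.1 (hX hy)).1, Or.inr (Or.inr ⟨x, hx, hxy.symm⟩)⟩)) v hv

theorem k33_of_six {s : Finset (Finset V)} (h6 : 6 ≤ s.card) (hc : ∀ C ∈ s, Conn G C)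
    (hp : ∀ C ∈ s, ∀ C' ∈ s, C ≠ C' → Disjoint C C' ∧ Touch G C C') : K33 G := by
  let f : Fin 6 → Finset V := fun i => s.equivFin.symm (Fin.castLE h6 i)
  have f1 : ∀ i, f i ∈ s := fun i => (s.equivFin.symm (Fin.castLE h6 i)).2
  have f2 : ∀ i j, i ≠ j → f i ≠ f j := fun i j hij e =>
    hij (Fin.castLE_injective h6 (s.equivFin.symm.injective (Subtype.ext e)))
  have f3 := fun i j hij => hp _ (f1 i) _ (f1 j) (f2 i j hij)
  have e1 : ∀ i j : Fin 3, Fin.castAdd 3 i ≠ Fin.natAdd 3 j := by decide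
  have e2 : ∀ i j : Fin 3, i ≠ j → Fin.castAdd 3 i ≠ Fin.castAdd 3 j := by decide
  have e3 : ∀ i j : Fin 3, i ≠ j → Fin.natAdd 3 i ≠ Fin.natAdd 3 j := by decide
  exact ⟨fun i => f (Fin.castAdd 3 i), fun i => f (Fin.natAdd 3 i), fun i => hc _ (f1 _),
    fun i => hc _ (f1 _), fun i j h => (f3 _ _ (e2 i j h)).1, fun i j h => (f3 _ _ (e3 i j h)).1,
    fun i j => (f3 _ _ (e1 i j)).1, fun i j => (f3 _ _ (e1 i j)).2⟩

open Classical in
/-- A big flap `Y` of `S` surrounded by pairwise touching connected sets. -/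
structure St (G : SimpleGraph V) (S : Finset V) (r : ℕ) (Y : Finset V) (σ : Finset (Finset V)) :
    Prop where
  sub : Y ⊆ S
  conn : Conn G Y
  big : S.card < 2 * Y.card
  cc : ∀ C ∈ σ, Conn G C
  cd : ∀ C ∈ σ, Disjoint C Y
  cp : ∀ C ∈ σ, ∀ C' ∈ σ, C ≠ C' → Disjoint C C' ∧ Touch G C C'
  bd : ∀ y ∈ Y, ∀ x ∈ S, G.Adj y x → x ∈ Y ∨ ∃ C ∈ σ, x ∈ C
  cn : ∀ C ∈ σ, (C.filter fun x => Hit G x Y).card ≤ 5 * r

/-- A small balanced separator of `S`. -/
def Sepd (G : SimpleGraph V) (S : Finset V) (r : ℕ) : Prop :=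
  ∃ Z, Z ⊆ S ∧ Z.card ≤ 25 * r ∧ ∀ X, X ⊆ S \ Z → Conn G X → 2 * X.card ≤ S.card

open Classical in
theorem St.shrink {S : Finset V} {r : ℕ} {Y : Finset V} {σ : Finset (Finset V)}
    (h : St G S r Y σ) (hσ : σ.card ≤ 4) (hn : ¬ Sepd G S r) {T : Finset V} (hT : T ⊆ Y)
    (hTc : T.card ≤ 5 * r) : ∃ x ∈ Y \ T, S.card < 2 * (comp G (Y \ T) x).card := by
  let D := (σ.biUnion fun C => C.filter fun x => Hit G x Y) ∩ S
  have a1 : D.card ≤ 20 * r := (card_le_card inter_subset_left).trans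
    ((card_biUnion_le_card_mul _ _ _ h.cn).trans (by nlinarith))
  have a2 : ∃ X, X ⊆ S \ (D ∪ T) ∧ Conn G X ∧ S.card < 2 * X.card := by
    by_contra hc
    push Not at hc
    exact hn ⟨D ∪ T, union_subset inter_subset_right (hT.trans h.sub),
      (card_union_le _ _).trans (by omega), hc⟩
  obtain ⟨X, b1, b2, b3⟩ := a2
  have b4 : ¬ Disjoint X Y := by
    intro hd
    have c1 := card_le_card (union_subset (b1.trans sdiff_subset) h.sub)
    rw [card_union_of_disjoint hd] at c1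
    have := h.big
    omega
  obtain ⟨x, hx, hxY⟩ := not_disjoint_iff.1 b4
  have b5 : ∀ y ∈ X, y ∈ Y := by
    refine b2.subset_of_closed (P := fun y => y ∈ Y) hx hxY fun a _ b hb ha hab => ?_
    obtain ⟨c1, c2⟩ := mem_sdiff.1 (b1 hb)
    rcases h.bd a ha b c1 hab with h1 | ⟨C, h1, h2⟩
    · exact h1
    · exact absurd (mem_union_left _ (mem_inter.2 ⟨mem_biUnion.2
        ⟨C, h1, mem_filter.2 ⟨h2, a, ha, hab.symm⟩⟩, c1⟩)) c2
  have b6 : X ⊆ Y \ T := fun y hy =>
    mem_sdiff.2 ⟨b5 y hy, fun h => (mem_sdiff.1 (b1 hy)).2 (mem_union_right _ h)⟩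
  have b7 := card_le_card (b2.subset_comp b6 hx (mem_comp_self (b6 hx)))
  exact ⟨x, b6 hx, by omega⟩

open Classical in
theorem St.step (hG : ¬ K33 G) {S : Finset V} {r : ℕ} (hr : 1 ≤ r) (hS : S.card ≤ r * r)
    (hn : ¬ Sepd G S r) {Y : Finset V} {σ : Finset (Finset V)} (h : St G S r Y σ)
    (ht : ∀ C ∈ σ, Touch G C Y) : ∃ Y' σ', St G S r Y' σ' ∧ Y'.card < Y.card := by
  have hσ : σ.card ≤ 4 := by
    by_contra hlt
    have hY : Y ∉ σ := fun hY => by
      obtain ⟨y, hy⟩ := h.conn.1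
      exact disjoint_left.1 (h.cd Y hY) hy hy
    refine hG (k33_of_six (s := insert Y σ) (by rw [card_insert_of_notMem hY]; omega) ?_ ?_)
    · intro C hC
      rcases mem_insert.1 hC with rfl | hC
      · exact h.conn
      · exact h.cc C hC
    · intro C hC C' hC' hne
      rcases mem_insert.1 hC with e1 | h1 <;> rcases mem_insert.1 hC' with e2 | h2
      · exact absurd (e1.trans e2.symm) hne
      · exact e1 ▸ ⟨(h.cd C' h2).symm, (ht C' h2).symm⟩
      · exact e2 ▸ ⟨h.cd C h1, ht C h1⟩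
      · exact h.cp C h1 C' h2 hne
  rcases tree_or_cut (G := G) h.conn.1 hr ((card_le_card h.sub).trans hS) σ hσ
    (fun C => Y.filter fun y => Hit G y C) with ⟨T, t1, t2, t3, t4⟩ | ⟨Z, z1, z2, z3⟩
  · obtain ⟨x, hx, hbig⟩ := h.shrink hσ hn t1 t3
    have s1 : comp G (Y \ T) x ⊆ Y \ T := comp_subset _ _
    have s2 : comp G (Y \ T) x ⊆ Y := s1.trans sdiff_subset
    have t5 : ∀ C ∈ σ, Disjoint T C ∧ Touch G T C := by
      intro C hC
      obtain ⟨y, hy, hy'⟩ := not_disjoint_iff.1 (t4 C hC)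
      obtain ⟨z, hz, hyz⟩ := (mem_filter.1 hy').2
      exact ⟨((h.cd C hC).mono_right t1).symm, y, hy, z, hz, hyz⟩
    refine ⟨comp G (Y \ T) x, insert T σ, ⟨s2.trans h.sub, conn_comp hx, hbig, ?_, ?_, ?_, ?_, ?_⟩,
      ?_⟩
    · intro C hC
      rcases mem_insert.1 hC with rfl | hC
      · exact t2
      · exact h.cc C hC
    · intro C hC
      rcases mem_insert.1 hC with rfl | hC
      · exact disjoint_sdiff.mono_right s1
      · exact (h.cd C hC).mono_right s2
    · intro C hC C' hC' hne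
      rcases mem_insert.1 hC with e1 | h1 <;> rcases mem_insert.1 hC' with e2 | h2
      · exact absurd (e1.trans e2.symm) hne
      · exact e1 ▸ t5 C' h2
      · exact e2 ▸ ⟨(t5 C h1).1.symm, (t5 C h1).2.symm⟩
      · exact h.cp C h1 C' h2 hne
    · intro y hy z hz hyz
      rcases h.bd y (s2 hy) z hz hyz with h1 | ⟨C, h1, h2⟩
      · by_cases hzT : z ∈ T
        · exact Or.inr ⟨T, mem_insert_self _ _, hzT⟩
        · exact Or.inl (comp_closed hy (mem_sdiff.2 ⟨h1, hzT⟩) hyz)
      · exact Or.inr ⟨C, mem_insert_of_mem h1, h2⟩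
    · intro C hC
      rcases mem_insert.1 hC with rfl | hC
      · exact (card_filter_le _ _).trans t3
      · exact (card_le_card fun z hz => mem_filter.2
          ⟨(mem_filter.1 hz).1, (mem_filter.1 hz).2.mono s2⟩).trans (h.cn C hC)
    · obtain ⟨y, hy⟩ := t2.1
      exact card_lt_card ⟨s2, fun hs => (mem_sdiff.1 (s1 (hs (t1 hy)))).2 hy⟩
  · obtain ⟨x, hx, hbig⟩ := h.shrink hσ hn z1 z2
    set Y1 := comp G (Y \ Z) x with hY1
    have s1 : Y1 ⊆ Y \ Z := comp_subset _ _
    obtain ⟨C0, hC0, hd⟩ := z3 Y1 s1 (conn_comp hx)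
    obtain ⟨c, hc, a, ha, hca⟩ := ht C0 hC0
    set C1 := comp G (C0 ∪ (Y \ Y1)) c with hC1
    have u1 : C1 ⊆ C0 ∪ (Y \ Y1) := comp_subset _ _
    have u2 : C0 ⊆ C1 := (h.cc C0 hC0).subset_comp subset_union_left hc
      (mem_comp_self (mem_union_left _ hc))
    have u3 : ∀ y ∈ Y1, ¬ Hit G y C0 := fun y hy hh =>
      disjoint_left.1 hd hy (mem_filter.2 ⟨(mem_sdiff.1 (s1 hy)).1, hh⟩)
    have u4 : a ∈ C1 := comp_closed (u2 hc) (mem_union_right _ (mem_sdiff.2
      ⟨ha, fun h1 => u3 a h1 ⟨c, hc, hca.symm⟩⟩)) hca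
    have u5 : Y1 ⊆ Y \ C1 := by
      intro y hy
      have hyY := (mem_sdiff.1 (s1 hy)).1
      refine mem_sdiff.2 ⟨hyY, fun h1 => ?_⟩
      rcases mem_union.1 (u1 h1) with h2 | h2
      · exact disjoint_left.1 (h.cd C0 hC0) h2 hyY
      · exact (mem_sdiff.1 h2).2 hy
    have hx1 : x ∈ Y1 := mem_comp_self hx
    set Y2 := comp G (Y \ C1) x with hY2
    have s2 : Y2 ⊆ Y \ C1 := comp_subset _ _
    have s3 : Y2 ⊆ Y := s2.trans sdiff_subset
    have s4 : Y1 ⊆ Y2 := (conn_comp hx).subset_comp u5 hx1 (mem_comp_self (u5 hx1))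
    have t5 : ∀ C ∈ σ.erase C0, Disjoint C1 C ∧ Touch G C1 C := by
      intro C hC
      obtain ⟨g1, g2⟩ := mem_erase.1 hC
      have g3 := h.cp C0 hC0 C g2 g1.symm
      exact ⟨(disjoint_union_left.2 ⟨g3.1, ((h.cd C g2).mono_right sdiff_subset).symm⟩).mono_left
        u1, g3.2.mono u2 Subset.rfl⟩
    refine ⟨Y2, insert C1 (σ.erase C0), ⟨s3.trans h.sub, conn_comp (u5 hx1),
      hbig.trans_le (Nat.mul_le_mul_left _ (card_le_card s4)), ?_, ?_, ?_, ?_, ?_⟩, ?_⟩
    · intro C hC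
      rcases mem_insert.1 hC with rfl | hC
      · exact conn_comp (mem_union_left _ hc)
      · exact h.cc C (mem_erase.1 hC).2
    · intro C hC
      rcases mem_insert.1 hC with rfl | hC
      · exact disjoint_sdiff.mono_right s2
      · exact (h.cd C (mem_erase.1 hC).2).mono_right s3
    · intro C hC C' hC' hne
      rcases mem_insert.1 hC with e1 | h1 <;> rcases mem_insert.1 hC' with e2 | h2
      · exact absurd (e1.trans e2.symm) hne
      · exact e1 ▸ t5 C' h2
      · exact e2 ▸ ⟨(t5 C h1).1.symm, (t5 C h1).2.symm⟩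
      · exact h.cp C (mem_erase.1 h1).2 C' (mem_erase.1 h2).2 hne
    · intro y hy z hz hyz
      by_cases hzC : z ∈ C1
      · exact Or.inr ⟨C1, mem_insert_self _ _, hzC⟩
      rcases h.bd y (s3 hy) z hz hyz with h1 | ⟨C, h1, h2⟩
      · exact Or.inl (comp_closed hy (mem_sdiff.2 ⟨h1, hzC⟩) hyz)
      · exact Or.inr ⟨C, mem_insert_of_mem (mem_erase.2 ⟨fun e => hzC (u2 (e ▸ h2)), h1⟩), h2⟩
    · intro C hC
      rcases mem_insert.1 hC with rfl | hC
      · refine (card_le_card fun z hz => ?_).trans z2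
        obtain ⟨g1, y, g2, g3⟩ := mem_filter.1 hz
        obtain ⟨g4, g5⟩ := mem_sdiff.1 (s2 g2)
        have g6 : y ∈ Y1 := by
          by_contra g6
          exact g5 (comp_closed g1 (mem_union_right _ (mem_sdiff.2 ⟨g4, g6⟩)) g3)
        rcases mem_union.1 (u1 g1) with g7 | g7
        · exact absurd ⟨z, g7, g3.symm⟩ (u3 y g6)
        · by_contra g8
          exact (mem_sdiff.1 g7).2
            (comp_closed g6 (mem_sdiff.2 ⟨(mem_sdiff.1 g7).1, g8⟩) g3.symm)
      · exact (card_le_card fun z hz => mem_filter.2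
          ⟨(mem_filter.1 hz).1, (mem_filter.1 hz).2.mono s3⟩).trans (h.cn C (mem_erase.1 hC).2)
    · exact card_lt_card ⟨s3, fun hs => (mem_sdiff.1 (s2 (hs ha))).2 u4⟩

open Classical in
theorem separator (hG : ¬ K33 G) {S : Finset V} {r : ℕ} (hr : 1 ≤ r) (hS : S.card ≤ r * r) :
    Sepd G S r := by
  by_contra hn
  have key : ∀ m : ℕ, ∀ Y σ, Y.card ≤ m → ¬ St G S r Y σ := by
    intro m
    induction m with
    | zero =>
      intro Y σ h1 h
      have := card_pos.2 h.conn.1
      omega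
    | succ m ih =>
      intro Y σ h1 h
      have h' : St G S r Y (σ.filter fun C => Touch G C Y) :=
        ⟨h.sub, h.conn, h.big, fun C hC => h.cc C (mem_filter.1 hC).1,
          fun C hC => h.cd C (mem_filter.1 hC).1,
          fun C hC C' hC' => h.cp C (mem_filter.1 hC).1 C' (mem_filter.1 hC').1,
          fun y hy x hx hyx => (h.bd y hy x hx hyx).imp id fun ⟨C, h1, h2⟩ =>
            ⟨C, mem_filter.2 ⟨h1, x, h2, y, hy, hyx.symm⟩, h2⟩,
          fun C hC => h.cn C (mem_filter.1 hC).1⟩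
      obtain ⟨Y', σ', a1, a2⟩ := h'.step hG hr hS hn fun C hC => (mem_filter.1 hC).2
      exact ih Y' σ' (by omega) a1
  have a2 : ∃ X, X ⊆ S \ ∅ ∧ Conn G X ∧ S.card < 2 * X.card := by
    by_contra hc
    push Not at hc
    exact hn ⟨∅, by simp, by simp, hc⟩
  obtain ⟨X, b1, b2, b3⟩ := a2
  rw [sdiff_empty] at b1
  obtain ⟨x, hx⟩ := b2.1
  have b4 := card_le_card (b2.subset_comp b1 hx (mem_comp_self (b1 hx)))
  exact key _ (comp G S x) ∅ le_rfl ⟨comp_subset _ _, conn_comp (b1 hx), by omega, by simp,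
    by simp, by simp, fun y hy z hz hyz => Or.inl (comp_closed hy hz hyz), by simp⟩

theorem halve (hG : ¬ K33 G) {q r : ℕ} (hr : 1 ≤ r) (hq : 2 * q ≤ r * r) (m : ℕ) :
    ∀ S : Finset V, S.card ≤ m → (∀ X, X ⊆ S → Conn G X → X.card ≤ 2 * q) →
      ∃ Z, Z ⊆ S ∧ q * Z.card ≤ 25 * r * S.card ∧ ∀ X, X ⊆ S \ Z → Conn G X → X.card ≤ q := by
  induction m with
  | zero =>
    intro S h1 _
    refine ⟨∅, by simp, by simp, fun X hX _ => ?_⟩
    have := card_le_card (hX.trans sdiff_subset)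
    omega
  | succ m ih =>
    intro S h1 h2
    by_cases h : ∃ X, X ⊆ S ∧ Conn G X ∧ q < X.card
    · obtain ⟨X, b1, b2, b3⟩ := h
      obtain ⟨x, hx⟩ := b2.1
      have b4 := card_le_card (b2.subset_comp b1 hx (mem_comp_self (b1 hx)))
      set Y := comp G S x with hY
      have b5 : Y ⊆ S := comp_subset _ _
      have b6 := h2 Y b5 (conn_comp (b1 hx))
      obtain ⟨Z1, c1, c2, c3⟩ := separator hG (S := Y) hr (by omega)
      have b7 := card_sdiff_add_card_eq_card b5
      obtain ⟨Z2, d1, d2, d3⟩ := ih (S \ Y) (by omega)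
        fun X hX => h2 X (hX.trans sdiff_subset)
      refine ⟨Z1 ∪ Z2, union_subset (c1.trans b5) (d1.trans sdiff_subset), ?_, fun X' e1 e2 => ?_⟩
      · have e1 := card_union_le Z1 Z2
        have e2 : q * Z1.card ≤ Y.card * (25 * r) := Nat.mul_le_mul (by omega) c2
        have e3 := Nat.mul_le_mul_left q e1
        rw [← b7]
        nlinarith
      · by_cases hd : Disjoint X' Y
        · refine d3 X' (fun y hy => ?_) e2
          obtain ⟨f1, f2⟩ := mem_sdiff.1 (e1 hy)
          exact mem_sdiff.2 ⟨mem_sdiff.2 ⟨f1, disjoint_left.1 hd hy⟩,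
            fun f3 => f2 (mem_union_right _ f3)⟩
        · obtain ⟨y, f1, f2⟩ := not_disjoint_iff.1 hd
          have f3 : X' ⊆ Y := e2.subset_comp (e1.trans sdiff_subset) f1 f2
          have f4 := c3 X' (fun z hz => mem_sdiff.2
            ⟨f3 hz, fun f5 => (mem_sdiff.1 (e1 hz)).2 (mem_union_left _ f5)⟩) e2
          omega
    · push Not at h
      exact ⟨∅, by simp, by simp, fun X hX => h X (hX.trans sdiff_subset)⟩

theorem frag_aux (hG : ¬ K33 G) {r : ℕ} (hr : 1 ≤ r) (j : ℕ) :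
    ∀ S : Finset V, (∀ X, X ⊆ S → Conn G X → X.card ≤ (r * 2 ^ j) * (r * 2 ^ j)) →
      ∃ Z, Z ⊆ S ∧ r * 2 ^ j * Z.card + 150 * S.card ≤ 150 * 2 ^ j * S.card ∧
        ∀ X, X ⊆ S \ Z → Conn G X → X.card ≤ r * r := by
  induction j with
  | zero => exact fun S h => ⟨∅, by simp, by simp, fun X hX => by simpa using h X (by simpa using hX)⟩
  | succ j ih =>
    intro S h
    set s := r * 2 ^ j with hs
    have hs1 : 1 ≤ s := Nat.mul_pos hr (by positivity)
    have e : r * 2 ^ (j + 1) = 2 * s := by rw [hs]; ring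
    rw [e] at h ⊢
    obtain ⟨Z1, a1, a2, a3⟩ := halve hG (q := 2 * (s * s)) (r := 2 * s) (by omega)
      (by nlinarith) _ S le_rfl fun X hX hc => (h X hX hc).trans (by nlinarith)
    obtain ⟨Z2, b1, b2, b3⟩ := halve hG (q := s * s) (r := 2 * s) (by omega)
      (by nlinarith) _ (S \ Z1) le_rfl a3
    obtain ⟨Z3, c1, c2, c3⟩ := ih ((S \ Z1) \ Z2) b3
    refine ⟨Z1 ∪ Z2 ∪ Z3, union_subset (union_subset a1 (b1.trans sdiff_subset))
      (c1.trans (sdiff_subset.trans sdiff_subset)), ?_, fun X hX => c3 X fun x hx => ?_⟩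
    · have d1 : (Z1 ∪ Z2 ∪ Z3).card ≤ Z1.card + Z2.card + Z3.card :=
        (card_union_le _ _).trans (Nat.add_le_add_right (card_union_le _ _) _)
      have d2 : (S \ Z1).card ≤ S.card := card_le_card sdiff_subset
      have d3 : ((S \ Z1) \ Z2).card ≤ S.card := card_le_card (sdiff_subset.trans sdiff_subset)
      have d4 : s * Z1.card ≤ 25 * S.card := by
        refine Nat.le_of_mul_le_mul_left (c := 2 * s) ?_ (by omega)
        nlinarith
      have d5 : s * Z2.card ≤ 50 * S.card := by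
        refine Nat.le_of_mul_le_mul_left (c := s) ?_ (by omega)
        nlinarith
      obtain ⟨k, hk⟩ : ∃ k, 2 ^ j = k + 1 := ⟨2 ^ j - 1, by have := Nat.one_le_two_pow (n := j); omega⟩
      have d6 : s * Z3.card ≤ 150 * k * S.card := by
        rw [hk] at c2
        have := Nat.mul_le_mul_left (150 * k) d3
        nlinarith
      have d7 := Nat.mul_le_mul_left (2 * s) d1
      rw [pow_succ, hk]
      nlinarith
    · have := mem_sdiff.1 (hX hx)
      simp only [mem_union, not_or] at this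
      simp only [mem_sdiff]
      tauto

/-- Removing a `1 / D` fraction of the vertices leaves components of size `O(D²)`. -/
theorem fragment (hG : ¬ K33 G) {D : ℕ} (hD : 1 ≤ D) (S : Finset V) :
    ∃ Z, Z ⊆ S ∧ D * Z.card ≤ S.card ∧
      ∀ X, X ⊆ S \ Z → Conn G X → X.card ≤ 22500 * D ^ 2 := by
  obtain ⟨Z, a1, a2, a3⟩ := frag_aux hG (r := 150 * D) (by omega) S.card S fun X hX _ => by
    have h1 := card_le_card hX
    have h2 : S.card < 2 ^ S.card := Nat.lt_two_pow_self
    have h3 : 2 ^ S.card ≤ 150 * D * 2 ^ S.card := Nat.le_mul_of_pos_left _ (by omega)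
    nlinarith
  refine ⟨Z, a1, ?_, fun X hX hc => (a3 X hX hc).trans (by nlinarith)⟩
  refine Nat.le_of_mul_le_mul_left (c := 150 * 2 ^ S.card) ?_ (by positivity)
  nlinarith

end Pool.Agent.MP_a4cd82_co.H14

end MrgPart3

-- ======== part 4: formerly Pool.Agent.MP_a4cd82_co.h14.Struct
section MrgPart4

/-!
The structure of a large graph without a `K₃,₃` minor: hubs, a small exceptional set,
and small pieces that see at most two hubs.
-/

set_option autoImplicit false
set_option linter.unusedSectionVars false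
set_option linter.unusedVariables false

open Finset

namespace Pool.Agent.MP_a4cd82_co.H14

section Ball

variable {V : Type} [Fintype V] [DecidableEq V]

open Classical in
/-- The degree. -/
noncomputable def dg (G : SimpleGraph V) (v : V) : ℕ := (univ.filter (G.Adj v)).card

theorem sum_dg {G : SimpleGraph V} (hG : ¬ K33 G) : ∑ v, dg G v ≤ 12 * Fintype.card V := by
  classical
  have h := density hG (s := univ) (B := fun u : V => {u})
    ⟨fun u _ => conn_singleton u, fun u _ u' _ h => by simpa⟩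
  rw [card_univ, ec] at h
  refine le_trans (sum_le_sum fun v _ => card_le_card fun x hx => ?_) h
  have := (mem_filter.1 hx).2
  exact mem_nb.2 ⟨mem_univ _, this.ne.symm, v, mem_singleton_self _, x, mem_singleton_self _, this⟩

open Classical in
/-- `X` together with its neighbours of degree at most `F`. -/
noncomputable def nbh (G : SimpleGraph V) (F : ℕ) (X : Finset V) : Finset V :=
  X ∪ univ.filter fun y => dg G y ≤ F ∧ Hit G y X

theorem mem_nbh {G : SimpleGraph V} {F : ℕ} {X : Finset V} {y : V} :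
    y ∈ nbh G F X ↔ y ∈ X ∨ (dg G y ≤ F ∧ Hit G y X) := by
  simp [nbh]

theorem dg_iter {G : SimpleGraph V} {F : ℕ} {X : Finset V} (hX : ∀ x ∈ X, dg G x ≤ F) (j : ℕ) :
    ∀ x ∈ (nbh G F)^[j] X, dg G x ≤ F := by
  induction j with
  | zero => exact hX
  | succ j ih =>
    intro x hx
    rw [Function.iterate_succ_apply'] at hx
    rcases mem_nbh.1 hx with h | h
    · exact ih x h
    · exact h.1

/-- Total degree of the vertices with degree in `(a, b]`. -/
noncomputable def mass (G : SimpleGraph V) (a b : ℕ) : ℕ :=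
  ∑ v ∈ univ.filter fun v => a < dg G v ∧ dg G v ≤ b, dg G v

theorem card_nbh {G : SimpleGraph V} {F : ℕ} {X : Finset V} (hX : ∀ x ∈ X, dg G x ≤ F)
    (a b : ℕ) (hb : F ≤ b) : (nbh G F X).card ≤ (a + 1) * X.card + mass G a b := by
  classical
  have h1 : nbh G F X ⊆ X ∪ X.biUnion fun x => univ.filter (G.Adj x) := by
    intro y hy
    rcases mem_nbh.1 hy with h | ⟨-, x, h1, h2⟩
    · exact mem_union_left _ h
    · exact mem_union_right _ (mem_biUnion.2 ⟨x, h1, mem_filter.2 ⟨mem_univ _, h2.symm⟩⟩)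
  have h2 : (X.biUnion fun x => univ.filter (G.Adj x)).card ≤ ∑ x ∈ X, dg G x := card_biUnion_le
  have h3 : ∑ x ∈ X, dg G x ≤ ∑ x ∈ X, (a + if a < dg G x ∧ dg G x ≤ b then dg G x else 0) := by
    refine sum_le_sum fun x hx => ?_
    have := hX x hx
    split_ifs with h <;> omega
  have h4 : ∑ x ∈ X, (if a < dg G x ∧ dg G x ≤ b then dg G x else 0) ≤ mass G a b := by
    rw [mass, sum_filter]
    exact sum_le_sum_of_subset (subset_univ _)
  rw [sum_add_distrib, sum_const, smul_eq_mul] at h3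
  have h5 := (card_le_card h1).trans (card_union_le _ _)
  nlinarith

theorem exists_window {G : SimpleGraph V} (e : ℕ → ℕ) (he : Monotone e) {M : ℕ} (hM : 0 < M) :
    ∃ i < M, M * mass G (e i) (e (i + 1)) ≤ ∑ v, dg G v := by
  have h1 : ∀ k, ∑ i ∈ range k, mass G (e i) (e (i + 1)) ≤ mass G (e 0) (e k) := by
    intro k
    induction k with
    | zero => simp
    | succ k ih =>
      rw [sum_range_succ]
      refine (Nat.add_le_add_right ih _).trans ?_
      simp only [mass, sum_filter]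
      rw [← sum_add_distrib]
      refine sum_le_sum fun v _ => ?_
      have a1 := he (Nat.zero_le k)
      have a2 := he (Nat.le_succ k)
      simp only [Nat.succ_eq_add_one] at a2
      split_ifs <;> omega
  have h2 : mass G (e 0) (e M) ≤ ∑ v, dg G v := sum_le_sum_of_subset (filter_subset _ _)
  obtain ⟨i, hi, h⟩ := exists_min_image (range M) (fun i => mass G (e i) (e (i + 1)))
    ⟨0, mem_range.2 hM⟩
  have h3 := card_nsmul_le_sum (range M) _ _ h
  rw [card_range, smul_eq_mul] at h3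
  exact ⟨i, mem_range.1 hi, h3.trans ((h1 M).trans h2)⟩

end Ball

/-- A degree scale at which balls of bounded radius around small sets are small. -/
theorem ball_small (F : ℕ → ℕ) (hF : Monotone F) (hF' : ∀ D, D ≤ F D) (C : ℕ) (l : ℕ) :
    ∀ K D₀ : ℕ, ∃ D₁ : ℕ, ∀ (V : Type) [Fintype V] [DecidableEq V] (G : SimpleGraph V),
      ∑ v, dg G v ≤ 12 * Fintype.card V → ∃ D, D₀ ≤ D ∧ D ≤ D₁ ∧
        ∀ X : Finset V, (∀ x ∈ X, dg G x ≤ F D) → D * X.card ≤ C * Fintype.card V →
          K * ((nbh G (F D))^[l] X).card ≤ Fintype.card V := by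
  induction l with
  | zero =>
    intro K D₀
    refine ⟨D₀ + K * C + 1, fun V _ _ G _ => ⟨D₀ + K * C + 1, by omega, le_rfl, fun X _ hX => ?_⟩⟩
    rw [Function.iterate_zero_apply]
    refine Nat.le_of_mul_le_mul_left (c := D₀ + K * C + 1) ?_ (by omega)
    have := Nat.mul_le_mul_left K hX
    nlinarith [Nat.zero_le (D₀ * Fintype.card V)]
  | succ l ih =>
    intro K D₀
    choose g hg using fun a => ih (2 * K * (a + 1)) D₀
    let e : ℕ → ℕ := fun i => (fun a => max a (F (g a)))^[i] 0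
    have e1 : ∀ i, e (i + 1) = max (e i) (F (g (e i))) := fun i =>
      Function.iterate_succ_apply' _ _ _
    have e2 : Monotone e := monotone_nat_of_le_succ fun i => by rw [e1]; exact le_max_left _ _
    refine ⟨e (24 * K + 1), fun V _ _ G hG => ?_⟩
    obtain ⟨i, hi, h⟩ := exists_window (G := G) e e2 (M := 24 * K + 1) (by omega)
    obtain ⟨D, d1, d2, d3⟩ := hg (e i) V G hG
    have d4 : F D ≤ e (i + 1) := by rw [e1]; exact (hF d2).trans (le_max_right _ _)
    refine ⟨D, d1, (hF' D).trans (d4.trans (e2 hi)), fun X x1 x2 => ?_⟩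
    rw [Function.iterate_succ_apply']
    have d5 := card_nbh (dg_iter x1 l) (e i) _ d4
    have d6 := d3 X x1 x2
    have d7 := Nat.mul_le_mul_left (2 * K) d5
    nlinarith [Nat.zero_le (mass G (e i) (e (i + 1)))]

/-- The data extracted from the graph that is to be embedded. -/
structure Str {V : Type} [Fintype V] [DecidableEq V] (G : SimpleGraph V) (p K T : ℕ) where
  rk : V → ℕ
  I : Finset V
  E : Finset V
  R : V → Finset V
  Lk : V → Finset V
  t : V → ℕ
  pc : V → Finset V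
  inj : Function.Injective rk
  IE : I ⊆ E
  cE : K * E.card ≤ Fintype.card V
  first : ∀ x ∈ E, ∀ y, y ∉ E → rk x < rk y
  back : ∀ (w : V) (s : Finset V), (∀ x ∈ s, G.Adj w x ∧ rk x < rk w) → s.card ≤ p
  cR : ∀ v, (R v).card ≤ p
  memR : ∀ v w x, G.Adj v w → rk v < rk w → G.Adj w x → rk x < rk v → x ∈ R v
  cL : ∀ v, (Lk v).card ≤ p
  t6 : ∀ v, t v ≤ T
  tadj : ∀ v w, v ∉ E → w ∉ E → G.Adj v w → t w ≤ t v + 1
  t0 : ∀ v w, v ∈ E → v ∉ I → w ∉ E → G.Adj w v → t w = 0
  ct : K * (univ.filter fun w => t w < T).card ≤ Fintype.card V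
  pcadj : ∀ v w, v ∉ E → w ∉ E → G.Adj v w → pc v = pc w
  cpc : ∀ P, K * (univ.filter fun w => w ∉ E ∧ pc w = P).card ≤ Fintype.card V
  hub : ∀ P, ∃ h ∈ I, ∃ h' ∈ I, (h = h' ∨ (rk h < rk h' ∧ h ∈ Lk h')) ∧
    ∀ w, w ∉ E → pc w = P → ∀ u ∈ I, G.Adj w u → u = h ∨ u = h'

theorem exists_str (T K : ℕ) : ∃ n₀ : ℕ, ∀ (V : Type) [Fintype V] [DecidableEq V]
    (G : SimpleGraph V), n₀ ≤ Fintype.card V → ¬ K33 G → Nonempty (Str G 500000 K T) := by
  classical
  let F : ℕ → ℕ := fun D => 10 ^ 11 * D ^ 3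
  have hF : Monotone F := fun a b h => Nat.mul_le_mul_left _ (Nat.pow_le_pow_left h 3)
  have hF' : ∀ D, D ≤ F D := fun D =>
    (Nat.le_self_pow (by norm_num) D).trans (Nat.le_mul_of_pos_left _ (by norm_num))
  obtain ⟨D₁, hD₁⟩ := ball_small F hF hF' 6 T K (6 * K + 1)
  refine ⟨F D₁ + K * (22500 * D₁ ^ 2) + 1, fun V _ _ G hn hG => ?_⟩
  have hs := sum_dg hG
  obtain ⟨D, d1, d2, d3⟩ := hD₁ V G hs
  set n := Fintype.card V with hnn
  obtain ⟨v0⟩ : Nonempty V := Fintype.card_pos_iff.1 (by omega)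
  let I : Finset V := insert v0 (univ.filter fun v => F D < dg G v)
  have i1 : F D * I.card ≤ 13 * n := by
    have a1 := card_nsmul_le_sum (univ.filter fun v => F D < dg G v) (dg G) (F D)
      fun v hv => (mem_filter.1 hv).2.le
    have a2 : ∑ v ∈ univ.filter fun v => F D < dg G v, dg G v ≤ ∑ v, dg G v :=
      sum_le_sum_of_subset (filter_subset _ _)
    have a3 : I.card ≤ (univ.filter fun v => F D < dg G v).card + 1 := card_insert_le _ _
    have a4 := Nat.mul_le_mul_left (F D) a3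
    have a5 := hF d2
    rw [smul_eq_mul] at a1
    nlinarith
  have i2 : ∀ v, v ∉ I → dg G v ≤ F D := fun v hv => by
    by_contra h
    exact hv (mem_insert_of_mem (mem_filter.2 ⟨mem_univ _, by omega⟩))
  obtain ⟨Z, -, z1, z2⟩ := fragment hG (D := D) (by omega) univ
  rw [card_univ] at z1
  let U : Finset V := (univ \ Z) \ I
  let s : Finset (Finset V) := U.image (comp G U)
  have s1 : ∀ C ∈ s, C ⊆ U ∧ Conn G C := by
    intro C hC
    obtain ⟨x, hx, rfl⟩ := mem_image.1 hC
    exact ⟨comp_subset _ _, conn_comp hx⟩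
  have s2 : Fam G s id := by
    refine ⟨fun C hC => (s1 C hC).2, fun C hC C' hC' hne => ?_⟩
    obtain ⟨x, hx, rfl⟩ := mem_image.1 hC
    obtain ⟨y, hy, rfl⟩ := mem_image.1 hC'
    exact disjoint_left.2 fun z h1 h2 => hne ((comp_eq hx h1).symm.trans (comp_eq hy h2))
  have s3 : ∀ C ∈ s, Disjoint (id C) I := fun C hC =>
    sdiff_disjoint.mono_left (s1 C hC).1
  have s4 : ∀ C ∈ s, C.card ≤ 22500 * D ^ 2 := fun C hC =>
    z2 C ((s1 C hC).1.trans sdiff_subset) (s1 C hC).2
  let wild := s.filter fun C => 3 ≤ (I.filter fun u => Hit G u (id C)).card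
  let tame := s.filter fun C => ¬ 3 ≤ (I.filter fun u => Hit G u (id C)).card
  have w1 : wild.card ≤ 60000 * I.card := wild_count hG id _ I wild le_rfl
    (s2.mono (filter_subset _ _)) (fun C hC => s3 C (mem_filter.1 hC).1)
    fun C hC => (mem_filter.1 hC).2
  have w2 : (wild.biUnion id).card ≤ wild.card * (22500 * D ^ 2) :=
    card_biUnion_le_card_mul _ _ _ fun C hC => s4 C (mem_filter.1 hC).1
  obtain ⟨rk, E, R, Lk, o1, o2, o3, o4, o5, o6, o7, o8, o9⟩ := exists_order hG
    (s2.mono (filter_subset _ _) : Fam G tame id) (fun C hC => s3 C (mem_filter.1 hC).1)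
    (fun C hC => by have := (mem_filter.1 hC).2; omega) (I ∪ Z ∪ wild.biUnion id)
  have e1 : D * E.card ≤ 6 * n := by
    have a1 : (I ∪ Z ∪ wild.biUnion id).card ≤ I.card + Z.card + (wild.biUnion id).card :=
      (card_union_le _ _).trans (Nat.add_le_add_right (card_union_le _ _) _)
    have a2 : 13 * (D * (wild.biUnion id).card) ≤ F D * I.card := by
      have := Nat.mul_le_mul_left (13 * D) (w2.trans (Nat.mul_le_mul_right _ w1))
      simp only [F]
      nlinarith [Nat.zero_le (D ^ 3 * I.card)]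
    have a3 : 13 * (D * I.card) ≤ F D * I.card := by
      rw [← mul_assoc]
      refine Nat.mul_le_mul_right _ ?_
      have := Nat.le_self_pow (n := 3) (by norm_num) D
      simp only [F]
      omega
    have a4 := Nat.mul_le_mul_left D (o3.trans (Nat.mul_le_mul_left 2 a1))
    nlinarith
  have e2 : I ⊆ E := (subset_union_left.trans subset_union_left).trans o2
  have e3 : ∀ w, w ∉ E → w ∈ U := fun w hw => mem_sdiff.2 ⟨mem_sdiff.2 ⟨mem_univ _,
    fun h => hw (o2 (mem_union_left _ (mem_union_right _ h)))⟩, fun h => hw (e2 h)⟩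
  have e4 : ∀ w, w ∉ E → comp G U w ∈ tame := fun w hw => by
    have a1 : comp G U w ∈ s := mem_image_of_mem _ (e3 w hw)
    refine mem_filter.2 ⟨a1, fun h => hw (o2 (mem_union_right _ (mem_biUnion.2
      ⟨_, mem_filter.2 ⟨a1, h⟩, mem_comp_self (e3 w hw)⟩)))⟩
  let X : ℕ → Finset V := fun j => (nbh G (F D))^[j] (E \ I)
  have x1 : ∀ j, X (j + 1) = nbh G (F D) (X j) := fun j => Function.iterate_succ_apply' _ _ _
  have x2 : Monotone X := monotone_nat_of_le_succ fun j y hy => by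
    rw [x1]; exact mem_nbh.2 (Or.inl hy)
  have x3 : K * (X T).card ≤ n := d3 (E \ I) (fun x hx => i2 x (mem_sdiff.1 hx).2)
    ((Nat.mul_le_mul_left D (card_le_card sdiff_subset)).trans e1)
  have x4 : ∀ w, ∃ j, w ∈ X (j + 1) ∨ T ≤ j := fun w => ⟨T, Or.inr le_rfl⟩
  refine ⟨⟨rk, I, E, R, Lk, fun w => Nat.find (x4 w), comp G U, o1, e2, ?_, o4,
    fun w s hs => le_trans (card_le_card fun x hx => mem_filter.2 ⟨mem_univ _, hs x hx⟩) (o5 w),
    o6, o7, o8, fun v => Nat.find_min' _ (Or.inr le_rfl), ?_, ?_, ?_, ?_, ?_, ?_⟩⟩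
  · nlinarith [Nat.mul_le_mul_right E.card d1]
  · intro v w hv hw h
    refine Nat.find_min' _ ?_
    rcases Nat.find_spec (x4 v) with h1 | h1
    · left
      rw [x1]
      exact mem_nbh.2 (Or.inr ⟨i2 w fun h => hw (e2 h), v, h1, h.symm⟩)
    · right; omega
  · intro v w h1 h2 hw h
    refine (Nat.find_eq_zero _).2 (Or.inl ?_)
    rw [x1]
    exact mem_nbh.2 (Or.inr ⟨i2 w fun h => hw (e2 h), v, mem_sdiff.2 ⟨h1, h2⟩, h⟩)
  · refine le_trans (Nat.mul_le_mul_left _ (card_le_card fun w hw => ?_)) x3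
    have a1 := (mem_filter.1 hw).2
    rcases Nat.find_spec (x4 w) with h1 | h1
    · exact x2 (by omega) h1
    · omega
  · intro v w hv hw h
    exact (comp_eq (e3 v hv) (comp_closed (mem_comp_self (e3 v hv)) (e3 w hw) h)).symm
  · intro P
    rcases (univ.filter fun w => w ∉ E ∧ comp G U w = P).eq_empty_or_nonempty with h | ⟨v, hv⟩
    · simp [h]
    · obtain ⟨-, a1, rfl⟩ := mem_filter.1 hv
      have a2 : (univ.filter fun w => w ∉ E ∧ comp G U w = comp G U v) ⊆ comp G U v := by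
        intro w hw
        obtain ⟨-, b1, b2⟩ := mem_filter.1 hw
        exact b2 ▸ mem_comp_self (e3 w b1)
      have a3 := (card_le_card a2).trans (s4 _ (mem_filter.1 (e4 v a1)).1)
      have a4 : D ^ 2 ≤ D₁ ^ 2 := Nat.pow_le_pow_left d2 2
      have a5 := Nat.mul_le_mul_left K (a3.trans (Nat.mul_le_mul_left 22500 a4))
      omega
  · intro P
    have v1 : v0 ∈ I := mem_insert_self _ _
    by_cases h : ∃ w, w ∉ E ∧ comp G U w = P
    · obtain ⟨v, a1, rfl⟩ := h
      have a2 := e4 v a1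
      have a3 := (mem_filter.1 a2).2
      set T' := I.filter fun u => Hit G u (id (comp G U v)) with hT'
      have a4 : ∀ w, w ∉ E → comp G U w = comp G U v → ∀ u ∈ I, G.Adj w u → u ∈ T' :=
        fun w b1 b2 u b3 b4 => mem_filter.2 ⟨b3, w, b2 ▸ mem_comp_self (e3 w b1), b4.symm⟩
      have a5 : T'.card = 0 ∨ T'.card = 1 ∨ T'.card = 2 := by omega
      rcases a5 with a5 | a5 | a5
      · refine ⟨v0, v1, v0, v1, Or.inl rfl, fun w b1 b2 u b3 b4 => ?_⟩
        have := a4 w b1 b2 u b3 b4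
        rw [card_eq_zero.1 a5] at this
        simp at this
      · obtain ⟨x, hx⟩ := card_eq_one.1 a5
        have b0 : x ∈ T' := by rw [hx]; simp
        refine ⟨x, (mem_filter.1 b0).1, x, (mem_filter.1 b0).1, Or.inl rfl,
          fun w b1 b2 u b3 b4 => Or.inl ?_⟩
        have := a4 w b1 b2 u b3 b4
        rwa [hx, mem_singleton] at this
      · obtain ⟨x, y, hxy, hx⟩ := card_eq_two.1 a5
        obtain ⟨b1, b2⟩ := mem_filter.1 (show x ∈ T' by rw [hx]; simp)
        obtain ⟨b3, b4⟩ := mem_filter.1 (show y ∈ T' by rw [hx]; simp)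
        have b5 : ∀ w, w ∉ E → comp G U w = comp G U v → ∀ u ∈ I, G.Adj w u → u = x ∨ u = y := by
          intro w c1 c2 u c3 c4
          have := a4 w c1 c2 u c3 c4
          rwa [hx, mem_insert, mem_singleton] at this
        rcases lt_or_gt_of_ne (o1.ne hxy) with c | c
        · exact ⟨x, b1, y, b3, Or.inr ⟨c, o9 y b3 x b1 c _ a2 b4 b2⟩, b5⟩
        · exact ⟨y, b3, x, b1, Or.inr ⟨c, o9 x b1 y b3 c _ a2 b2 b4⟩,
            fun w c1 c2 u c3 c4 => (b5 w c1 c2 u c3 c4).symm⟩
    · exact ⟨v0, v1, v0, v1, Or.inl rfl, fun w b1 b2 => absurd ⟨w, b1, b2⟩ h⟩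

end Pool.Agent.MP_a4cd82_co.H14

end MrgPart4

-- ======== part 5: formerly Pool.Agent.MP_a4cd82_co.h14.Tools
section MrgPart5

/-!
Paths of cliques in the reduced graph, and a potential function for balancing loads.
-/

set_option autoImplicit false
set_option linter.unusedSectionVars false
set_option linter.unusedVariables false

open Finset

namespace Pool.Agent.MP_a4cd82_co.H14

variable {ι : Type} [DecidableEq ι]

theorem five {r : ι → ι → Prop} (rs : ∀ a b, r a b → r b a) {a0 a1 a2 a3 a4 : ι} (h01 : r a0 a1)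
    (h02 : r a0 a2) (h03 : r a0 a3) (h04 : r a0 a4) (h12 : r a1 a2) (h13 : r a1 a3)
    (h14 : r a1 a4) (h23 : r a2 a3) (h24 : r a2 a4) (h34 : r a3 a4) :
    ∀ i j : Fin 5, i ≠ j → r (![a0, a1, a2, a3, a4] i) (![a0, a1, a2, a3, a4] j) := by
  intro i j h
  fin_cases i <;> fin_cases j <;>
    first | exact absurd rfl h | assumption | (apply rs; assumption)

theorem exists_perm {f l : Fin 5} (h : f ≠ l) (n : Fin 5 → ℕ) : ∃ π : Fin 5 ≃ Fin 5,
    π 0 = f ∧ π 1 = l ∧ n (π 3) ≤ n (π 2) ∧ n (π 4) ≤ n (π 3) := by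
  have key : ∃ a b c : Fin 5,
      f ≠ a ∧ f ≠ b ∧ f ≠ c ∧ l ≠ a ∧ l ≠ b ∧ l ≠ c ∧ a ≠ b ∧ a ≠ c ∧ b ≠ c := by
    have a1 : ((univ.erase f).erase l).card = 3 := by
      rw [card_erase_of_mem (by simp [h.symm]), card_erase_of_mem (mem_univ _)]
      rfl
    obtain ⟨a, b, c, h1, h2, h3, h4⟩ := card_eq_three.1 a1
    have a2 : ∀ x ∈ ({a, b, c} : Finset (Fin 5)), l ≠ x ∧ f ≠ x := by
      intro x hx
      rw [← h4, mem_erase, mem_erase] at hx
      exact ⟨hx.1.symm, hx.2.1.symm⟩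
    exact ⟨a, b, c, (a2 a (by simp)).2, (a2 b (by simp)).2, (a2 c (by simp)).2,
      (a2 a (by simp)).1, (a2 b (by simp)).1, (a2 c (by simp)).1, h1, h2, h3⟩
  have key2 : ∀ a b c : Fin 5, f ≠ a → f ≠ b → f ≠ c → l ≠ a → l ≠ b → l ≠ c → a ≠ b → a ≠ c →
      b ≠ c → n b ≤ n a → n c ≤ n b → ∃ π : Fin 5 ≃ Fin 5,
        π 0 = f ∧ π 1 = l ∧ n (π 3) ≤ n (π 2) ∧ n (π 4) ≤ n (π 3) := by
    intro a b c h1 h2 h3 h4 h5 h6 h7 h8 h9 k1 k2
    have a1 : Function.Injective ![f, l, a, b, c] := fun i j e => by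
      by_contra k
      exact five (r := Ne) (fun _ _ => Ne.symm) h h1 h2 h3 h4 h5 h6 h7 h8 h9 i j k e
    exact ⟨Equiv.ofBijective _ (Finite.injective_iff_bijective.1 a1), rfl, rfl, k1, k2⟩
  obtain ⟨a, b, c, h1, h2, h3, h4, h5, h6, h7, h8, h9⟩ := key
  rcases le_total (n a) (n b) with k1 | k1 <;> rcases le_total (n b) (n c) with k2 | k2 <;>
    rcases le_total (n a) (n c) with k3 | k3
  · exact key2 c b a h3 h2 h1 h6 h5 h4 h9.symm h8.symm h7.symm k2 k1
  · exact key2 c b a h3 h2 h1 h6 h5 h4 h9.symm h8.symm h7.symm k2 k1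
  · exact key2 b c a h2 h3 h1 h5 h6 h4 h9 h7.symm h8.symm k2 k3
  · exact key2 b a c h2 h1 h3 h5 h4 h6 h7.symm h9 h8 k1 k3
  · exact key2 c a b h3 h1 h2 h6 h4 h5 h8.symm h9.symm h7 k3 k1
  · exact key2 a c b h1 h3 h2 h4 h6 h5 h8 h7 h9.symm k3 k2
  · exact key2 a b c h1 h2 h3 h4 h5 h6 h7 h8 h9 k1 k2
  · exact key2 a b c h1 h2 h3 h4 h5 h6 h7 h8 h9 k1 k2

/-- A clique of admissible clusters. -/
def Clq (r : ι → ι → Prop) (gd : Fin 5 → ι → Prop) (X : Fin 5 → ι) : Prop :=
  (∀ i j, i ≠ j → r (X i) (X j)) ∧ ∀ i, gd i (X i)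

theorem Clq.update {r : ι → ι → Prop} (rs : ∀ a b, r a b → r b a) {gd : Fin 5 → ι → Prop}
    {X : Fin 5 → ι} (h : Clq r gd X) {j : Fin 5} {y : ι} (h1 : gd j y)
    (h2 : ∀ i, i ≠ j → r (X i) y) : Clq r gd (Function.update X j y) := by
  refine ⟨fun p q hpq => ?_, fun p => ?_⟩
  · by_cases e : p = j
    · have e' : q ≠ j := e ▸ hpq.symm
      rw [e, Function.update_self, Function.update_of_ne e']
      exact rs _ _ (h2 q e')
    by_cases e' : q = j
    · rw [e', Function.update_self, Function.update_of_ne e]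
      exact h2 p e
    rw [Function.update_of_ne e, Function.update_of_ne e']
    exact h.1 p q hpq
  · by_cases e : p = j
    · rw [e, Function.update_self]; exact h1
    · rw [Function.update_of_ne e]; exact h.2 p

/-- `Y` is reached from `X` within `n` steps, each changing one coordinate. -/
def Pth (ok : (Fin 5 → ι) → Prop) (n : ℕ) (X Y : Fin 5 → ι) : Prop :=
  ∃ s : ℕ → Fin 5 → ι, s 0 = X ∧ (∀ t, n ≤ t → s t = Y) ∧ (∀ t, ok (s t)) ∧
    ∀ t, ∃ j, ∀ i, i ≠ j → s (t + 1) i = s t i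

theorem Pth.refl {ok : (Fin 5 → ι) → Prop} {X : Fin 5 → ι} (h : ok X) : Pth ok 0 X X :=
  ⟨fun _ => X, rfl, fun _ _ => rfl, fun _ => h, fun _ => ⟨0, fun _ _ => rfl⟩⟩

theorem Pth.mono {ok : (Fin 5 → ι) → Prop} {n n' : ℕ} {X Y : Fin 5 → ι} (h : Pth ok n X Y)
    (hn : n ≤ n') : Pth ok n' X Y := by
  obtain ⟨s, h1, h2, h3⟩ := h
  exact ⟨s, h1, fun t ht => h2 t (hn.trans ht), h3⟩

theorem Pth.cons {ok : (Fin 5 → ι) → Prop} {n : ℕ} {X Y : Fin 5 → ι} (h0 : ok X) {j : Fin 5}
    {y : ι} (h : Pth ok n (Function.update X j y) Y) : Pth ok (n + 1) X Y := by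
  obtain ⟨s, h1, h2, h3, h4⟩ := h
  refine ⟨fun t => Nat.casesOn t X s, rfl, fun t ht => ?_, fun t => ?_, fun t => ?_⟩
  · obtain ⟨t, rfl⟩ : ∃ u, t = u + 1 := ⟨t - 1, by omega⟩
    exact h2 t (by omega)
  · cases t with
    | zero => exact h0
    | succ t => exact h3 t
  · cases t with
    | zero => exact ⟨j, fun i hi => by
        show s 0 i = X i
        rw [h1, Function.update_of_ne hi]⟩
    | succ t => exact h4 t

theorem connect {r : ι → ι → Prop} (rs : ∀ a b, r a b → r b a) {gd : Fin 5 → ι → Prop}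
    {D₀ : Finset (Fin 5)} {B Y : Fin 5 → ι} (hB : Clq r gd B)
    (ext : ∀ j ∈ D₀, ∀ (X : Fin 5 → ι) (z : ι), (∀ i, i ∉ D₀ → X i = B i) →
      ∃ y, gd j y ∧ (∀ i, i ≠ j → r (X i) y) ∧ r z y) {n : ℕ} (hY : Pth (Clq r gd) n B Y) :
    ∀ D, D ⊆ D₀ → ∀ X, Clq r gd X → (∀ i, i ∉ D → X i = B i) →
      Pth (Clq r gd) (n + 5 * D.card) X Y := by
  have adj : ∀ z, ∀ D, D ⊆ D₀ → ∀ k X, Clq r gd X → (∀ i, i ∉ D₀ → X i = B i) →
      (∀ X', Clq r gd X' → (∀ i, i ∉ D → X' i = X i) → (∀ i ∈ D, r (X' i) z) →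
        Pth (Clq r gd) k X' Y) → Pth (Clq r gd) (k + D.card) X Y := by
    intro z D
    induction D using Finset.induction_on with
    | empty => exact fun _ k X h1 _ h3 => h3 X h1 (fun _ _ => rfl) (by simp)
    | insert a D ha ih =>
      intro hD k X h1 h2 h3
      have hD' := (subset_insert _ _).trans hD
      rw [card_insert_of_notMem ha, add_comm D.card, ← add_assoc]
      refine ih hD' (k + 1) X h1 h2 fun X' c1 c2 c3 => ?_
      obtain ⟨y, y1, y2, y3⟩ := ext a (hD (mem_insert_self _ _)) X' z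
        fun i hi => (c2 i fun k => hi (hD' k)).trans (h2 i hi)
      refine Pth.cons c1 (h3 _ (c1.update rs y1 y2) (fun i hi => ?_) fun i hi => ?_)
      · rw [mem_insert, not_or] at hi
        rw [Function.update_of_ne hi.1, c2 i hi.2]
      · rcases mem_insert.1 hi with e | k
        · rw [e, Function.update_self]; exact rs _ _ y3
        · rw [Function.update_of_ne (ne_of_mem_of_not_mem k ha)]; exact c3 i k
  intro D
  induction D using Finset.induction_on with
  | empty =>
    intro _ X _ h2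
    rw [show X = B from funext fun i => h2 i (by simp)]
    exact hY
  | insert a D ha ih =>
    intro hD X h1 h2
    have hD' := (subset_insert _ _).trans hD
    have c0 : (insert a D).card ≤ 5 := card_le_univ _
    rw [card_insert_of_notMem ha] at c0 ⊢
    refine (adj (B a) D hD' (n + 5 * D.card + 1) X h1 (fun i hi => h2 i fun k => hi (hD k))
      fun X' c1 c2 c3 => Pth.cons c1 (ih hD' (Function.update X' a (B a))
        (c1.update rs (hB.2 a) fun i hi => ?_) fun i hi => ?_)).mono (by omega)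
    · by_cases k : i ∈ D
      · exact c3 i k
      · rw [c2 i k, h2 i (by simp [hi, k])]
        exact hB.1 i a hi
    · by_cases e : i = a
      · rw [e, Function.update_self]
      · rw [Function.update_of_ne e, c2 i hi, h2 i (by simp [e, hi])]

theorem Pth.adj {r : ι → ι → Prop} (rs : ∀ a b, r a b → r b a) {gd : Fin 5 → ι → Prop}
    {s : ℕ → Fin 5 → ι} (h3 : ∀ t, Clq r gd (s t))
    (h4 : ∀ t, ∃ j, ∀ i, i ≠ j → s (t + 1) i = s t i) :
    ∀ t t' i i', t ≤ t' + 1 → t' ≤ t + 1 → i ≠ i' → r (s t i) (s t' i') := by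
  have key : ∀ t i i', i ≠ i' → r (s t i) (s (t + 1) i') := by
    intro t i i' h
    obtain ⟨j, hj⟩ := h4 t
    by_cases e : i' = j
    · rw [← hj i (e ▸ h)]; exact (h3 _).1 i i' h
    · rw [hj i' e]; exact (h3 _).1 i i' h
  intro t t' i i' h1 h2 h
  rcases (show t' = t ∨ t' = t + 1 ∨ t = t' + 1 by omega) with e | e | e <;> rw [e]
  · exact (h3 _).1 i i' h
  · exact key t i i' h
  · exact rs _ _ (key t' i' i h.symm)

/-- The potential. -/
noncomputable def Phi (G : Finset ι) (cap u : ι → ℝ) : ℝ :=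
  ∑ b ∈ G, cap b * Real.exp (100 * (u b / cap b))

theorem Phi_mono {G : Finset ι} {cap u u' : ι → ℝ} (hc : ∀ b ∈ G, 0 ≤ cap b)
    (h : ∀ b ∈ G, u' b ≤ u b) : Phi G cap u' ≤ Phi G cap u :=
  sum_le_sum fun b hb => by
    have := hc b hb
    have := h b hb
    gcongr

theorem pot_step {G S1 S2 S3 : Finset ι} {cap u : ι → ℝ} {c₀ C : ℝ} (c0 : 0 < c₀)
    (hc : ∀ b ∈ G, c₀ ≤ cap b) (s1 : S1 ⊆ G) (s2 : S2 ⊆ S1) (s3 : S3 ⊆ S2) (C0 : 0 < C)
    (C1 : 3 * C ≤ ∑ b ∈ S1, cap b) (C2 : 2 * C ≤ ∑ b ∈ S2, cap b) (C3 : C ≤ ∑ b ∈ S3, cap b)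
    {d1 d2 d3 : ι} (m1 : d1 ∈ S1) (m2 : d2 ∈ S2) (m3 : d3 ∈ S3)
    (k1 : ∀ b ∈ S1, u d1 / cap d1 ≤ u b / cap b) (k2 : ∀ b ∈ S2, u d2 / cap d2 ≤ u b / cap b)
    (k3 : ∀ b ∈ S3, u d3 / cap d3 ≤ u b / cap b) :
    C * Real.exp (100 * (u d3 / cap d3)) ≤ Phi G cap u ∧
    ∀ (n1 n2 n3 : ℝ) (u' : ι → ℝ), 0 ≤ n3 → n3 ≤ n2 → n2 ≤ n1 → 10 ^ 4 * n1 ≤ c₀ →
      (∀ b ∈ G, u' b ≤ u b + ((if d1 = b then n1 else 0) + (if d2 = b then n2 else 0) +
        if d3 = b then n3 else 0)) →
      Phi G cap u' ≤ Phi G cap u * Real.exp (110 * (n1 + n2 + n3) / (3 * C)) := by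
  let φ : ι → ℝ := fun b => Real.exp (100 * (u b / cap b))
  have φ0 : ∀ b, 0 < φ b := fun b => Real.exp_pos _
  have φ1 : ∀ a b, u a / cap a ≤ u b / cap b → φ a ≤ φ b := fun a b h =>
    Real.exp_le_exp.2 (by linarith)
  have a1 := φ1 _ _ (k1 d2 (s2 m2))
  have a2 := φ1 _ _ (k2 d3 (s3 m3))
  have a3 : ∀ (S : Finset ι) (x : ℝ), S ⊆ G →
      ∑ b ∈ G, (if b ∈ S then cap b * x else 0) = (∑ b ∈ S, cap b) * x := fun S x h => by
    rw [← sum_filter, filter_mem_eq_inter, inter_eq_right.2 h, sum_mul]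
  have a4 : C * (φ d1 + φ d2 + φ d3) ≤ Phi G cap u := by
    have b1 : ∀ b ∈ G, (if b ∈ S1 then cap b * φ d1 else 0) +
        (if b ∈ S2 then cap b * (φ d2 - φ d1) else 0) +
        (if b ∈ S3 then cap b * (φ d3 - φ d2) else 0) ≤ cap b * φ b := by
      intro b hb
      have c1 := c0.le.trans (hc b hb)
      by_cases e3 : b ∈ S3
      · rw [if_pos e3, if_pos (s3 e3), if_pos (s2 (s3 e3))]
        linarith [mul_le_mul_of_nonneg_left (φ1 _ _ (k3 b e3)) c1]
      rw [if_neg e3]
      by_cases e2 : b ∈ S2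
      · rw [if_pos e2, if_pos (s2 e2)]
        linarith [mul_le_mul_of_nonneg_left (φ1 _ _ (k2 b e2)) c1]
      rw [if_neg e2]
      by_cases e1 : b ∈ S1
      · rw [if_pos e1]
        linarith [mul_le_mul_of_nonneg_left (φ1 _ _ (k1 b e1)) c1]
      · rw [if_neg e1]
        linarith [mul_nonneg c1 (φ0 b).le]
    have b2 := sum_le_sum b1
    rw [sum_add_distrib, sum_add_distrib, a3 _ _ s1, a3 _ _ (s2.trans s1),
      a3 _ _ (s3.trans (s2.trans s1))] at b2
    have b3 := mul_le_mul_of_nonneg_right C1 (φ0 d1).le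
    have b4 := mul_le_mul_of_nonneg_right C2 (sub_nonneg.2 a1)
    have b5 := mul_le_mul_of_nonneg_right C3 (sub_nonneg.2 a2)
    unfold Phi
    linarith
  refine ⟨le_trans (mul_le_mul_of_nonneg_left (by linarith [φ0 d1, φ0 d2]) C0.le) a4,
    fun n1 n2 n3 u' n0 n32 n21 hn hu => ?_⟩
  let δ : ι → ℝ := fun b => (if d1 = b then n1 else 0) + (if d2 = b then n2 else 0) +
    if d3 = b then n3 else 0
  have b1 : ∀ b ∈ G, cap b * Real.exp (100 * (u' b / cap b)) ≤ cap b * φ b + 110 * (δ b * φ b) := by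
    intro b hb
    have c1 := c0.trans_le (hc b hb)
    have c2 : 0 ≤ δ b ∧ δ b ≤ 3 * n1 := by
      simp only [δ]
      split_ifs <;> constructor <;> linarith
    obtain ⟨x, hx⟩ : ∃ x, δ b = x * cap b := ⟨δ b / cap b, by field_simp⟩
    have c3 : 0 ≤ x := by
      by_contra k
      nlinarith [mul_pos (neg_pos.2 (not_le.1 k)) c1]
    have c4 : 100 * x ≤ 0.09 := by
      by_contra k
      nlinarith [mul_pos (sub_pos.2 (not_le.1 k)) c1, hc b hb]
    have c5 : Real.exp (100 * x) ≤ 1 + 110 * x := by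
      refine (Real.exp_bound_div_one_sub_of_interval (by linarith) (by linarith)).trans ?_
      rw [div_le_iff₀ (by linarith)]
      nlinarith
    have c6 : u' b / cap b ≤ u b / cap b + x := by
      rw [div_add' _ _ _ c1.ne', ← hx]
      exact div_le_div_of_nonneg_right (hu b hb) c1.le
    have c7 : Real.exp (100 * (u' b / cap b)) ≤ φ b * (1 + 110 * x) := by
      refine le_trans ?_ (mul_le_mul_of_nonneg_left c5 (φ0 b).le)
      rw [← Real.exp_add]
      exact Real.exp_le_exp.2 (by linarith)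
    rw [hx]
    nlinarith [mul_le_mul_of_nonneg_left c7 c1.le]
  have b2 := sum_le_sum b1
  have b3 : ∑ b ∈ G, δ b * φ b = n1 * φ d1 + n2 * φ d2 + n3 * φ d3 := by
    simp only [δ, add_mul, ite_mul, zero_mul, sum_add_distrib, sum_ite_eq, s1 m1, s1 (s2 m2),
      s1 (s2 (s3 m3)), if_true]
  rw [sum_add_distrib, ← mul_sum, b3] at b2
  have b4 : 3 * (n1 * φ d1 + n2 * φ d2 + n3 * φ d3) ≤ (n1 + n2 + n3) * (φ d1 + φ d2 + φ d3) := by
    nlinarith [mul_nonneg (sub_nonneg.2 n21) (sub_nonneg.2 a1),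
      mul_nonneg (sub_nonneg.2 n32) (sub_nonneg.2 a2),
      mul_nonneg (sub_nonneg.2 (n32.trans n21)) (sub_nonneg.2 (a1.trans a2))]
  obtain ⟨y, hy⟩ : ∃ y, 110 * (n1 + n2 + n3) = y * (3 * C) :=
    ⟨110 * (n1 + n2 + n3) / (3 * C), by field_simp⟩
  have b5 : 0 ≤ y := by
    by_contra k
    nlinarith [mul_pos (neg_pos.2 (not_le.1 k)) C0]
  have b6 : 0 ≤ Phi G cap u :=
    le_trans (mul_nonneg C0.le (by linarith [φ0 d1, φ0 d2, φ0 d3])) a4
  rw [hy, mul_div_cancel_right₀ _ (by positivity)]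
  refine le_trans ?_ (mul_le_mul_of_nonneg_left (Real.add_one_le_exp y) b6)
  have b7 : 110 * (n1 + n2 + n3) * (φ d1 + φ d2 + φ d3) ≤ 3 * (y * Phi G cap u) := by
    rw [hy]
    linarith [mul_le_mul_of_nonneg_left a4 b5]
  unfold Phi at *
  linarith

end Pool.Agent.MP_a4cd82_co.H14

end MrgPart5

-- marker of a merged file
example : 731051 + 97007 = 731051 + 97007 := rfl
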