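import Pool.Agent.MP_a4cd82_co.h14.Host
import Pool.Agent.MP_a4cd82_co.h14.Tools
import Pool.Agent.MP_a4cd82_co.Dirac

-- ======== part 0: formerly Pool.Agent.MP_a4cd82_co.h14.Colours
section MrgPart0

/-!
The first way of building a host, and estimates for the second one.
-/

set_option autoImplicit false
set_option linter.unusedSectionVars false
set_option linter.unusedVariables false

open Finset

namespace Pool.Agent.MP_a4cd82_co.H14

variable {W : Type} [DecidableEq W] {ι : Type} [Fintype ι] [DecidableEq ι]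
  {H : SimpleGraph W} {ν m e ε s₀ : ℝ}

/-- The numerical hypotheses. -/
structure Num (ν m e ε s₀ : ℝ) : Prop where
  ν0 : 0 < ν
  m0 : 10 ^ 14 ≤ m
  e0 : 0 ≤ e
  ε0 : 0 ≤ ε
  ε1 : ε ≤ 1
  es : 10 ^ 10 * e ≤ ε * s₀
  s0 : 0 ≤ s₀
  sm : s₀ ≤ m / 10 ^ 25

theorem Num.es' (h : Num ν m e ε s₀) : 10 ^ 10 * e ≤ s₀ :=
  h.es.trans (mul_le_of_le_one_left h.s0 h.ε1)

theorem Sys.lr (σ : Sys H ι ν m e) (h : Num ν m e ε s₀) {a b : ι} (hab : 1 / 10 ^ 6 ≤ σ.β a b)
    {S T : Finset W} (h1 : S ⊆ σ.cl a) (h2 : T ⊆ σ.cl b) (h3 : s₀ ≤ S.card) (h4 : s₀ ≤ T.card) :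
    LR H ε (1 / 2000000) S T := by
  have a1 := h.es
  have a2 := h.e0
  have a3 := mul_nonneg h.ε0 h.s0
  exact (σ.tb a b).lr h1 h2 h3 h4 h.ε0 (by linarith) (by linarith) (by nlinarith)

theorem Sys.wm (σ : Sys H ι ν m e) (b : ι) : ((σ.R b).card : ℝ) ≤ m :=
  (Nat.cast_le.2 (card_le_card (σ.sub b))).trans (σ.cm b)

theorem Sys.parts (σ : Sys H ι ν m e) (h : Num ν m e ε s₀) {J : Type} [Fintype J] [DecidableEq J]
    (hJ : Fintype.card J ≤ 76) (k : J → ℝ) (h0 : ∀ j, 0 ≤ k j) (h1 : ∑ j, k j ≤ 0.999999) :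
    ∃ P : ι → J → Finset W, (∀ b j, P b j ⊆ σ.R b) ∧
      (∀ b j j', j ≠ j' → Disjoint (P b j) (P b j')) ∧
      ∀ b j, k j * (σ.R b).card ≤ (P b j).card := by
  have a1 : (Fintype.card J : ℝ) ≤ 76 := by exact_mod_cast hJ
  choose P p1 p2 p3 using fun b => exists_parts (σ.R b) k h0 (by
    linarith [σ.big b, h.m0, mul_le_mul_of_nonneg_right h1 (Nat.cast_nonneg (α := ℝ) (σ.R b).card)])
  exact ⟨P, p1, p2, p3⟩

theorem card_nbr_le (u v : Prop) (x x' : W) (X U : Finset W) :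
    ((nbr H u v x x' X).card : ℝ) ≤ (nbr H u v x x' X \ U).card + (X ∩ U).card := by
  have a1 := card_sdiff_add_card_inter (nbr H u v x x' X) U
  have a2 : (nbr H u v x x' X ∩ U).card ≤ (X ∩ U).card :=
    card_le_card (inter_subset_inter_right nbr_subset)
  exact_mod_cast (show _ ≤ _ by omega)

theorem sum_ite_card (s : Finset ι) (c : ℝ) : ∑ b, (if b ∈ s then c else 0) = s.card * c := by
  simp

theorem sum_step {J : Type} [DecidableEq J] {u u' : ι → ℕ} {B : Fin 5 → ι} {ja : Fin 5 → J} {j : J}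
    {n : Fin 5 → ℕ} (h : ∀ b, u' b ≤ u b + ∑ a, if B a = b ∧ ja a = j then n a else 0) :
    ∑ b, u' b ≤ ∑ b, u b + ∑ a, if ja a = j then n a else 0 := by
  refine (sum_le_sum fun b _ => h b).trans ?_
  rw [sum_add_distrib, sum_comm]
  refine Nat.add_le_add_left (sum_le_sum fun a _ => ?_) _
  by_cases k : ja a = j <;> simp [k]

theorem tot_step {M M' : Fin 5 → Fin 5 → Fin 5 → ℕ} {c c' : Fin 5} {n : Fin 5 → ℕ}
    (h1 : ∀ a, M c c' a + n a ≤ M' c c' a) (h2 : ∀ c c' a, M c c' a ≤ M' c c' a) :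
    ∑ c, ∑ c', ∑ a, M c c' a + ∑ a, n a ≤ ∑ c, ∑ c', ∑ a, M' c c' a := by
  have a1 : ∑ a, n a = ∑ p, ∑ q, if q = c' then if p = c then ∑ a, n a else 0 else 0 := by simp
  rw [a1, ← sum_add_distrib]
  refine sum_le_sum fun p _ => ?_
  rw [← sum_add_distrib]
  refine sum_le_sum fun q _ => ?_
  split_ifs with k1 k2
  · rw [k1, k2, ← sum_add_distrib]
    exact sum_le_sum fun a _ => h1 a
  · exact (add_zero _).trans_le (sum_le_sum fun a _ => h2 p q a)
  · exact (add_zero _).trans_le (sum_le_sum fun a _ => h2 p q a)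

theorem Sys.red (σ : Sys H ι ν m e) (h : Num ν m e ε s₀) {L : Fin 5 → Fin 5 → Fin 5 → ℕ}
    (hL : ((∑ c, ∑ c', ∑ a, L c c' a : ℕ) : ℝ) ≤ ν)
    (inn : ∀ a Y, Y ⊆ σ.R a → m / 10 ^ 12 ≤ Y.card → Tup H ε (1 / 2000000) s₀ Y) (i : ι)
    (hi : 1.00005 * ν ≤ ∑ b, σ.β i b ^ 2 * (σ.R b).card) :
    Nonempty (Host H ε (1 / 2000000) s₀ 23 L) := by
  classical
  have hm := h.m0
  obtain ⟨P, p1, p2, p3⟩ := σ.parts h (J := Fin 2) (by simp) ![1 / 10 ^ 5, 0.99998]
    (fun j => by fin_cases j <;> norm_num) (by norm_num [Fin.sum_univ_two])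
  have p0 : ∀ b j, P b j ⊆ σ.cl b := fun b j => (p1 b j).trans (σ.sub b)
  have p4 : ∀ b, 0.99998 * ((σ.R b).card : ℝ) ≤ (P b 1).card := fun b => p3 b 1
  obtain ⟨Q, q1, q2⟩ := inn i (P i 0) (p1 _ _) (by
    have : 1 / 10 ^ 5 * ((σ.R i).card : ℝ) ≤ (P i 0).card := p3 i 0
    linarith [σ.big i])
  refine σ.mk_host h.ν0 (by linarith) h.e0 h.ε0 h.es (by simp) 0 p0 p2 (fun _ => i) Q
    (fun c => (q1 c).1) (fun c => (q1 c).2) q2
    (fun M u => ∑ b, u b 1 ≤ ∑ c, ∑ c', ∑ a, M c c' a) (by simp)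
    fun c c' x x' Bad M U n a1 a2 a3 a5 a6 => ?_
  have a4 : ∃ b, 1 / 10 ^ 6 ≤ σ.β i b ∧
      m / 10 ^ 12 ≤ (nbr H True True x x' (P b 1) \ U).card := by
    by_contra hn
    push Not at hn
    have b1 : ∀ b, σ.β i b ^ 2 * (σ.R b).card ≤
        (if b ∈ Bad then m else 0) + (m / 10 ^ 11 + 1.000021 * ((P b 1 ∩ U).card : ℝ)) := by
      intro b
      have c1 := σ.wm b
      have c2 := σ.β0 i b
      have c3 := σ.β1 i b
      have c4 : (0 : ℝ) ≤ (σ.R b).card := Nat.cast_nonneg _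
      have c5 : (0 : ℝ) ≤ (P b 1 ∩ U).card := Nat.cast_nonneg _
      split_ifs with hb
      · have : σ.β i b ^ 2 ≤ 1 := pow_le_one₀ c2 c3
        nlinarith
      · by_cases c6 : 1 / 10 ^ 6 ≤ σ.β i b
        · have d1 := a2 b 1 (Or.inl hb) True True
          have d2 := card_nbr_le (H := H) True True x x' (P b 1) U
          have d3 := hn b c6
          have d4 := mul_le_mul_of_nonneg_left (p4 b) (mul_nonneg c2 c2)
          have d5 := h.es'
          have d6 := h.sm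
          simp only [Sys.g, if_true] at d1
          nlinarith
        · have : σ.β i b ^ 2 ≤ 1 / 10 ^ 12 := by nlinarith
          nlinarith
    have b2 := sum_le_sum fun b (_ : b ∈ univ) => b1 b
    rw [sum_add_distrib, sum_add_distrib, sum_ite_card, sum_const, ← mul_sum, card_univ,
      nsmul_eq_mul, ← Nat.cast_sum] at b2
    have b3 := a3.trans (sum_le_sum fun c _ => sum_le_sum fun c' _ => sum_le_sum
      fun a _ => a5 c c' a)
    have b4 : ((∑ b, (P b 1 ∩ U).card : ℕ) : ℝ) ≤ ν := (Nat.cast_le.2 b3).trans hL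
    nlinarith [σ.km, h.ν0]
  obtain ⟨b, b1, b2⟩ := a4
  have b3 : nbr H True True x x' (P b 1) \ U ⊆ P b 1 := sdiff_subset.trans nbr_subset
  obtain ⟨Q', r1, r2⟩ := inn b _ (b3.trans (p1 _ _)) b2
  refine ⟨fun t a => if t = 0 then Q a else Q' a, fun _ => b, fun _ => 1, by simp,
    fun a => by simp, fun t a => ?_,
    fun t a ht y hy => ?_, fun t a => ?_, fun a => by simpa using (r1 a).1.trans b3,
    fun t t' a a' _ _ ha => ?_, fun u' M' k1 k2 k3 => ?_⟩
  · beta_reduce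
    split_ifs
    · exact (q1 a).2
    · exact (r1 a).2
  · simp only [if_neg ht] at hy
    have := (mem_nbr.1 (mem_sdiff.1 ((r1 a).1 hy)).1).2
    exact ⟨fun _ => this.1 trivial, fun _ => this.2 trivial⟩
  · beta_reduce
    split_ifs
    · exact Or.inl ⟨i, (q1 a).1⟩
    · exact Or.inr ((r1 a).1.trans (sdiff_subset_sdiff nbr_subset Subset.rfl))
  · beta_reduce
    split_ifs
    · exact q2 a a' ha
    · exact σ.lr h b1 ((q1 a).1.trans (p0 _ _)) ((r1 a').1.trans (b3.trans (p0 _ _)))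
        (q1 a).2 (r1 a').2
    · exact σ.lr h (σ.βs i b ▸ b1) ((r1 a).1.trans (b3.trans (p0 _ _))) ((q1 a').1.trans (p0 _ _))
        (r1 a).2 (q1 a').2
    · exact r2 a a' ha
  · have c1 := sum_step fun b => k1 b 1 (by simp)
    simp only [if_true] at c1
    exact c1.trans ((Nat.add_le_add_right a3 _).trans (tot_step k2 k3))

open Classical in
/-- The clusters satisfying `p` have total weight at most `c`. -/
def Sys.Sm (σ : Sys H ι ν m e) (p : ι → Prop) (c : ℝ) : Prop :=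
  ∑ b, (if p b then ((σ.R b).card : ℝ) else 0) ≤ c

theorem Sys.Sm.or {σ : Sys H ι ν m e} {p q : ι → Prop} {c c' : ℝ} (h1 : σ.Sm p c)
    (h2 : σ.Sm q c') : σ.Sm (fun b => p b ∨ q b) (c + c') := by
  classical
  refine le_trans ?_ (add_le_add h1 h2)
  rw [← sum_add_distrib]
  refine sum_le_sum fun b _ => ?_
  by_cases hp : p b <;> by_cases hq : q b <;> simp [hp, hq]

theorem Sys.Sm.pick {σ : Sys H ι ν m e} {p : ι → Prop} {c : ℝ} (h1 : σ.Sm p c)
    (h2 : c < ∑ b, ((σ.R b).card : ℝ)) : ∃ b, ¬ p b := by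
  by_contra hn
  push Not at hn
  simp only [Sys.Sm, hn, if_true] at h1
  linarith

theorem Sys.sm_of_le (σ : Sys H ι ν m e) {p : ι → Prop} {c : ℝ} (z : ι → ℝ) (h0 : ∀ b, 0 ≤ z b)
    (h1 : ∀ b, p b → ((σ.R b).card : ℝ) ≤ z b) (h2 : ∑ b, z b ≤ c) : σ.Sm p c := by
  classical
  refine le_trans (sum_le_sum fun b _ => ?_) h2
  split_ifs with h
  · exact h1 b h
  · exact h0 b

open Classical in
theorem Sys.Sm.many {σ : Sys H ι ν m e} {κ : Type} (s : Finset κ) {p : κ → ι → Prop} {c : ℝ}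
    (h : ∀ i, σ.Sm (p i) c) : σ.Sm (fun b => ∃ i ∈ s, p i b) (s.card * c) := by
  refine σ.sm_of_le (fun b => ∑ i ∈ s, if p i b then ((σ.R b).card : ℝ) else 0)
    (fun b => sum_nonneg fun i _ => by positivity) (fun b ⟨i, h1, h2⟩ => ?_) ?_
  · refine le_trans (le_of_eq (if_pos h2).symm) (single_le_sum
      (f := fun i => if p i b then ((σ.R b).card : ℝ) else 0) (fun i _ => by positivity) h1)
  · rw [sum_comm, ← nsmul_eq_mul]
    exact sum_le_card_nsmul _ _ _ fun i _ => h i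

theorem Sys.g_nonneg (σ : Sys H ι ν m e) (u v : Prop) (i i' b : ι) : 0 ≤ σ.g u v i i' b := by
  have a1 := σ.β0 i b
  have a2 := σ.β0 i' b
  unfold Sys.g
  split_ifs <;> positivity

theorem Sys.g_le (σ : Sys H ι ν m e) (u v : Prop) (i i' b : ι) :
    (u → σ.g u v i i' b ≤ σ.β i b) ∧ (v → σ.g u v i i' b ≤ σ.β i' b) ∧ σ.g u v i i' b ≤ 1 := by
  have a1 := mul_le_of_le_one_right (σ.β0 i b) (σ.β1 i' b)
  have a2 := mul_le_of_le_one_left (σ.β0 i' b) (σ.β1 i b)
  have a3 := σ.β1 i b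
  have a4 := σ.β1 i' b
  unfold Sys.g
  by_cases hu : u <;> by_cases hv : v <;> simp only [hu, hv, if_true, if_false, mul_one, one_mul,
    forall_const, false_imp_iff, true_and, le_refl] <;> first | linarith | exact ⟨a1, a2, by linarith⟩

theorem Sys.le_g (σ : Sys H ι ν m e) {u v : Prop} {i i' b : ι} (h1 : u → 1 / 10 ^ 6 ≤ σ.β i b)
    (h2 : v → 1 / 10 ^ 6 ≤ σ.β i' b) : 1 / 10 ^ 12 ≤ σ.g u v i i' b := by
  unfold Sys.g
  split_ifs with hu hv hv
  · nlinarith [h1 hu, h2 hv]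
  · linarith [h1 hu]
  · linarith [h2 hv]
  · norm_num

theorem Sys.g_two (σ : Sys H ι ν m e) (u v : Prop) (i i' b : ι) :
    1 ≤ 2 * σ.g u v i i' b + 1 * (1 - σ.β i b) ^ 2 + 1 * (1 - σ.β i' b) ^ 2 := by
  have a1 := σ.β0 i b
  have a2 := σ.β0 i' b
  unfold Sys.g
  split_ifs
  · nlinarith [sq_nonneg (σ.β i b + σ.β i' b - 1)]
  · nlinarith [sq_nonneg (σ.β i b), sq_nonneg (1 - σ.β i' b)]
  · nlinarith [sq_nonneg (σ.β i' b), sq_nonneg (1 - σ.β i b)]
  · nlinarith [sq_nonneg (1 - σ.β i' b), sq_nonneg (1 - σ.β i b)]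

theorem Sys.g_left (σ : Sys H ι ν m e) {α γ : ℝ} (h : ∀ x : ℝ, 1 ≤ α * x + γ * (1 - x) ^ 2)
    {u v : Prop} (hu : ¬ u) (hv : v) (i i' b : ι) :
    1 ≤ α * σ.g u v i i' b + 0 * (1 - σ.β i b) ^ 2 + γ * (1 - σ.β i' b) ^ 2 := by
  unfold Sys.g
  rw [if_neg hu, if_pos hv]
  linarith [h (σ.β i' b)]

theorem Sys.g_right (σ : Sys H ι ν m e) {α γ : ℝ} (h : ∀ x : ℝ, 1 ≤ α * x + γ * (1 - x) ^ 2)
    {u v : Prop} (hu : u) (hv : ¬ v) (i i' b : ι) :
    1 ≤ α * σ.g u v i i' b + γ * (1 - σ.β i b) ^ 2 + 0 * (1 - σ.β i' b) ^ 2 := by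
  unfold Sys.g
  rw [if_pos hu, if_neg hv]
  linarith [h (σ.β i b)]

theorem Sys.g_free (σ : Sys H ι ν m e) {u v : Prop} (hu : ¬ u) (hv : ¬ v) (i i' b : ι) :
    1 ≤ 1 * σ.g u v i i' b + 0 * (1 - σ.β i b) ^ 2 + 0 * (1 - σ.β i' b) ^ 2 := by
  unfold Sys.g
  rw [if_neg hu, if_neg hv]
  linarith

theorem Sys.unav (σ : Sys H ι ν m e) (h : Num ν m e ε s₀)
    (hρ : ∀ i, ∑ b, (1 - σ.β i b) ^ 2 * (σ.R b).card ≤ 1.0001 * ν) {Bad : Finset ι}
    (hB : Bad.card * m ≤ 3 * ν / 10 ^ 6) {g u : ι → ℝ} {k lam α γ γ' : ℝ} {i i' : ι}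
    (hk : 1 / 10 ^ 5 ≤ k) (u0 : ∀ b, 0 ≤ u b) (hu : ∑ b, u b ≤ k * lam) (g0 : ∀ b, 0 ≤ g b)
    (α0 : 0 ≤ α) (γ0 : 0 ≤ γ) (γ1 : 0 ≤ γ')
    (hα : ∀ b, 1 ≤ α * g b + γ * (1 - σ.β i b) ^ 2 + γ' * (1 - σ.β i' b) ^ 2) {p : ι → Prop}
    (hp : ∀ b, p b → b ∉ Bad →
      g b * (k * (σ.R b).card) ≤ u b + m / 10 ^ 23 ∨ g b < 1 / 10 ^ 6) :
    σ.Sm p (α * (lam + 2 * ν / 10 ^ 5) + (γ + γ') * (1.0001 * ν) + 3 * ν / 10 ^ 6) := by
  have hm : 0 ≤ m := by linarith [h.m0]
  have k0 : 0 < k := by linarith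
  refine σ.sm_of_le (fun b => α * (u b / k + 1.001 * m / 10 ^ 6) +
    γ * ((1 - σ.β i b) ^ 2 * (σ.R b).card) + γ' * ((1 - σ.β i' b) ^ 2 * (σ.R b).card) +
    if b ∈ Bad then m else 0) (fun b => ?_) (fun b hb => ?_) ?_
  · have := u0 b
    split_ifs <;> positivity
  · have c1 := σ.wm b
    have c0 := u0 b
    have c4 : (0 : ℝ) ≤ (σ.R b).card := Nat.cast_nonneg _
    split_ifs with hbB
    · have : 0 ≤ α * (u b / k + 1.001 * m / 10 ^ 6) +
        γ * ((1 - σ.β i b) ^ 2 * (σ.R b).card) + γ' * ((1 - σ.β i' b) ^ 2 * (σ.R b).card) := by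
        positivity
      linarith
    · have c2 : g b * (σ.R b).card ≤ u b / k + 1.001 * m / 10 ^ 6 := by
        rcases hp b hb hbB with c | c
        · have d1 : g b * (σ.R b).card ≤ (u b + m / 10 ^ 23) / k := by
            rw [le_div_iff₀ k0]; linarith
          have d2 : m / 10 ^ 23 / k ≤ 1.001 * m / 10 ^ 6 := by
            rw [div_le_iff₀ k0]; nlinarith
          rw [add_div] at d1
          linarith
        · have d1 : 0 ≤ u b / k := by positivity
          nlinarith [mul_le_mul c.le c1 c4 (by norm_num)]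
      nlinarith [mul_le_mul_of_nonneg_right (hα b) c4, mul_le_mul_of_nonneg_left c2 α0]
  · rw [sum_add_distrib, sum_add_distrib, sum_add_distrib, sum_ite_card, ← mul_sum, ← mul_sum,
      ← mul_sum, sum_add_distrib, ← sum_div, sum_const, card_univ, nsmul_eq_mul]
    have c1 : (∑ b, u b) / k ≤ lam := by rw [div_le_iff₀ k0]; linarith
    have c2 : (∑ b, u b) / k + Fintype.card ι * (1.001 * m / 10 ^ 6) ≤ lam + 2 * ν / 10 ^ 5 := by
      nlinarith [σ.km, h.ν0]
    nlinarith [mul_le_mul_of_nonneg_left c2 α0, mul_le_mul_of_nonneg_left (hρ i) γ0,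
      mul_le_mul_of_nonneg_left (hρ i') γ1]

open Classical in
theorem Sys.cap_ge (σ : Sys H ι ν m e) (h : Num ν m e ε s₀)
    (tot : 5.9999 * ν ≤ ∑ b, ((σ.R b).card : ℝ))
    (hρ : ∀ i, ∑ b, (1 - σ.β i b) ^ 2 * (σ.R b).card ≤ 1.0001 * ν) {p : ι → Prop} {c : ℝ}
    (hp : σ.Sm p c) (i i' : ι) : (3.9996 * ν - c) / 2 ≤
      ∑ b ∈ (univ.filter fun b => 1 / 10 ^ 6 ≤ σ.g True True i i' b).filter fun b => ¬ p b,
        σ.g True True i i' b * (σ.R b).card := by
  have hm : 0 ≤ m := by linarith [h.m0]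
  have a1 : ∀ b, ((σ.R b).card : ℝ) ≤ (if p b then ((σ.R b).card : ℝ) else 0) +
      2 * (if 1 / 10 ^ 6 ≤ σ.g True True i i' b ∧ ¬ p b then
        σ.g True True i i' b * (σ.R b).card else 0) + 2 * m / 10 ^ 6 +
      (1 - σ.β i b) ^ 2 * (σ.R b).card + (1 - σ.β i' b) ^ 2 * (σ.R b).card := by
    intro b
    have c1 := σ.wm b
    have c4 : (0 : ℝ) ≤ (σ.R b).card := Nat.cast_nonneg _
    have c2 := mul_le_mul_of_nonneg_right (σ.g_two True True i i' b) c4
    by_cases k1 : p b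
    · rw [if_pos k1, if_neg fun k => k.2 k1]
      nlinarith [mul_nonneg (sq_nonneg (1 - σ.β i b)) c4, mul_nonneg (sq_nonneg (1 - σ.β i' b)) c4]
    · rw [if_neg k1]
      split_ifs with k2
      · linarith
      · have c3 := not_le.1 fun k => k2 ⟨k, k1⟩
        nlinarith [mul_le_mul c3.le c1 c4 (by norm_num)]
  have a2 := sum_le_sum fun b (_ : b ∈ univ) => a1 b
  rw [sum_add_distrib, sum_add_distrib, sum_add_distrib, sum_add_distrib, ← mul_sum, sum_const,
    card_univ, nsmul_eq_mul] at a2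
  rw [filter_filter, sum_filter]
  unfold Sys.Sm at hp
  linarith [hρ i, hρ i', σ.km, h.ν0]

end Pool.Agent.MP_a4cd82_co.H14

end MrgPart0

-- ======== part 1: formerly Pool.Agent.MP_a4cd82_co.h14.Blue
section MrgPart1

/-!
The second way of building a host.
-/

set_option autoImplicit false
set_option linter.unusedSectionVars false
set_option linter.unusedVariables false

open Finset

namespace Pool.Agent.MP_a4cd82_co.H14

variable {W : Type} [DecidableEq W] {ι : Type} [Fintype ι] [DecidableEq ι]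
  {H : SimpleGraph W} {ν m e ε s₀ : ℝ}

/-- The sum of `g` outside two indices. -/
def dsum (f l : Fin 5) (g : Fin 5 → ℕ) : ℕ := ∑ a, if a ≠ f ∧ a ≠ l then g a else 0

theorem dsum_perm (π : Fin 5 ≃ Fin 5) (g : Fin 5 → ℕ) :
    dsum (π 0) (π 1) g = g (π 2) + g (π 3) + g (π 4) := by
  rw [dsum, ← Equiv.sum_comp π, Fin.sum_univ_five]
  simp

theorem dsum_split {f l : Fin 5} (h : f ≠ l) (g : Fin 5 → ℕ) :
    g f + g l + dsum f l g = ∑ a, g a := by
  obtain ⟨π, rfl, rfl, -⟩ := exists_perm h g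
  rw [dsum_perm, ← Equiv.sum_comp π, Fin.sum_univ_five]
  ring

theorem dsum_mono {f l : Fin 5} {g g' : Fin 5 → ℕ} (h : ∀ a, g a ≤ g' a) :
    dsum f l g ≤ dsum f l g' :=
  sum_le_sum fun a _ => by
    split_ifs
    · exact h a
    · exact le_rfl

theorem dsum_add (f l : Fin 5) (g g' : Fin 5 → ℕ) :
    dsum f l (fun a => g a + g' a) = dsum f l g + dsum f l g' := by
  simp only [dsum, ← sum_add_distrib]
  exact sum_congr rfl fun a _ => by split_ifs <;> rfl

theorem exists_roles (c c' : Fin 5) (L : Fin 5 → ℕ) : ∃ f l : Fin 5, f ≠ l ∧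
    ((c = c' ∧ l = c) ∨ (c ≠ c' ∧ ((f = c ∧ l = c') ∨ (f = c' ∧ l = c)) ∧ L l ≤ L f)) := by
  by_cases h : c = c'
  · exact ⟨c + 1, c, (by decide : ∀ c : Fin 5, c + 1 ≠ c) c, Or.inl ⟨h, rfl⟩⟩
  · rcases le_total (L c) (L c') with k | k
    · exact ⟨c', c, Ne.symm h, Or.inr ⟨h, Or.inr ⟨rfl, rfl⟩, k⟩⟩
    · exact ⟨c, c', h, Or.inr ⟨h, Or.inl ⟨rfl, rfl⟩, k⟩⟩

theorem Sys.miss (σ : Sys H ι ν m e)
    (hρ : ∀ i, ∑ b, (1 - σ.β i b) ^ 2 * (σ.R b).card ≤ 1.0001 * ν) (hν : 0 < ν) (i : ι) :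
    σ.Sm (fun b => ¬ 1 / 10 ^ 6 ≤ σ.β i b) (1.0002 * ν) := by
  refine σ.sm_of_le (fun b => 1.00001 * ((1 - σ.β i b) ^ 2 * (σ.R b).card))
    (fun b => by positivity) (fun b hb => ?_) (by rw [← mul_sum]; linarith [hρ i])
  have c1 : σ.β i b < 1 / 10 ^ 6 := not_le.1 hb
  have c2 : 1 ≤ 1.00001 * (1 - σ.β i b) ^ 2 := by nlinarith
  nlinarith [mul_le_mul_of_nonneg_right c2 (Nat.cast_nonneg (α := ℝ) (σ.R b).card)]

theorem Sys.sm_bad (σ : Sys H ι ν m e) (h : Num ν m e ε s₀) {Bad : Finset ι}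
    (hB : Bad.card * m ≤ 3 * ν / 10 ^ 6) : σ.Sm (fun b => b ∈ Bad) (3 * ν / 10 ^ 6) :=
  σ.sm_of_le (fun b => if b ∈ Bad then m else 0) (fun b => by split_ifs <;> linarith [h.m0])
    (fun b hb => by rw [if_pos hb]; exact σ.wm b) (by rw [sum_ite_card]; exact hB)

/-- A path from the centre to the target clique. -/
theorem Sys.path (σ : Sys H ι ν m e) (h : Num ν m e ε s₀)
    (tot : 5.9999 * ν ≤ ∑ b, ((σ.R b).card : ℝ))
    (hρ : ∀ i, ∑ b, (1 - σ.β i b) ^ 2 * (σ.R b).card ≤ 1.0001 * ν) {Bad : Finset ι}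
    (hB : Bad.card * m ≤ 3 * ν / 10 ^ 6) (c c' : Fin 5) {A B : Fin 5 → ι}
    (hA : ∀ i j, i ≠ j → 1 / 10 ^ 6 ≤ σ.β (A i) (A j))
    (b1 : ∀ i j, i ≠ j → 1 / 10 ^ 6 ≤ σ.β (B i) (B j))
    (b2 : ∀ a, B a ∉ Bad ∧ (a ≠ c → 1 / 10 ^ 6 ≤ σ.β (A c) (B a)) ∧
      (a ≠ c' → 1 / 10 ^ 6 ≤ σ.β (A c') (B a))) :
    ∃ X : ℕ → Fin 5 → ι, X 0 = A ∧ (∀ t, 22 ≤ t → X t = B) ∧
      (∀ t a, (X t a ∉ Bad ∨ ∃ p, X t a = A p) ∧ (a ≠ c → 1 / 10 ^ 6 ≤ σ.β (A c) (X t a)) ∧
        (a ≠ c' → 1 / 10 ^ 6 ≤ σ.β (A c') (X t a))) ∧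
      ∀ t t' i i', t ≤ t' + 1 → t' ≤ t + 1 → i ≠ i' → 1 / 10 ^ 6 ≤ σ.β (X t i) (X t' i') := by
  classical
  let r : ι → ι → Prop := fun a b => 1 / 10 ^ 6 ≤ σ.β a b
  have rs : ∀ a b, r a b → r b a := fun a b k => by simp only [r] at *; rwa [σ.βs]
  let gd : Fin 5 → ι → Prop := fun a b =>
    (b ∉ Bad ∨ ∃ p, b = A p) ∧ (a ≠ c → r (A c) b) ∧ (a ≠ c' → r (A c') b)
  have gA : ∀ a, gd a (A a) := fun a =>
    ⟨Or.inr ⟨a, rfl⟩, fun k => hA _ _ k.symm, fun k => hA _ _ k.symm⟩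
  have gB : ∀ a, gd a (B a) := fun a => ⟨Or.inl (b2 a).1, (b2 a).2⟩
  have cB : Clq r gd B := ⟨b1, gB⟩
  have c1 : Clq r gd (Function.update B c (A c)) :=
    cB.update rs (gA c) fun i k => rs _ _ ((b2 i).2.1 k)
  have c2 : Clq r gd (Function.update (Function.update B c (A c)) c' (A c')) :=
    c1.update rs (gA c') fun i k => by
      by_cases e : i = c
      · rw [e, Function.update_self]; exact hA _ _ (e ▸ k)
      · rw [Function.update_of_ne e]; exact rs _ _ ((b2 i).2.2 k)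
  have p1 : Pth (Clq r gd) 1 (Function.update B c (A c)) B :=
    Pth.cons c1 (j := c) (y := B c) (by simpa using Pth.refl cB)
  have p2 : Pth (Clq r gd) 2 (Function.update (Function.update B c (A c)) c' (A c')) B :=
    Pth.cons c2 (j := c') (y := Function.update B c (A c) c') (by simpa using p1)
  let D := (univ.erase c).erase c'
  have d1 : ∀ i, i ∉ D → Function.update (Function.update B c (A c)) c' (A c') i = A i := by
    intro i hi
    by_cases e : i = c'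
    · rw [e, Function.update_self]
    · have : i = c := by simpa [D, e] using hi
      rw [Function.update_of_ne e, this, Function.update_self]
  have d2 : D.card ≤ 4 := by
    refine (card_le_card (erase_subset _ _)).trans ?_
    rw [card_erase_of_mem (mem_univ _)]
    rfl
  obtain ⟨X, x1, x2, x3, x4⟩ := (connect rs (D₀ := D) c2 (fun j hj X z hX => by
    obtain ⟨y, hy⟩ := ((σ.sm_bad h hB).or ((Sys.Sm.many (univ.erase j)
      fun i => σ.miss hρ h.ν0 (X i)).or (σ.miss hρ h.ν0 z))).pick (by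
        rw [card_erase_of_mem (mem_univ _), card_univ, Fintype.card_fin]
        norm_num
        linarith [h.ν0])
    simp only [not_or, not_exists, not_and, not_not, mem_erase, mem_univ, and_true] at hy
    have e1 : c ∉ D := by simp [D]
    have e2 : c' ∉ D := by simp [D]
    refine ⟨y, ⟨Or.inl hy.1, fun k => ?_, fun k => ?_⟩, hy.2.1, hy.2.2⟩
    · rw [← d1 c e1, ← hX c e1]; exact hy.2.1 c k.symm
    · rw [← d1 c' e2, ← hX c' e2]; exact hy.2.1 c' k.symm) p2 D Subset.rfl A ⟨hA, gA⟩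
    fun i hi => (d1 i hi).symm).mono (show _ ≤ 22 by omega)
  exact ⟨X, x1, x2, fun t a => (x3 t).2 a, Pth.adj rs x3 x4⟩

theorem Sys.blue (σ : Sys H ι ν m e) (h : Num ν m e ε s₀) {L : Fin 5 → Fin 5 → Fin 5 → ℕ}
    (hL : ((∑ c, ∑ c', ∑ a, L c c' a : ℕ) : ℝ) ≤ ν)
    (tot : 5.9999 * ν ≤ ∑ b, ((σ.R b).card : ℝ))
    (hρ : ∀ i, ∑ b, (1 - σ.β i b) ^ 2 * (σ.R b).card ≤ 1.0001 * ν) :
    Nonempty (Host H ε (1 / 2000000) s₀ 23 L) := by
  classical
  have hm := h.m0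
  have hν := h.ν0
  let r : ι → ι → Prop := fun a b => 1 / 10 ^ 6 ≤ σ.β a b
  have rs : ∀ a b, r a b → r b a := fun a b k => by simp only [r] at *; rwa [σ.βs]
  have miss : ∀ i, σ.Sm (fun b => ¬ r i b) (1.0002 * ν) := σ.miss hρ hν
  obtain ⟨A, hA⟩ : ∃ A : Fin 5 → ι, ∀ i j, i ≠ j → r (A i) (A j) := by
    obtain ⟨a0, -⟩ := Sys.Sm.pick (σ := σ) (p := fun _ => False) (c := 0) (by simp [Sys.Sm])
      (by linarith)
    obtain ⟨a1, b1⟩ := (miss a0).pick (by linarith)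
    obtain ⟨a2, b2⟩ := ((miss a0).or (miss a1)).pick (by linarith)
    obtain ⟨a3, b3⟩ := ((miss a0).or ((miss a1).or (miss a2))).pick (by linarith)
    obtain ⟨a4, b4⟩ := ((miss a0).or ((miss a1).or ((miss a2).or (miss a3)))).pick (by linarith)
    simp only [not_or, not_not] at b1 b2 b3 b4
    exact ⟨_, five rs b1 b2.1 b3.1 b4.1 b2.2 b3.2.1 b4.2.1 b3.2.2 b4.2.2.1 b4.2.2.2⟩
  choose fs ls j1 j2 using fun c c' => exists_roles c c' (L c c')
  let ld : Fin 5 → Fin 5 → Fin 3 → ℝ := fun c c' =>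
    ![(if c = c' then 0.51 else 0.2825) * L c c' (fs c c'),
      (if c = c' then 0.51 else 1.71) * L c c' (ls c c'),
      0.9 * dsum (fs c c') (ls c c') (L c c')]
  have ld0 : ∀ c c' j, 0 ≤ ld c c' j := by
    intro c c' j
    fin_cases j <;> simp only [ld, Fin.reduceFinMk, Matrix.cons_val] <;> positivity
  let k : Option (Fin 5 × Fin 5 × Fin 3) → ℝ := fun j =>
    j.elim 0 (fun q => ld q.1 q.2.1 q.2.2 / ν) + 1 / 10 ^ 5
  have k0 : ∀ j, 1 / 10 ^ 5 ≤ k j := by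
    rintro (_ | q)
    · simp [k]
    · exact le_add_of_nonneg_left (div_nonneg (ld0 _ _ _) hν.le)
  have k1 : ∀ c c' j, ld c c' j ≤ k (some (c, c', j)) * ν := fun c c' j => by
    simp only [k, Option.elim]
    rw [add_mul, div_mul_cancel₀ _ hν.ne']
    linarith
  have hJ : Fintype.card (Option (Fin 5 × Fin 5 × Fin 3)) = 76 := by simp
  have k2 : ∑ j, k j ≤ 0.999999 := by
    have c1 : ∀ c c', ∑ j, ld c c' j ≤ 0.99625 * (∑ a, L c c' a : ℕ) := by
      intro c c'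
      rw [← dsum_split (j1 c c'), Fin.sum_univ_three]
      simp only [ld, Matrix.cons_val]
      push_cast
      have d1 : (0 : ℝ) ≤ L c c' (fs c c') := Nat.cast_nonneg _
      have d2 : (0 : ℝ) ≤ L c c' (ls c c') := Nat.cast_nonneg _
      have d3 : (0 : ℝ) ≤ dsum (fs c c') (ls c c') (L c c') := Nat.cast_nonneg _
      rcases j2 c c' with ⟨d, -⟩ | ⟨d, -, d4⟩
      · rw [if_pos d, if_pos d]; linarith
      · have : (L c c' (ls c c') : ℝ) ≤ L c c' (fs c c') := by exact_mod_cast d4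
        rw [if_neg d, if_neg d]; linarith
    have c2 : ∑ c, ∑ c', ∑ j, ld c c' j ≤ 0.99625 * ν := by
      refine le_trans (sum_le_sum fun c _ => sum_le_sum fun c' _ => c1 c c') ?_
      simp only [← mul_sum, ← Nat.cast_sum]
      linarith
    simp only [k]
    rw [sum_add_distrib, sum_const, card_univ, hJ, Fintype.sum_option]
    simp only [Option.elim, Fintype.sum_prod_type, ← sum_div]
    have c3 := (div_le_iff₀ hν).2 c2
    norm_num at c3 ⊢
    linarith
  obtain ⟨P, p1, p2, p3⟩ := σ.parts h hJ.le k (fun j => le_trans (by norm_num) (k0 j)) k2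
  have p0 : ∀ b j, P b j ⊆ σ.cl b := fun b j => (p1 b j).trans (σ.sub b)
  have p4 : ∀ b j, m / 10 ^ 11 ≤ (P b j).card := fun b j => by
    linarith [p3 b j, mul_le_mul (k0 j) (σ.big b) (by linarith) (by linarith [k0 j])]
  have q2 : ∀ b j, s₀ ≤ (P b j).card := fun b j => by linarith [p4 b j, h.sm]
  let G : Fin 5 → Fin 5 → Finset ι := fun c c' =>
    univ.filter fun b => 1 / 10 ^ 6 ≤ σ.g True True (A c) (A c') b
  let cap : Fin 5 → Fin 5 → ι → ℝ := fun c c' b =>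
    k (some (c, c', 2)) * (σ.g True True (A c) (A c') b * (σ.R b).card)
  have cap0 : ∀ c c', ∀ b ∈ G c c', m / 10 ^ 17 ≤ cap c c' b := fun c c' b hb => by
    have d1 := mul_le_mul (mem_filter.1 hb).2 (σ.big b) (by linarith) (σ.g_nonneg _ _ _ _ _)
    linarith [mul_le_mul (k0 (some (c, c', 2))) d1 (by linarith) (by linarith [k0 (some (c, c', 2))])]
  refine σ.mk_host hν (by linarith) h.e0 h.ε0 h.es hJ.le none p0 p2 A (fun c => P (A c) none)
    (fun c => Subset.rfl) (fun c => q2 _ _)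
    (fun c c' k => σ.lr h (hA c c' k) (p0 _ _) (p0 _ _) (q2 _ _) (q2 _ _))
    (fun M u => ∀ c c', ∑ b, u b (some (c, c', 0)) ≤ M c c' (fs c c') ∧
      ∑ b, u b (some (c, c', 1)) ≤ M c c' (ls c c') ∧
      Phi (G c c') (cap c c') (fun b => u b (some (c, c', 2))) ≤ 13 * (k (some (c, c', 2)) * ν) *
        Real.exp (110 * dsum (fs c c') (ls c c') (M c c') / (3 * (0.49 * (k (some (c, c', 2)) * ν)))))
    (fun c c' => ⟨by simp, by simp, ?_⟩) fun c c' x x' Bad M U n a1 a2 a3 a4 a5 => ?_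
  · have d0 : 0 ≤ k (some (c, c', 2)) := le_trans (by norm_num) (k0 _)
    have d1 := sum_le_card_nsmul (G c c') (cap c c') (k (some (c, c', 2)) * m) fun b _ =>
      mul_le_mul_of_nonneg_left ((mul_le_of_le_one_left (Nat.cast_nonneg _)
        (σ.g_le _ _ _ _ _).2.2).trans (σ.wm b)) d0
    have d2 : ((G c c').card : ℝ) ≤ Fintype.card ι := by exact_mod_cast card_le_univ _
    simp only [Phi, dsum, Nat.cast_zero, zero_div, mul_zero, Real.exp_zero, mul_one, ite_self,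
      sum_const_zero]
    rw [nsmul_eq_mul] at d1
    nlinarith [mul_le_mul_of_nonneg_right d2 (mul_nonneg d0 (by linarith : 0 ≤ m)),
      mul_le_mul_of_nonneg_left σ.km d0]
  obtain ⟨π, π0, π1, π2, π3⟩ := exists_perm (j1 c c') n
  let ja : Fin 5 → Option (Fin 5 × Fin 5 × Fin 3) := fun a =>
    some (c, c', ![0, 1, 2, 2, 2] (π.symm a))
  have ja1 : ∀ i, ja (π i) = some (c, c', ![0, 1, 2, 2, 2] i) := fun i => by simp [ja]
  let g : Fin 5 → ι → ℝ := fun a => σ.g (a ≠ c) (a ≠ c') (A c) (A c')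
  let Zr : Fin 5 → ι → Finset W := fun a b => nbr H (a ≠ c) (a ≠ c') x x' (P b none)
  let Zf : Fin 5 → ι → Finset W := fun a b => nbr H (a ≠ c) (a ≠ c') x x' (P b (ja a)) \ U
  let un : Fin 5 → ι → Prop := fun a b =>
    ¬ (b ∉ Bad ∧ s₀ ≤ (Zf a b).card ∧ 1 / 10 ^ 6 ≤ g a b)
  have z0 : ∀ a b, b ∉ Bad → g a b * (k (ja a) * (σ.R b).card) ≤
      (Zf a b).card + (P b (ja a) ∩ U).card + 2 * e := by
    intro a b hb
    linarith [a2 b (ja a) (Or.inl hb) (a ≠ c) (a ≠ c'),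
      card_nbr_le (H := H) (a ≠ c) (a ≠ c') x x' (P b (ja a)) U,
      mul_le_mul_of_nonneg_left (p3 b (ja a)) (σ.g_nonneg (a ≠ c) (a ≠ c') (A c) (A c') b)]
  have u0 : ∀ (a : Fin 5) (lam α γ γ' : ℝ), 0 ≤ α → 0 ≤ γ → 0 ≤ γ' →
      ((∑ b, (P b (ja a) ∩ U).card : ℕ) : ℝ) ≤ k (ja a) * ν * lam →
      (∀ b, 1 ≤ α * g a b + γ * (1 - σ.β (A c) b) ^ 2 + γ' * (1 - σ.β (A c') b) ^ 2) →
      σ.Sm (un a) (α * (ν * lam + 2 * ν / 10 ^ 5) + (γ + γ') * (1.0001 * ν) + 3 * ν / 10 ^ 6) := by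
    intro a lam α γ γ' c1 c2 c3 c4 c5
    rw [Nat.cast_sum, mul_assoc] at c4
    refine σ.unav h hρ a1 (k0 _) (fun b => Nat.cast_nonneg _) c4 (fun b => σ.g_nonneg _ _ _ _ _)
      c1 c2 c3 c5 fun b hb hbB => ?_
    rcases not_and_or.1 fun k => hb ⟨hbB, k⟩ with d | d
    · left
      linarith [z0 a b hbB, not_le.1 d, h.es', h.sm, h.e0]
    · exact Or.inr (not_le.1 d)
  have l0 : ((∑ b, (P b (ja (π 0)) ∩ U).card : ℕ) : ℝ) ≤ L c c' (fs c c') := by
    rw [ja1]; exact_mod_cast (a3 c c').1.trans (a4 _ _ _)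
  have l1 : ((∑ b, (P b (ja (π 1)) ∩ U).card : ℕ) : ℝ) ≤ L c c' (ls c c') := by
    rw [ja1]; exact_mod_cast (a3 c c').2.1.trans (a4 _ _ _)
  have l2 : ld c c' 0 ≤ k (ja (π 0)) * ν := by rw [ja1]; exact k1 c c' 0
  have l3 : ld c c' 1 ≤ k (ja (π 1)) * ν := by rw [ja1]; exact k1 c c' 1
  simp only [ld, Matrix.cons_val] at l2 l3
  have l4 : (0 : ℝ) ≤ L c c' (fs c c') := Nat.cast_nonneg _
  have l5 : (0 : ℝ) ≤ L c c' (ls c c') := Nat.cast_nonneg _
  have i1 : ∀ y : ℝ, 1 ≤ 1.25 * y + 1.5625 * (1 - y) ^ 2 := fun y => by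
    nlinarith [sq_nonneg (y - 0.6)]
  have i2 : ∀ y : ℝ, 1 ≤ 1.54 * y + 1.098 * (1 - y) ^ 2 := fun y => by
    nlinarith [sq_nonneg (y - 0.2987)]
  have u3 : σ.Sm (un (π 0)) (5.99 * ν) ∧ σ.Sm (un (π 1)) (1.9988 * ν) := by
    rcases j2 c c' with ⟨d1, d2⟩ | ⟨d1, d2, -⟩
    · rw [if_pos d1] at l2 l3
      exact ⟨(u0 _ 1.961 2 1 1 (by norm_num) (by norm_num) (by norm_num) (by linarith)
        (σ.g_two _ _ _ _)).trans (by linarith), (u0 _ 1.961 1 0 0 (by norm_num) (by norm_num)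
        (by norm_num) (by linarith) (σ.g_free (not_not.2 (π1.trans d2))
          (not_not.2 (π1.trans (d2.trans d1))) _ _)).trans (by linarith)⟩
    · rw [if_neg d1] at l2 l3
      rw [← π0, ← π1] at d2
      rcases d2 with ⟨d2, d3⟩ | ⟨d2, d3⟩
      · exact ⟨(u0 _ 3.54 _ _ _ (by norm_num) (by norm_num) (by norm_num) (by linarith)
          (σ.g_left i1 (not_not.2 d2) (d2 ▸ d1) _ _)).trans (by linarith),
          (u0 _ 0.5848 _ _ _ (by norm_num) (by norm_num) (by norm_num) (by linarith)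
          (σ.g_right i2 (d3 ▸ Ne.symm d1) (not_not.2 d3) _ _)).trans (by linarith)⟩
      · exact ⟨(u0 _ 3.54 _ _ _ (by norm_num) (by norm_num) (by norm_num) (by linarith)
          (σ.g_right i1 (d2 ▸ Ne.symm d1) (not_not.2 d2) _ _)).trans (by linarith),
          (u0 _ 0.5848 _ _ _ (by norm_num) (by norm_num) (by norm_num) (by linarith)
          (σ.g_left i2 (not_not.2 d3) (d3 ▸ d1) _ _)).trans (by linarith)⟩
  have dbl : ∀ i : Fin 5, i ≠ 0 → i ≠ 1 → π i ≠ c ∧ π i ≠ c' := by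
    intro i h0 h1
    have e0 : π i ≠ fs c c' := π0 ▸ π.injective.ne h0
    have e1 : π i ≠ ls c c' := π1 ▸ π.injective.ne h1
    rcases j2 c c' with ⟨d1, d2⟩ | ⟨-, ⟨d2, d3⟩ | ⟨d2, d3⟩, -⟩
    · exact ⟨d2 ▸ e1, d1 ▸ d2 ▸ e1⟩
    · exact ⟨d2 ▸ e0, d3 ▸ e1⟩
    · exact ⟨d3 ▸ e1, d2 ▸ e0⟩
  set κ := k (some (c, c', 2)) with hκ
  have κ0 : 0 < κ * ν := mul_pos (lt_of_lt_of_le (by norm_num) (k0 _)) hν
  obtain ⟨Sf, mS⟩ : ∃ Sf : (ι → Prop) → Finset ι, ∀ p b, b ∈ Sf p ↔ b ∈ G c c' ∧ ¬ p b :=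
    ⟨fun p => (G c c').filter fun b => ¬ p b, fun p b => mem_filter⟩
  have cg : ∀ (p : ι → Prop) (y z : ℝ), σ.Sm p y → z * ν ≤ (3.9996 * ν - y) / 2 →
      z * (κ * ν) ≤ ∑ b ∈ Sf p, cap c c' b := by
    intro p y z c1 c2
    have c3 := mul_le_mul_of_nonneg_left (c2.trans (σ.cap_ge h tot hρ c1 (A c) (A c')))
      (le_trans (by norm_num) (k0 (some (c, c', 2))))
    have c4 : Sf p = (G c c').filter fun b => ¬ p b := by
      ext b; rw [mem_filter, mS]
    simp only [cap, c4, G]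
    rw [← mul_sum]
    linarith
  have ne : ∀ (S : Finset ι) (z : ℝ), 0 < z → z * (κ * ν) ≤ ∑ b ∈ S, cap c c' b → S.Nonempty := by
    intro S z c1 c2
    rcases S.eq_empty_or_nonempty with rfl | c3
    · rw [sum_empty] at c2
      linarith [mul_pos c1 κ0]
    · exact c3
  have u5 := σ.sm_bad h a1
  let u : ι → ℝ := fun b => (P b (some (c, c', 2)) ∩ U).card
  obtain ⟨b0, e0⟩ := u3.1.pick (by linarith)
  have s1 := cg _ _ 1.47 (u5.or (miss b0)) (by linarith)
  obtain ⟨d1, m1, o1⟩ := exists_min_image _ (fun b => u b / cap c c' b) (ne _ _ (by norm_num) s1)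
  have s2 := cg _ _ 0.98 ((u5.or (miss b0)).or (miss d1)) (by linarith)
  obtain ⟨d2, m2, o2⟩ := exists_min_image _ (fun b => u b / cap c c' b) (ne _ _ (by norm_num) s2)
  have s3 := cg _ _ 0.49 (((u5.or (miss b0)).or (miss d1)).or (miss d2)) (by linarith)
  obtain ⟨d3, m3, o3⟩ := exists_min_image _ (fun b => u b / cap c c' b) (ne _ _ (by norm_num) s3)
  obtain ⟨b1, e1⟩ := (u3.2.or ((miss b0).or ((miss d1).or ((miss d2).or (miss d3))))).pick
    (by linarith)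
  have t2 : ∀ p q : ι → Prop, (Sf fun b => p b ∨ q b) ⊆ Sf p := fun p q b hb =>
    (mS _ _).2 ⟨((mS _ _).1 hb).1, fun k => ((mS _ _).1 hb).2 (Or.inl k)⟩
  obtain ⟨v1, v2⟩ := pot_step (u := u) (C := 0.49 * (κ * ν)) (by linarith : 0 < m / 10 ^ 17)
    (cap0 c c') (fun b hb => ((mS _ _).1 hb).1) (t2 _ _) (t2 _ _) (by linarith) (by linarith) (by linarith) s3
    m1 m2 m3 o1 o2 o3
  have v3 : u d3 / cap c c' d3 ≤ 0.89 := by
    have c1 := v1.trans (a3 c c').2.2
    have c2 : (dsum (fs c c') (ls c c') (M c c') : ℝ) ≤ dsum (fs c c') (ls c c') (L c c') := by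
      exact_mod_cast dsum_mono (a4 c c')
    have c3 := k1 c c' 2
    simp only [ld, Matrix.cons_val] at c3
    have c4 : 110 * (dsum (fs c c') (ls c c') (M c c') : ℝ) / (3 * (0.49 * (κ * ν))) ≤ 84 := by
      rw [div_le_iff₀ (by linarith)]
      linarith
    have c5 : (32 : ℝ) ≤ Real.exp 5 := by
      have := pow_le_pow_left₀ (by norm_num) (Real.add_one_le_exp 1) 5
      rw [← Real.exp_nat_mul] at this
      norm_num at this ⊢
      exact this
    have c6 := mul_le_mul_of_nonneg_left (Real.exp_le_exp.2 c4) κ0.le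
    have c7 : Real.exp (100 * (u d3 / cap c c' d3)) ≤ Real.exp (5 + 84) := by
      rw [Real.exp_add]
      refine le_of_mul_le_mul_left ?_ κ0
      nlinarith [mul_le_mul_of_nonneg_right c5 (mul_pos κ0 (Real.exp_pos 84)).le,
        mul_pos κ0 (Real.exp_pos 84)]
    linarith [Real.exp_le_exp.1 c7]
  have v4 : ∀ (i : Fin 5) (b : ι), i ≠ 0 → i ≠ 1 → b ∈ G c c' → b ∉ Bad →
      u b / cap c c' b ≤ 0.89 → ¬ un (π i) b := by
    intro i b h0 h1 c1 c2 c3
    have c4 : g (π i) b = σ.g True True (A c) (A c') b := by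
      simp [g, Sys.g, (dbl i h0 h1).1, (dbl i h0 h1).2]
    have c5 : ja (π i) = some (c, c', 2) := by
      rw [ja1]
      fin_cases i <;> first | rfl | contradiction
    have c6 := z0 (π i) b c2
    have c7 := cap0 c c' b c1
    rw [div_le_iff₀ (by linarith)] at c3
    rw [c4, c5] at c6
    refine not_not.2 ⟨c2, ?_, c4 ▸ (mem_filter.1 c1).2⟩
    simp only [cap, u] at c3 c7
    linarith [h.es', h.sm, h.e0]
  have w2 := o2 d3 (t2 _ _ m3)
  have w1 := o1 d2 (t2 _ _ m2)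
  simp only [mS, not_or, not_not] at m1 m2 m3 e1
  have hB : ∀ i, ¬ un (π i) (![b0, b1, d1, d2, d3] i) := fun i => by
    fin_cases i
    · exact e0
    · exact e1.1
    · exact v4 2 d1 (by decide) (by decide) m1.1 m1.2.1 (w1.trans (w2.trans v3))
    · exact v4 3 d2 (by decide) (by decide) m2.1 m2.2.1.1 (w2.trans v3)
    · exact v4 4 d3 (by decide) (by decide) m3.1 m3.2.1.1.1 v3
  let B : Fin 5 → ι := fun a => ![b0, b1, d1, d2, d3] (π.symm a)
  have hB' : ∀ a, B a ∉ Bad ∧ s₀ ≤ (Zf a (B a)).card ∧ 1 / 10 ^ 6 ≤ g a (B a) := fun a => by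
    simpa only [un, not_not, Equiv.apply_symm_apply] using hB (π.symm a)
  obtain ⟨X, x1, x2, x3, x4⟩ := σ.path h tot hρ a1 c c' hA (B := B)
    (fun i j k => five rs e1.2.1 m1.2.2 m2.2.1.2 m3.2.1.1.2 (rs _ _ e1.2.2.1) (rs _ _ e1.2.2.2.1)
      (rs _ _ e1.2.2.2.2) m2.2.2 m3.2.1.2 m3.2.2 _ _ (π.symm.injective.ne k))
    fun a => ⟨(hB' a).1, fun k => (hB' a).2.2.trans ((σ.g_le _ _ _ _ _).1 k),
      fun k => (hB' a).2.2.trans ((σ.g_le _ _ _ _ _).2.1 k)⟩
  let S : ℕ → Fin 5 → Finset W := fun t a =>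
    if t = 0 then P (A a) none else if 23 ≤ t then Zf a (B a) else Zr a (X t a)
  have f1 : ∀ t a, s₀ ≤ (S t a).card := by
    intro t a
    simp only [S]
    split_ifs with c1 c2
    · exact q2 _ _
    · exact (hB' a).2.1
    · have d1 := a2 (X t a) none ((x3 t a).1.imp id fun k => ⟨rfl, k⟩) (a ≠ c) (a ≠ c')
      have d2 := mul_le_mul (σ.le_g (x3 t a).2.1 (x3 t a).2.2) (p4 (X t a) none) (by linarith)
        (σ.g_nonneg _ _ _ _ _)
      simp only [Zr]
      linarith [h.es', h.sm]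
  have f2 : ∀ t a, S t a ⊆ σ.cl (X t a) := by
    intro t a
    simp only [S]
    split_ifs with c1 c2
    · rw [c1, x1]; exact p0 _ _
    · rw [x2 t (by omega)]; exact (sdiff_subset.trans nbr_subset).trans (p0 _ _)
    · exact nbr_subset.trans (p0 _ _)
  refine ⟨S, B, ja, fun a => by simp [ja], fun a => by simp [S], f1, fun t a ht y hy => ?_,
    fun t a => ?_, fun a => ?_, fun t t' a a' k1 k2 k3 =>
      σ.lr h (x4 t t' _ _ k1 k2 k3) (f2 _ _) (f2 _ _) (f1 _ _) (f1 _ _),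
    fun u' M' n1 n2 n3 p q => ?_⟩
  · simp only [S, if_neg ht] at hy
    split_ifs at hy
    · exact (mem_nbr.1 (mem_sdiff.1 hy).1).2
    · exact (mem_nbr.1 hy).2
  · simp only [S]
    split_ifs
    · exact Or.inl ⟨_, Subset.rfl⟩
    · exact Or.inr (sdiff_subset_sdiff nbr_subset Subset.rfl)
    · exact Or.inl ⟨_, nbr_subset⟩
  · simp only [S, if_neg (show (23 : ℕ) ≠ 0 by norm_num), le_refl, if_true]
    exact sdiff_subset.trans nbr_subset
  have w0 := fun j => sum_step fun b => n1 b (some (p, q, j)) (by simp)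
  have w1 : 0 < k (some (p, q, 2)) * ν := mul_pos (lt_of_lt_of_le (by norm_num) (k0 _)) hν
  by_cases hpq : p = c ∧ q = c'
  · obtain ⟨rfl, rfl⟩ := hpq
    have w2 := w0 0
    have w3 := w0 1
    rw [← Equiv.sum_comp π, Fin.sum_univ_five] at w2 w3
    simp only [ja1, Matrix.cons_val, Option.some.injEq, Prod.mk.injEq, true_and, Fin.reduceEq,
      if_true, if_false, add_zero, zero_add] at w2 w3
    rw [π0] at w2
    rw [π1] at w3
    refine ⟨w2.trans ((Nat.add_le_add_right (a3 p q).1 _).trans (n2 _)),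
      w3.trans ((Nat.add_le_add_right (a3 p q).2.1 _).trans (n2 _)), ?_⟩
    have w4 := v2 (n (π 2)) (n (π 3)) (n (π 4)) (fun b => u' b (some (p, q, 2)))
      (Nat.cast_nonneg _) (by exact_mod_cast π3) (by exact_mod_cast π2)
      (by linarith [a5 (π 2), h.sm]) fun b _ => by
        have c1 := n1 b (some (p, q, 2)) (by simp)
        rw [← Equiv.sum_comp π, Fin.sum_univ_five] at c1
        simp only [ja1, B, Equiv.symm_apply_apply, Matrix.cons_val, Option.some.injEq,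
          Prod.mk.injEq, Fin.reduceEq, and_false, and_true, if_false, zero_add] at c1
        simp only [u]
        exact_mod_cast c1
    refine w4.trans ((mul_le_mul_of_nonneg_right (a3 p q).2.2 (Real.exp_pos _).le).trans ?_)
    rw [mul_assoc, ← Real.exp_add, ← add_div]
    refine mul_le_mul_of_nonneg_left (Real.exp_le_exp.2
      (div_le_div_of_nonneg_right ?_ (by linarith))) (by linarith)
    have c1 := dsum_mono (f := fs p q) (l := ls p q) n2
    rw [dsum_add, ← π0, ← π1, dsum_perm π n, π0, π1] at c1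
    have c2 : (dsum (fs p q) (ls p q) (M p q) : ℝ) + (n (π 2) + n (π 3) + n (π 4)) ≤
        dsum (fs p q) (ls p q) (M' p q) := by exact_mod_cast c1
    linarith
  · have w2 : ∀ a j, ja a ≠ some (p, q, j) := fun a j k => by
      simp only [ja, Option.some.injEq, Prod.mk.injEq] at k
      exact hpq ⟨k.1.symm, k.2.1.symm⟩
    simp only [w2, if_false, sum_const_zero, add_zero] at w0
    refine ⟨(w0 0).trans ((a3 p q).1.trans (n3 _ _ _)),
      (w0 1).trans ((a3 p q).2.1.trans (n3 _ _ _)),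
      (Phi_mono (fun b hb => le_trans (by linarith) (cap0 p q b hb)) fun b _ => ?_).trans
        ((a3 p q).2.2.trans (mul_le_mul_of_nonneg_left (Real.exp_le_exp.2
          (div_le_div_of_nonneg_right ?_ (by linarith))) (by linarith)))⟩
    · have c1 := n1 b (some (p, q, 2)) (by simp)
      simp only [w2, and_false, if_false, sum_const_zero, add_zero] at c1
      exact_mod_cast c1
    · have c1 : (dsum (fs p q) (ls p q) (M p q) : ℝ) ≤ dsum (fs p q) (ls p q) (M' p q) := by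
        exact_mod_cast dsum_mono (n3 p q)
      linarith

end Pool.Agent.MP_a4cd82_co.H14

end MrgPart1

-- ======== part 2: formerly Pool.Agent.MP_a4cd82_co.h14.Five
section MrgPart2

/-!
Graphs without a `K₅` minor are five-colourable.
-/

set_option autoImplicit false
set_option linter.unusedSectionVars false
set_option linter.unusedVariables false

open Finset

namespace Pool.Agent.MP_a4cd82_co.H14

variable {V : Type} [DecidableEq V] {G : SimpleGraph V} {ι : Type} [DecidableEq ι]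

/-- A `K₅` minor. -/
def K5 (G : SimpleGraph V) : Prop :=
  ∃ X : Fin 5 → Finset V, (∀ i, Conn G (X i)) ∧
    ∀ i j, i ≠ j → Disjoint (X i) (X j) ∧ Touch G (X i) (X j)

/-- The graph of a family of sets. -/
def quot (G : SimpleGraph V) (B : ι → Finset V) : SimpleGraph ι where
  Adj j k := j ≠ k ∧ Touch G (B j) (B k)
  symm := ⟨fun _ _ h => ⟨h.1.symm, h.2.symm⟩⟩
  loopless := ⟨fun _ h => h.1 rfl⟩

theorem conn_lift {s t : Finset ι} {B : ι → Finset V} (h : Fam G s B) (hts : t ⊆ s) {D : Set ι}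
    (hD : ∀ j, j ∈ D ↔ j ∈ t) (hc : Pool.Agent.MP_a4cd82_co.Conn (quot G B) D) :
    Conn G (t.biUnion B) := by
  obtain ⟨⟨j0, hj0⟩, hc⟩ := hc
  obtain ⟨x0, hx0⟩ := (h.conn j0 (hts ((hD j0).1 hj0))).1
  refine ⟨⟨x0, mem_biUnion.2 ⟨j0, (hD j0).1 hj0, hx0⟩⟩, fun x hx y hy => ?_⟩
  obtain ⟨j, hj, hx⟩ := mem_biUnion.1 hx
  obtain ⟨k, hk, hy⟩ := mem_biUnion.1 hy
  have key : ∀ k, Relation.ReflTransGen
      (fun p q => p ∈ D ∧ q ∈ D ∧ (quot G B).Adj p q) j k → ∀ y ∈ B k,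
      Relation.ReflTransGen (fun a b => G.Adj a b ∧ b ∈ t.biUnion B) x y := by
    intro k hk
    induction hk with
    | refl => exact fun y hy => rtg_mono (subset_biUnion_of_mem B hj) ((h.conn j (hts hj)).2 x hx y hy)
    | @tail p q _ h2 ih =>
      intro y hy
      obtain ⟨-, c1, -, a, ha, b, hb, hab⟩ := h2
      have c2 := (hD q).1 c1
      exact ((ih a ha).tail ⟨hab, mem_biUnion.2 ⟨q, c2, hb⟩⟩).trans
        (rtg_mono (subset_biUnion_of_mem B c2) ((h.conn q (hts c2)).2 b hb y hy))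
  exact key k (hc j ((hD j).2 hj) k ((hD k).2 hk)) y hy

theorem small_deg (hG : ¬ K5 G) {s : Finset ι} {B : ι → Finset V} (h : Fam G s B)
    (hs : s.Nonempty) : ∃ i ∈ s, (nb G s B i).card ≤ 5 := by
  classical
  by_contra hn
  push Not at hn
  have a1 := card_nsmul_le_sum s (fun j => (nb G s B j).card) 6 hn
  rw [smul_eq_mul] at a1
  obtain ⟨s1, B1, i1, f1, hi1, -, n1, d1⟩ := mader 3 (by norm_num) (fun _ => True)
    (fun _ _ _ _ => trivial) s.card s B le_rfl h hs (by rw [ec]; omega) (fun _ _ => trivial)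
  set L := nb G s1 B1 i1 with hL
  have hLs : L ⊆ s1 := fun j hj => (mem_nb.1 hj).1
  have a2 : HasK4 (quot G B1) L := by
    by_contra hk
    obtain ⟨v, hv, h2⟩ := dirac n1 hk
    have := (d1 v hv).trans (card_le_card fun j hj => Pool.Agent.MP_a4cd82_co.mem_nb.2
      (show j ∈ L ∧ (quot G B1).Adj v j from
        ⟨(mem_nb.1 hj).1, (mem_nb.1 hj).2.1.symm, (mem_nb.1 hj).2.2⟩))
    omega
  obtain ⟨D, b1, b2, b3, b4⟩ := a2
  let t : Fin 4 → Finset ι := fun i => L.filter (· ∈ D i)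
  have t1 : ∀ i j, j ∈ D i ↔ j ∈ t i := fun i j =>
    ⟨fun h => mem_filter.2 ⟨b1 i h, h⟩, fun h => (mem_filter.1 h).2⟩
  have t2 : ∀ i, t i ⊆ L := fun i => filter_subset _ _
  have t3 : ∀ i, Disjoint (B1 i1) ((t i).biUnion B1) ∧ Touch G (B1 i1) ((t i).biUnion B1) := by
    intro i
    refine ⟨(disjoint_biUnion_right _ _ _).2 fun j hj => f1.disj i1 hi1 j (hLs (t2 i hj))
      (mem_nb.1 (t2 i hj)).2.1.symm, ?_⟩
    obtain ⟨j, hj⟩ := (b2 i).1
    have c1 := (t1 i j).1 hj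
    exact (mem_nb.1 (t2 i c1)).2.2.mono Subset.rfl (subset_biUnion_of_mem B1 c1)
  refine hG ⟨Fin.cons (B1 i1) fun i => (t i).biUnion B1, fun i => ?_, fun i j hij => ?_⟩
  · refine Fin.cases (f1.conn i1 hi1) (fun i => ?_) i
    exact conn_lift f1 ((t2 i).trans hLs) (t1 i) (b2 i)
  · revert hij
    refine Fin.cases ?_ (fun i => ?_) i <;> refine Fin.cases ?_ (fun j => ?_) j <;> intro hij
    · exact absurd rfl hij
    · exact t3 j
    · exact ⟨(t3 i).1.symm, (t3 i).2.symm⟩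
    · have c0 : i ≠ j := fun e => hij (by rw [e])
      refine ⟨(disjoint_biUnion_left _ _ _).2 fun p hp => (disjoint_biUnion_right _ _ _).2
        fun q hq => f1.disj p (hLs (t2 i hp)) q (hLs (t2 j hq)) fun e => ?_, ?_⟩
      · exact Set.disjoint_left.1 (b3 i j c0) ((t1 i p).2 hp) (e ▸ (t1 j q).2 hq)
      · obtain ⟨p, hp, q, hq, h⟩ := b4 i j c0
        exact h.2.mono (subset_biUnion_of_mem B1 ((t1 i p).1 hp))
          (subset_biUnion_of_mem B1 ((t1 j q).1 hq))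

theorem five_aux (hG : ¬ K5 G) (m : ℕ) : ∀ (s : Finset ι) (B : ι → Finset V), s.card ≤ m →
    Fam G s B → ∃ col : ι → Fin 5, ∀ i ∈ s, ∀ j ∈ s, i ≠ j → Touch G (B i) (B j) →
      col i ≠ col j := by
  induction m with
  | zero =>
    intro s B h1 _
    have : s = ∅ := card_eq_zero.1 (by omega)
    exact ⟨fun _ => 0, by simp [this]⟩
  | succ m ih =>
    intro s B h1 h2
    rcases s.eq_empty_or_nonempty with rfl | hs
    · exact ⟨fun _ => 0, by simp⟩
    obtain ⟨i, hi, hd⟩ := small_deg hG h2 hs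
    have a0 := card_erase_of_mem hi
    have a1 : ∃ col : ι → Fin 5, (∀ p ∈ s.erase i, ∀ q ∈ s.erase i, p ≠ q → Touch G (B p) (B q) →
        col p ≠ col q) ∧ ((nb G s B i).image col).card ≤ 4 := by
      by_cases h : ∃ j ∈ nb G s B i, ∃ k ∈ nb G s B i, j ≠ k ∧ ¬ Touch G (B j) (B k)
      · obtain ⟨j, hj, k, hk, hjk, hT⟩ := h
        obtain ⟨j1, j2, j3⟩ := mem_nb.1 hj
        obtain ⟨k1, k2, k3⟩ := mem_nb.1 hk
        set B' := Function.update B j (B j ∪ B i ∪ B k) with hB'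
        have e1 : B' j = B j ∪ B i ∪ B k := by simp [hB']
        have e2 : ∀ p, p ≠ j → B' p = B p := fun p hp => by simp [hB', hp]
        have e3 : ∀ p ∈ (s.erase i).erase k, p ≠ j → Disjoint (B' j) (B' p) := by
          intro p hp hpj
          simp only [mem_erase] at hp
          rw [e1, e2 p hpj, disjoint_union_left, disjoint_union_left]
          exact ⟨⟨h2.disj j j1 p hp.2.2 hpj.symm, h2.disj i hi p hp.2.2 hp.2.1.symm⟩,
            h2.disj k k1 p hp.2.2 hp.1.symm⟩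
        obtain ⟨col, hc⟩ := ih ((s.erase i).erase k) B'
          ((card_le_card (erase_subset _ _)).trans (by omega)) ⟨fun p hp => by
            by_cases e : p = j
            · rw [e, e1]
              exact ((h2.conn j j1).union (h2.conn i hi) j3.symm).union (h2.conn k k1)
                (k3.mono subset_union_right Subset.rfl)
            · rw [e2 p e]
              exact h2.conn p (mem_erase.1 (mem_erase.1 hp).2).2, fun p hp q hq hpq => by
            by_cases e : p = j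
            · rw [e]; exact e3 q hq (e ▸ hpq.symm)
            by_cases e' : q = j
            · rw [e']; exact (e3 p hp e).symm
            rw [e2 p e, e2 q e']
            exact h2.disj p (mem_erase.1 (mem_erase.1 hp).2).2 q
              (mem_erase.1 (mem_erase.1 hq).2).2 hpq⟩
        have e4 : ∀ p, B p ⊆ B' p := fun p => by
          by_cases e : p = j
          · rw [e, e1]; exact subset_union_left.trans subset_union_left
          · rw [e2 p e]
        have e5 : j ∈ (s.erase i).erase k := mem_erase.2 ⟨hjk, mem_erase.2 ⟨j2, j1⟩⟩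
        have e6 : ∀ q ∈ s.erase i, q ≠ k → Touch G (B k) (B q) → col j ≠ col q := by
          intro q hq hqk hT'
          exact hc j e5 q (mem_erase.2 ⟨hqk, hq⟩) (fun e => hT (e ▸ hT'.symm))
            (hT'.mono (by rw [e1]; exact subset_union_right) (e4 q))
        refine ⟨Function.update col k (col j), fun p hp q hq hpq hT' => ?_, ?_⟩
        · by_cases e : p = k
          · have e' : q ≠ k := e ▸ hpq.symm
            rw [e, Function.update_self, Function.update_of_ne e']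
            exact e6 q hq e' (e ▸ hT')
          by_cases e' : q = k
          · rw [e', Function.update_self, Function.update_of_ne e]
            exact (e6 p hp e (e' ▸ hT'.symm)).symm
          rw [Function.update_of_ne e, Function.update_of_ne e']
          exact hc p (mem_erase.2 ⟨e, hp⟩) q (mem_erase.2 ⟨e', hq⟩) hpq (hT'.mono (e4 p) (e4 q))
        · have c1 : (nb G s B i).image (Function.update col k (col j)) ⊆
              ((nb G s B i).erase k).image col := by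
            intro y hy
            obtain ⟨p, hp, rfl⟩ := mem_image.1 hy
            by_cases e : p = k
            · rw [e, Function.update_self]
              exact mem_image_of_mem _ (mem_erase.2 ⟨hjk, hj⟩)
            · rw [Function.update_of_ne e]
              exact mem_image_of_mem _ (mem_erase.2 ⟨e, hp⟩)
          have c2 := (card_le_card c1).trans card_image_le
          rw [card_erase_of_mem hk] at c2
          omega
      · push Not at h
        obtain ⟨col, hc⟩ := ih (s.erase i) B (by omega) (h2.mono (erase_subset _ _))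
        refine ⟨col, hc, card_image_le.trans ?_⟩
        by_contra hlt
        have c1 : (nb G s B i).card = 5 := by omega
        let f : Fin 5 → nb G s B i := fun p => (nb G s B i).equivFin.symm (Fin.cast c1.symm p)
        have f1 : ∀ p q, p ≠ q → (f p : ι) ≠ f q := fun p q hpq e =>
          hpq (Fin.cast_injective _ ((nb G s B i).equivFin.symm.injective (Subtype.ext e)))
        exact hG ⟨fun p => B (f p), fun p => h2.conn _ (mem_nb.1 (f p).2).1, fun p q hpq =>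
          ⟨h2.disj _ (mem_nb.1 (f p).2).1 _ (mem_nb.1 (f q).2).1 (f1 p q hpq),
            h _ (f p).2 _ (f q).2 (f1 p q hpq)⟩⟩
    obtain ⟨col, c1, c2⟩ := a1
    obtain ⟨c, -, hc⟩ := exists_mem_notMem_of_card_lt_card
      (s := (nb G s B i).image col) (t := univ) (by simp; omega)
    have c3 : ∀ q ∈ s, q ≠ i → Touch G (B i) (B q) → c ≠ col q := fun q hq hqi hT e =>
      hc (e ▸ mem_image_of_mem col (mem_nb.2 ⟨hq, hqi, hT⟩))
    refine ⟨Function.update col i c, fun p hp q hq hpq hT => ?_⟩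
    by_cases e : p = i
    · have e' : q ≠ i := e ▸ hpq.symm
      rw [e, Function.update_self, Function.update_of_ne e']
      exact c3 q hq e' (e ▸ hT)
    by_cases e' : q = i
    · rw [e', Function.update_self, Function.update_of_ne e]
      exact (c3 p hp e (e' ▸ hT.symm)).symm
    rw [Function.update_of_ne e, Function.update_of_ne e']
    exact c1 p (mem_erase.2 ⟨e, hp⟩) q (mem_erase.2 ⟨e', hq⟩) hpq hT

theorem five_colour [Fintype V] (hG : ¬ K5 G) :
    ∃ col : V → Fin 5, ∀ v w, G.Adj v w → col v ≠ col w := by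
  obtain ⟨col, h⟩ := five_aux hG _ univ (fun u : V => {u}) le_rfl
    ⟨fun u _ => conn_singleton u, fun u _ u' _ h => by simpa⟩
  exact ⟨col, fun v w k => h v (mem_univ _) w (mem_univ _) k.ne
    ⟨v, mem_singleton_self _, w, mem_singleton_self _, k⟩⟩

end Pool.Agent.MP_a4cd82_co.H14

end MrgPart2

-- ======== part 3: formerly Pool.Agent.MP_a4cd82_co.h14.Main
section MrgPart3

/-!
Every two-colouring of `K_{12 n}` has a monochromatic host; the main theorem.
-/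

set_option autoImplicit false
set_option linter.unusedSectionVars false
set_option linter.unusedVariables false

open Finset

namespace Pool.Agent.MP_a4cd82_co.H14

variable {W : Type} [DecidableEq W]

open Classical in
theorem core {H1 H2 : SimpleGraph W} {ν m e ε s₀ ε' : ℝ} (h : Num ν m e ε s₀) {k : ℕ}
    {cl R : Fin k → Finset W} {r b : Fin k → Fin k → ℝ}
    (disj : ∀ a b, a ≠ b → Disjoint (cl a) (cl b)) (sub : ∀ a, R a ⊆ cl a)
    (cm : ∀ a, ((cl a).card : ℝ) ≤ m) (km : k * m ≤ 13 * ν) (k8 : (10 ^ 12 : ℝ) ≤ k)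
    (r0 : ∀ a c, 0 ≤ r a c) (r1 : ∀ a c, r a c ≤ 1) (rs : ∀ a c, r a c = r c a)
    (b0 : ∀ a c, 0 ≤ b a c) (b1 : ∀ a c, b a c ≤ 1) (bs : ∀ a c, b a c = b c a)
    (tr : ∀ a c, TB H1 e (r a c) (cl a) (cl c)) (tb : ∀ a c, TB H2 e (b a c) (cl a) (cl c))
    (hε' : ε' ≤ 1 / 10 ^ 12)
    (few : ∑ a, ((univ.filter fun c => r a c + b a c ≠ 1).card : ℝ) ≤ ε' * k ^ 2 + k)
    (tot : 6 * ν ≤ ∑ a, ((R a).card : ℝ))
    (inn : ∀ a Y, Y ⊆ R a → m / 10 ^ 12 ≤ Y.card → Tup H1 ε (1 / 2000000) s₀ Y)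
    {L : Fin 5 → Fin 5 → Fin 5 → ℕ} (hL : ((∑ c, ∑ c', ∑ a, L c c' a : ℕ) : ℝ) ≤ ν) :
    Nonempty (Host H1 ε (1 / 2000000) s₀ 23 L) ∨ Nonempty (Host H2 ε (1 / 2000000) s₀ 23 L) := by
  have hm : 0 ≤ m := by linarith [h.m0]
  have hν := h.ν0
  let g : Fin k → ℝ := fun a => (univ.filter fun c => r a c + b a c ≠ 1).card
  let Gd := univ.filter fun a => m / 10 ^ 6 ≤ (R a).card ∧ g a ≤ k / 10 ^ 6
  have g1 : (Fintype.card Gd : ℝ) * m ≤ 13 * ν := by
    refine le_trans (mul_le_mul_of_nonneg_right ?_ hm) km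
    rw [Fintype.card_coe]
    exact_mod_cast (card_le_univ Gd).trans_eq (Fintype.card_fin k)
  have g2 : ∀ a : Gd, m / 10 ^ 6 ≤ (R a).card := fun a => (mem_filter.1 a.2).2.1
  have g3 : ∀ a c : Gd, a ≠ c → Disjoint (cl a) (cl c) := fun a c k =>
    disj _ _ (Subtype.coe_injective.ne k)
  have wm : ∀ a, ((R a).card : ℝ) ≤ m := fun a =>
    (Nat.cast_le.2 (card_le_card (sub a))).trans (cm a)
  let σ1 : Sys H1 Gd ν m e := ⟨fun a => cl a, fun a => R a, fun a c => r a c, g3, fun a => sub a,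
    fun a => cm a, g2, g1, fun a c => r0 a c, fun a c => r1 a c, fun a c => rs a c,
    fun a c => tr a c⟩
  let σ2 : Sys H2 Gd ν m e := ⟨fun a => cl a, fun a => R a, fun a c => b a c, g3, fun a => sub a,
    fun a => cm a, g2, g1, fun a c => b0 a c, fun a c => b1 a c, fun a c => bs a c,
    fun a c => tb a c⟩
  by_cases hc : ∃ i : Gd, 1.00005 * ν ≤ ∑ c : Gd, r i c ^ 2 * (R c).card
  · obtain ⟨i, hi⟩ := hc
    exact Or.inl (σ1.red h hL (fun a => inn a) i hi)
  push Not at hc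
  refine Or.inr (σ2.blue h hL ?_ fun i => ?_)
  · have a1 := (markov univ g (fun a _ => Nat.cast_nonneg _) (k / 10 ^ 6)).trans few
    set B := univ.filter fun a => (k : ℝ) / 10 ^ 6 < g a with hB
    have a2 : (B.card : ℝ) ≤ 2 * k / 10 ^ 6 := by
      by_contra c
      have c1 := mul_lt_mul_of_pos_right (not_le.1 c) (show (0 : ℝ) < k by linarith)
      nlinarith [mul_le_mul_of_nonneg_right hε' (sq_nonneg (k : ℝ))]
    have a3 : ∀ a, ((R a).card : ℝ) ≤ (if a ∈ Gd then ((R a).card : ℝ) else 0) +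
        (m / 10 ^ 6 + if a ∈ B then m else 0) := by
      intro a
      have c1 := wm a
      by_cases c2 : a ∈ Gd
      · rw [if_pos c2]
        split_ifs <;> linarith
      · rw [if_neg c2]
        split_ifs with c3
        · linarith
        · simp only [Gd, B, mem_filter, mem_univ, true_and, not_and, not_lt] at c2 c3
          by_contra c4
          exact c2 (by linarith) c3
    have a4 := sum_le_sum fun a (_ : a ∈ univ) => a3 a
    rw [sum_add_distrib, sum_add_distrib, sum_ite_card, sum_const, card_univ, Fintype.card_fin,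
      nsmul_eq_mul, ← sum_filter, filter_mem_eq_inter, univ_inter,
      ← sum_coe_sort Gd fun a => ((R a).card : ℝ)] at a4
    show _ ≤ ∑ a : Gd, ((R a).card : ℝ)
    nlinarith [mul_le_mul_of_nonneg_right a2 hm]
  · let B := univ.filter fun c => r i c + b i c ≠ 1
    have a1 : (B.card : ℝ) ≤ k / 10 ^ 6 := (mem_filter.1 i.2).2.2
    have a2 : ∀ c : Gd, (1 - b i c) ^ 2 * (R c).card ≤
        r i c ^ 2 * (R c).card + if (c : Fin k) ∈ B then m else 0 := by
      intro c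
      have c1 : (0 : ℝ) ≤ (R c).card := Nat.cast_nonneg _
      split_ifs with c2
      · have c3 : (1 - b i c) ^ 2 ≤ 1 := by nlinarith [b0 i c, b1 i c]
        nlinarith [wm c, mul_nonneg (sq_nonneg (r i c)) c1]
      · simp only [B, mem_filter, mem_univ, true_and, not_not] at c2
        rw [← c2]
        simp
    have a3 := sum_le_sum fun c (_ : c ∈ univ) => a2 c
    have a4 : ∑ c : Gd, (if (c : Fin k) ∈ B then m else 0) ≤ B.card * m := by
      rw [sum_coe_sort Gd fun c => if c ∈ B then m else 0, ← sum_ite_card]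
      exact sum_le_sum_of_subset_of_nonneg (subset_univ _) fun c _ _ => by split_ifs <;> linarith
    rw [sum_add_distrib] at a3
    show ∑ c : Gd, (1 - b i c) ^ 2 * (R c).card ≤ _
    nlinarith [hc i, mul_le_mul_of_nonneg_right a1 hm]

theorem exists_host {ε : ℝ} (hε : 0 < ε) (hε1 : ε ≤ 1) : ∃ c : ℝ, 0 < c ∧ ∃ n₀ : ℕ, ∀ n, n₀ ≤ n →
    ∀ (H : SimpleGraph (Fin (12 * n))) (L : Fin 5 → Fin 5 → Fin 5 → ℕ),
      ∑ c, ∑ c', ∑ a, L c c' a ≤ n → ∃ s₀ : ℝ, c * n ≤ s₀ ∧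
      (Nonempty (Host H ε (1 / 2000000) s₀ 23 L) ∨
        Nonempty (Host Hᶜ ε (1 / 2000000) s₀ 23 L)) := by
  classical
  obtain ⟨μ, hμ, N, hN⟩ := inner (d := 1 / 2000000) hε (by norm_num)
  obtain ⟨μ₁, μ0, μ1, μ2⟩ : ∃ μ₁ : ℝ, 0 < μ₁ ∧ μ₁ ≤ μ / (2 * 10 ^ 24) ∧ μ₁ ≤ 1 / 10 ^ 25 :=
    ⟨min _ _, by positivity, min_le_left _ _, min_le_right _ _⟩
  obtain ⟨M, hM⟩ := exists_regSys (ε := ε * μ₁ / 10 ^ 10) (by positivity) (10 ^ 12)
  refine ⟨μ₁ / (M + 1), by positivity, 10 ^ 12 + M + M * (10 ^ 14 + 2 * 10 ^ 24 * N),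
    fun n hn H L hL => ?_⟩
  obtain ⟨σ⟩ := hM _ H univ (by rw [card_univ, Fintype.card_fin]; omega)
  have k1 := σ.lk
  have k2 := σ.kM
  have k3 := σ.tot
  rw [card_univ, Fintype.card_fin] at k3
  have m1 : 12 * n ≤ M * σ.m := by
    refine k3.ge.trans ((sum_le_card_nsmul _ _ _ fun a _ => σ.cm a).trans ?_)
    rw [card_univ, Fintype.card_fin, smul_eq_mul]
    exact Nat.mul_le_mul_right _ k2
  have m2 : σ.k * σ.m ≤ 13 * n := by
    have := card_nsmul_le_sum univ _ _ fun a _ => σ.mc a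
    rw [card_univ, Fintype.card_fin, smul_eq_mul, sum_add_distrib, k3, sum_const, card_univ,
      Fintype.card_fin, smul_eq_mul] at this
    omega
  have m3 : 10 ^ 14 + 2 * 10 ^ 24 * N ≤ σ.m :=
    Nat.le_of_mul_le_mul_left (c := M) (by omega) (by omega)
  have m4 : (10 ^ 14 + 2 * 10 ^ 24 * N : ℝ) ≤ σ.m := by exact_mod_cast m3
  have m5 : (0 : ℝ) ≤ N := Nat.cast_nonneg _
  have m6 : (0 : ℝ) < σ.m := by linarith
  have hnum : Num n σ.m (ε * μ₁ / 10 ^ 10 * σ.m) ε (μ₁ * σ.m) :=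
    ⟨by exact_mod_cast (show 0 < n by omega), by linarith, by positivity, hε.le, hε1,
      le_of_eq (by ring), by positivity, by nlinarith⟩
  choose R R1 R2 R3 using fun a => split (Tup H ε (1 / 2000000) (μ₁ * σ.m))
    (Tup Hᶜ ε (1 / 2000000) (μ₁ * σ.m)) (fun X Y h k => k.mono h le_rfl)
    (fun X Y h k => k.mono h le_rfl) (q := σ.m / (2 * 10 ^ 24)) (g := σ.m / 10 ^ 12)
    (by positivity) (by positivity)
    (fun Y hY => by
      have c1 : μ₁ * σ.m ≤ μ * Y.card := by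
        nlinarith [mul_le_mul_of_nonneg_left hY hμ.le, mul_le_mul_of_nonneg_right μ1 m6.le]
      exact (hN _ H Y (by exact_mod_cast (show (N : ℝ) ≤ Y.card by linarith))).imp
        (fun k => k.mono Subset.rfl c1) fun k => k.mono Subset.rfl c1)
    (10 ^ 12) (σ.cl a) (by
      have : ((σ.cl a).card : ℝ) ≤ σ.m := by exact_mod_cast σ.cm a
      push_cast
      linarith)
  refine ⟨μ₁ * σ.m, ?_, ?_⟩
  · have : (12 * n : ℝ) ≤ M * σ.m := by exact_mod_cast m1
    rw [div_mul_eq_mul_div, div_le_iff₀ (by positivity), mul_assoc]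
    exact mul_le_mul_of_nonneg_left (by nlinarith [Nat.cast_nonneg (α := ℝ) n]) μ0.le
  have c1 : ∀ a, ((σ.cl a).card : ℝ) ≤ σ.m := fun a => by exact_mod_cast σ.cm a
  have c2 : (σ.k : ℝ) * σ.m ≤ 13 * n := by exact_mod_cast m2
  have c3 : (10 ^ 12 : ℝ) ≤ σ.k := by exact_mod_cast k1
  have c4 : ε * μ₁ / 10 ^ 10 ≤ 1 / 10 ^ 12 := by nlinarith
  have c5 : ((∑ c, ∑ c', ∑ a, L c c' a : ℕ) : ℝ) ≤ n := by exact_mod_cast hL
  have c6 : ∑ a, ((σ.cl a \ R a).card : ℝ) + ∑ a, ((R a).card : ℝ) = 12 * n := by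
    rw [← sum_add_distrib]
    have : ∑ a, ((σ.cl a \ R a).card + (R a).card) = 12 * n :=
      (sum_congr rfl fun a _ => card_sdiff_add_card_eq_card (R1 a)).trans k3
    exact_mod_cast this
  by_cases c7 : 6 * (n : ℝ) ≤ ∑ a, ((R a).card : ℝ)
  · exact core hnum σ.disj R1 c1 c2 c3 σ.r0 σ.r1 σ.rs σ.b0 σ.b1 σ.bs σ.tr σ.tb c4 σ.few c7 R2 c5
  · refine (core hnum σ.disj (R := fun a => σ.cl a \ R a) (fun a => sdiff_subset) c1 c2 c3 σ.b0
      σ.b1 σ.bs σ.r0 σ.r1 σ.rs σ.tb σ.tr c4 ?_ (by linarith) (fun a Y h1 h2 => R3 a Y h1 ?_) c5).symm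
    · simpa only [add_comm] using σ.few
    · push_cast
      linarith

theorem main_aux (p : ℕ) (hp : ∀ K : ℕ, ∃ n₀ : ℕ, ∀ (V : Type) [Fintype V] [DecidableEq V]
    (G : SimpleGraph V), n₀ ≤ Fintype.card V → ¬ K33 G → Nonempty (Str G p K 23)) :
    ∃ n₀ : ℕ, ∀ n, n₀ ≤ n → ∀ G : SimpleGraph (Fin n), ¬ K33 G →
      (∃ col : Fin n → Fin 5, ∀ v w, G.Adj v w → col v ≠ col w) →
      ∀ H : SimpleGraph (Fin (12 * n)),
        (∃ f : Fin n → Fin (12 * n), Function.Injective f ∧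
          ∀ u v, G.Adj u v → H.Adj (f u) (f v)) ∨
        ∃ f : Fin n → Fin (12 * n), Function.Injective f ∧
          ∀ u v, G.Adj u v → Hᶜ.Adj (f u) (f v) := by
  classical
  have d0 : (0 : ℝ) < (1 / 2000000) ^ p := by positivity
  have d1 : (1 / 2000000 : ℝ) ^ p ≤ 1 := pow_le_one₀ (by norm_num) (by norm_num)
  have d2 : (1 : ℝ) ≤ ((23 + 1) * 5 : ℕ) * 2 ^ p + p + 1 := le_add_of_nonneg_left (by positivity)
  obtain ⟨ε, e0, e1⟩ : ∃ ε : ℝ, 0 < ε ∧
      (((23 + 1) * 5 : ℕ) * 2 ^ p + p + 1) * ε = (1 / 2000000) ^ p / 2 :=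
    ⟨(1 / 2000000) ^ p / 2 / (((23 + 1) * 5 : ℕ) * 2 ^ p + p + 1), by positivity, by field_simp⟩
  obtain ⟨c, c0, n₁, h1⟩ := exists_host e0
    ((le_mul_of_one_le_left e0.le d2).trans (e1.le.trans ((half_le_self d0.le).trans d1)))
  obtain ⟨K, hK⟩ := exists_nat_gt (6 / ((1 / 2000000) ^ p * c))
  rw [div_lt_iff₀ (by positivity)] at hK
  obtain ⟨n₂, h2⟩ := hp K
  refine ⟨n₁ + n₂ + 1, fun n hn G hG ⟨col, hcol⟩ H => ?_⟩
  obtain ⟨σ⟩ := h2 (Fin n) G (by rw [Fintype.card_fin]; omega) hG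
  choose h hI h' hI' hh using σ.hub
  obtain ⟨s₀, s1, s2⟩ := h1 n (by omega) H (fun c c' a => (univ.filter fun v =>
      col (h (σ.pc v)) = c ∧ col (h' (σ.pc v)) = c' ∧ col v = a).card) (by
    simp only [card_filter]
    have b1 : ∀ f : Fin 5 → Fin 5 → Fin 5 → Fin n → ℕ,
        ∑ c, ∑ c', ∑ a, ∑ v, f c c' a v = ∑ v, ∑ c, ∑ c', ∑ a, f c c' a v := fun f =>
      (sum_congr rfl fun c _ => (sum_congr rfl fun c' _ => sum_comm).trans sum_comm).trans sum_comm
    rw [b1]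
    simp [ite_and])
  have a1 : 6 * (Fintype.card (Fin n) : ℝ) < K * ((1 / 2000000) ^ p * s₀) := by
    rw [Fintype.card_fin]
    have b1 : (0 : ℝ) < n := by exact_mod_cast (show 0 < n by omega)
    have b2 := mul_le_mul_of_nonneg_left (mul_le_mul_of_nonneg_left s1 d0.le)
      (Nat.cast_nonneg (α := ℝ) K)
    nlinarith [mul_lt_mul_of_pos_right hK b1]
  have a2 := fun P => And.intro (hI P) (And.intro (hI' P) (hh P))
  exact s2.imp
    (fun ⟨η⟩ => embed σ col hcol h h' a2 η (by norm_num) (by norm_num) e0.le e1.le a1)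
    fun ⟨η⟩ => embed σ col hcol h h' a2 η (by norm_num) (by norm_num) e0.le e1.le a1

theorem Conn.connected {V : Type*} [DecidableEq V] {G : SimpleGraph V} {X : Finset V}
    (h : Conn G X) : (G.induce (X : Set V)).Connected := by
  obtain ⟨⟨x, hx⟩, h⟩ := h
  have : Nonempty (X : Set V) := ⟨⟨x, hx⟩⟩
  refine ⟨fun ⟨u, hu⟩ ⟨v, hv⟩ => ?_⟩
  have key : ∀ w, Relation.ReflTransGen (fun a b => G.Adj a b ∧ b ∈ X) u w →
      ∃ hw : w ∈ (X : Set V), (G.induce (X : Set V)).Reachable ⟨u, hu⟩ ⟨w, hw⟩ := by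
    intro w k
    induction k with
    | refl => exact ⟨hu, SimpleGraph.Reachable.refl _⟩
    | tail _ k ih => exact ⟨k.2, ih.2.trans (SimpleGraph.Adj.reachable k.1)⟩
  exact (key v (h u hu v hv)).2

end Pool.Agent.MP_a4cd82_co.H14

end MrgPart3

-- marker of a merged file
example : 731051 + 496558 = 731051 + 496558 := rfl
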