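import Mathlib.Topology.Sheaves.Presheaf
import Mathlib.Combinatorics.SimpleGraph.Maps
import Mathlib.Combinatorics.SimpleGraph.Regularity.Lemma
import Pool.Agent.MP_a4cd82_co.h14.Tools

-- ======== part 0: formerly Pool.Agent.MP_a4cd82_co.h14.Run
section MrgPart0

/-!
Greedy embedding along an order of bounded arrangeability into lower regular pairs.
-/

set_option autoImplicit false
set_option linter.unusedSectionVars false
set_option linter.unusedVariables false

open Finset

namespace Pool.Agent.MP_a4cd82_co.H14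

variable {V W : Type} [DecidableEq V] [DecidableEq W]

open Classical in
/-- Few vertices of `S` have small degree into any given large subset of `T`. -/
def LR (H : SimpleGraph W) (ε d : ℝ) (S T : Finset W) : Prop :=
  ∀ X, X ⊆ T → ε * T.card ≤ X.card →
    ((S.filter fun x => ((X.filter (H.Adj x)).card : ℝ) < d * X.card).card : ℝ) ≤ ε * S.card

open Classical in
/-- Candidates in `T` for the image of `w`, given the images of the vertices of `D`. -/
noncomputable def cand (G : SimpleGraph V) (H : SimpleGraph W) (f : V → W) (D : Finset V)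
    (T : Finset W) (w : V) : Finset W :=
  T.filter fun y => ∀ x ∈ D, G.Adj w x → H.Adj (f x) y

theorem mem_cand {G : SimpleGraph V} {H : SimpleGraph W} {f : V → W} {D : Finset V}
    {T : Finset W} {w : V} {y : W} :
    y ∈ cand G H f D T w ↔ y ∈ T ∧ ∀ x ∈ D, G.Adj w x → H.Adj (f x) y := by
  simp [cand]

open Classical in
/-- The candidate set of `w` is large. -/
def Inv (G : SimpleGraph V) (H : SimpleGraph W) (d : ℝ) (f : V → W) (D : Finset V)
    (T : Finset W) (w : V) : Prop :=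
  d ^ (D.filter (G.Adj w)).card * T.card ≤ (cand G H f D T w).card

theorem card_biUnion_real {ι : Type*} (s : Finset ι) (g : ι → Finset W) (c : ℝ)
    (h : ∀ i ∈ s, ((g i).card : ℝ) ≤ c) : ((s.biUnion g).card : ℝ) ≤ s.card * c := by
  have h1 : ((s.biUnion g).card : ℝ) ≤ ∑ i ∈ s, ((g i).card : ℝ) := by
    exact_mod_cast card_biUnion_le
  have h2 := sum_le_card_nsmul s _ c h
  rw [nsmul_eq_mul] at h2
  exact h1.trans h2

theorem card_union_real (s t : Finset W) : ((s ∪ t).card : ℝ) ≤ s.card + t.card := by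
  exact_mod_cast card_union_le s t

open Classical in
theorem run {G : SimpleGraph V} {H : SimpleGraph W} {p κ : ℕ} {ε d : ℝ} (hd0 : 0 ≤ d) (hd1 : d ≤ 1)
    (hε0 : 0 ≤ ε) (hε : ε ≤ d ^ p) {rk : V → ℕ} (inj : Function.Injective rk)
    {R Lk : V → Finset V}
    (back : ∀ (w : V) (s : Finset V), (∀ x ∈ s, G.Adj w x ∧ rk x < rk w) → s.card ≤ p)
    (cR : ∀ v, (R v).card ≤ p)
    (memR : ∀ v w x, G.Adj v w → rk v < rk w → G.Adj w x → rk x < rk v → x ∈ R v)
    (cL : ∀ v, (Lk v).card ≤ p) (T : V → Finset W) (D P Z : Finset V) (hPZ : P ⊆ Z)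
    (hD : Disjoint D Z) (hk : (Z.image T).card ≤ κ)
    (hlr : ∀ v ∈ P, ∀ w ∈ Z, G.Adj v w → LR H ε d (T v) (T w))
    (h1 : ∀ v ∈ P, ∀ w ∈ Z, w ∉ P → rk v < rk w)
    (h2 : ∀ w ∈ Z, ∀ x ∈ D, G.Adj w x → ∀ v ∈ Z, rk x < rk v)
    (G1 : V → W → Prop) (G2 : V → W → V → W → Prop)
    (b1 : ∀ v ∈ P, (((T v).filter fun y => ¬ G1 v y).card : ℝ) ≤ ε * (T v).card)
    (b2 : ∀ x ∈ P, ∀ x' ∈ T x, G1 x x' → ∀ v ∈ P,
      (((T v).filter fun y => ¬ G2 x x' v y).card : ℝ) ≤ ε * (T v).card)
    (f₀ : V → W)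
    (hu : ∀ v ∈ P, ((T v ∩ D.image f₀).card : ℝ) + P.card +
      (κ * 2 ^ p + p + 1) * (ε * (T v).card) < d ^ p * (T v).card)
    (inv₀ : ∀ w ∈ Z, Inv G H d f₀ D (T w) w) :
    ∃ f : V → W, (∀ x, x ∉ P → f x = f₀ x) ∧
      (∀ v ∈ P, f v ∈ T v ∧ G1 v (f v) ∧ f v ∉ D.image f₀) ∧ Set.InjOn f P ∧
      (∀ v ∈ P, ∀ x ∈ D ∪ P, G.Adj v x → H.Adj (f x) (f v)) ∧
      (∀ v ∈ P, ∀ x ∈ P, x ∈ Lk v → rk x < rk v → G2 x (f x) v (f v)) ∧
      ∀ w ∈ Z, w ∉ P → Inv G H d f (D ∪ P) (T w) w := by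
  have key : ∀ s : Finset V, s ⊆ P → (∀ v ∈ s, ∀ w ∈ Z, w ∉ s → rk v < rk w) →
      ∃ f : V → W, (∀ x, x ∉ s → f x = f₀ x) ∧
      (∀ v ∈ s, f v ∈ T v ∧ G1 v (f v) ∧ f v ∉ D.image f₀) ∧ Set.InjOn f s ∧
      (∀ v ∈ s, ∀ x ∈ D ∪ s, G.Adj v x → H.Adj (f x) (f v)) ∧
      (∀ v ∈ s, ∀ x ∈ s, x ∈ Lk v → rk x < rk v → G2 x (f x) v (f v)) ∧
      ∀ w ∈ Z, w ∉ s → Inv G H d f (D ∪ s) (T w) w := by
    intro s
    induction s using Finset.induction_on_max_value rk with
    | empty => exact fun _ _ => ⟨f₀, fun _ _ => rfl, by simp, by simp, by simp, by simp,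
        fun w hw _ => by simpa using inv₀ w hw⟩
    | insert a s has hmax ih =>
      intro hs hlow
      have haP : a ∈ P := hs (mem_insert_self _ _)
      have haZ := hPZ haP
      have haD : a ∉ D := fun h => disjoint_left.1 hD h haZ
      have hsP : s ⊆ P := (subset_insert _ _).trans hs
      have hlt : ∀ x ∈ s, rk x < rk a := fun x hx =>
        lt_of_le_of_ne (hmax x hx) fun e => has (inj e ▸ hx)
      obtain ⟨f, f1, f2, f3, f4, f5, f6⟩ := ih hsP fun v hv w hw hws => by
        by_cases e : w = a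
        · rw [e]; exact hlt v hv
        · exact hlow v (mem_insert_of_mem hv) w hw (by simp [e, hws])
      have hbig : ∀ w ∈ Z, w ∉ s → d ^ p * (T w).card ≤ (cand G H f (D ∪ s) (T w) w).card := by
        intro w hw hws
        refine le_trans (mul_le_mul_of_nonneg_right (pow_le_pow_of_le_one hd0 hd1 ?_)
          (Nat.cast_nonneg _)) (f6 w hw hws)
        refine back w _ fun x hx => ?_
        obtain ⟨c1, c2⟩ := mem_filter.1 hx
        refine ⟨c2, ?_⟩
        rcases mem_union.1 c1 with c1 | c1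
        · exact h2 w hw x c1 c2 w hw
        · by_cases e : w = a
          · rw [e]; exact hlt x c1
          · exact hlow x (mem_insert_of_mem c1) w hw (by simp [e, hws])
      let Ty := (Z.filter fun w => G.Adj a w ∧ w ∉ insert a s).image
        fun w => cand G H f (D ∪ s) (T w) w
      have hTy : (Ty.card : ℝ) ≤ κ * 2 ^ p := by
        have c1 : Ty ⊆ (Z.image T ×ˢ (R a).powerset).image
            fun q => q.1.filter fun y => ∀ x ∈ q.2, H.Adj (f x) y := by
          intro X hX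
          obtain ⟨w, hw, rfl⟩ := mem_image.1 hX
          obtain ⟨d1, d2, d3⟩ := mem_filter.1 hw
          refine mem_image.2 ⟨(T w, (D ∪ s).filter (G.Adj w)), mem_product.2
            ⟨mem_image_of_mem _ d1, mem_powerset.2 fun x hx => ?_⟩, ?_⟩
          · obtain ⟨d4, d5⟩ := mem_filter.1 hx
            refine memR a w x d2 (hlow a (mem_insert_self _ _) w d1 d3) d5 ?_
            rcases mem_union.1 d4 with d4 | d4
            · exact h2 w d1 x d4 d5 a haZ
            · exact hlt x d4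
          · ext y
            simp only [mem_cand, mem_filter, and_imp]
        have c2 := (card_le_card c1).trans card_image_le
        rw [card_product, card_powerset] at c2
        have c3 := c2.trans (Nat.mul_le_mul hk (Nat.pow_le_pow_right (by norm_num) (cR a)))
        exact_mod_cast c3
      let B1 := T a ∩ D.image f₀
      let B2 := s.image f
      let B3 := (T a).filter fun y => ¬ G1 a y
      let B4 := (Lk a ∩ s).biUnion fun x => (T a).filter fun y => ¬ G2 x (f x) a y
      let B5 := Ty.biUnion fun X =>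
        (T a).filter fun y => ((X.filter (H.Adj y)).card : ℝ) < d * X.card
      have hpos : 0 ≤ ε * (T a).card := by positivity
      have n2 : (B2.card : ℝ) ≤ P.card := by
        exact_mod_cast card_image_le.trans (card_le_card hsP)
      have n3 : (B3.card : ℝ) ≤ ε * (T a).card := b1 a haP
      have n4 : (B4.card : ℝ) ≤ p * (ε * (T a).card) := by
        refine (card_biUnion_real _ _ (ε * (T a).card) fun x hx => ?_).trans
          (mul_le_mul_of_nonneg_right ?_ hpos)
        · have c1 := (mem_inter.1 hx).2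
          exact b2 x (hsP c1) _ (f2 x c1).1 (f2 x c1).2.1 a haP
        · exact_mod_cast (card_le_card inter_subset_left).trans (cL a)
      have n5 : (B5.card : ℝ) ≤ κ * 2 ^ p * (ε * (T a).card) := by
        refine (card_biUnion_real _ _ (ε * (T a).card) fun X hX => ?_).trans
          (mul_le_mul_of_nonneg_right hTy hpos)
        obtain ⟨w, hw, rfl⟩ := mem_image.1 hX
        obtain ⟨d1, d2, d3⟩ := mem_filter.1 hw
        exact hlr a haP w d1 d2 _ (fun y hy => (mem_cand.1 hy).1)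
          ((mul_le_mul_of_nonneg_right hε (Nat.cast_nonneg _)).trans
            (hbig w d1 fun h => d3 (mem_insert_of_mem h)))
      have n6 : (B1 ∪ B2 ∪ B3 ∪ B4 ∪ B5).card < (cand G H f (D ∪ s) (T a) a).card := by
        have c1 := card_union_real B1 B2
        have c2 := card_union_real (B1 ∪ B2) B3
        have c3 := card_union_real (B1 ∪ B2 ∪ B3) B4
        have c4 := card_union_real (B1 ∪ B2 ∪ B3 ∪ B4) B5
        have c5 := hu a haP
        have c6 := hbig a haZ has
        have c7 : ((B1 ∪ B2 ∪ B3 ∪ B4 ∪ B5).card : ℝ) < (cand G H f (D ∪ s) (T a) a).card := by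
          simp only [B1] at *
          nlinarith
        exact_mod_cast c7
      obtain ⟨y, hy, hyB⟩ := exists_mem_notMem_of_card_lt_card n6
      obtain ⟨y1, y2⟩ := mem_cand.1 hy
      simp only [mem_union, not_or] at hyB
      obtain ⟨⟨⟨⟨y3, y4⟩, y5⟩, y6⟩, y7⟩ := hyB
      set g := Function.update f a y with hg
      have g1 : g a = y := by simp [hg]
      have g2 : ∀ x, x ≠ a → g x = f x := fun x hx => by simp [hg, hx]
      have g3 : ∀ x ∈ s, g x = f x := fun x hx => g2 x fun e => has (e ▸ hx)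
      have g4 : ∀ x ∈ D ∪ s, g x = f x := fun x hx => g2 x fun e => by
        rcases mem_union.1 hx with h | h
        · exact haD (e ▸ h)
        · exact has (e ▸ h)
      have g5 : D ∪ insert a s = insert a (D ∪ s) := union_insert _ _ _
      refine ⟨g, fun x hx => ?_, fun v hv => ?_, ?_, ?_, ?_, ?_⟩
      · rw [mem_insert, not_or] at hx
        rw [g2 x hx.1, f1 x hx.2]
      · rcases mem_insert.1 hv with e | h
        · rw [e, g1]
          exact ⟨y1, by simpa [B3, y1] using y5, fun h => y3 (mem_inter.2 ⟨y1, h⟩)⟩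
        · rw [g3 v h]; exact f2 v h
      · intro u hu v hv e
        rcases mem_insert.1 (mem_coe.1 hu) with e1 | c1 <;>
          rcases mem_insert.1 (mem_coe.1 hv) with e2 | c2
        · rw [e1, e2]
        · rw [e1, g1, g3 v c2] at e
          exact absurd (e ▸ mem_image_of_mem f c2) y4
        · rw [e2, g1, g3 u c1] at e
          exact absurd (e ▸ mem_image_of_mem f c1) y4
        · rw [g3 u c1, g3 v c2] at e
          exact f3 c1 c2 e
      · intro v hv x hx hvx
        rw [g5] at hx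
        rcases mem_insert.1 hv with e1 | c1 <;> rcases mem_insert.1 hx with e2 | c2
        · rw [e1, e2] at hvx
          exact absurd hvx (G.irrefl)
        · rw [e1, g1, g4 x c2]
          exact y2 x c2 (e1 ▸ hvx)
        · rw [e2, g1, g3 v c1]
          exact (y2 v (mem_union_right _ c1) (e2 ▸ hvx.symm)).symm
        · rw [g3 v c1, g4 x c2]
          exact f4 v c1 x c2 hvx
      · intro v hv x hx hL hxv
        rcases mem_insert.1 hv with e1 | c1 <;> rcases mem_insert.1 hx with e2 | c2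
        · rw [e1, e2] at hxv
          omega
        · rw [e1, g1, g3 x c2]
          by_contra h
          exact y6 (mem_biUnion.2 ⟨x, mem_inter.2 ⟨e1 ▸ hL, c2⟩, mem_filter.2 ⟨y1, h⟩⟩)
        · have := hlt v c1
          rw [e2] at hxv
          omega
        · rw [g3 v c1, g3 x c2]
          exact f5 v c1 x c2 hL hxv
      · intro w hw hws
        have c1 := f6 w hw fun h => hws (mem_insert_of_mem h)
        have c0 : a ∉ D ∪ s := by simp [haD, has]
        rw [g5]
        unfold Inv at c1 ⊢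
        by_cases hwa : G.Adj w a
        · have c2 : cand G H g (insert a (D ∪ s)) (T w) w =
              (cand G H f (D ∪ s) (T w) w).filter (H.Adj y) := by
            ext z
            simp only [mem_cand, mem_filter, forall_mem_insert, g1]
            constructor
            · rintro ⟨d1, d2, d3⟩
              exact ⟨⟨d1, fun x hx h => g4 x hx ▸ d3 x hx h⟩, d2 hwa⟩
            · rintro ⟨⟨d1, d2⟩, d3⟩
              exact ⟨d1, fun _ => d3, fun x hx h => (g4 x hx).symm ▸ d2 x hx h⟩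
          have c3 : d * (cand G H f (D ∪ s) (T w) w).card ≤
              ((cand G H f (D ∪ s) (T w) w).filter (H.Adj y)).card := by
            by_contra h
            exact y7 (mem_biUnion.2 ⟨_, mem_image_of_mem _ (mem_filter.2 ⟨hw, hwa.symm, hws⟩),
              mem_filter.2 ⟨y1, not_le.1 h⟩⟩)
          rw [c2, filter_insert, if_pos hwa,
            card_insert_of_notMem fun h => c0 (mem_filter.1 h).1, pow_succ]
          nlinarith [mul_le_mul_of_nonneg_left c1 hd0]
        · have c2 : cand G H g (insert a (D ∪ s)) (T w) w = cand G H f (D ∪ s) (T w) w := by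
            ext z
            simp only [mem_cand, forall_mem_insert, g1]
            constructor
            · rintro ⟨d1, d2, d3⟩
              exact ⟨d1, fun x hx h => g4 x hx ▸ d3 x hx h⟩
            · rintro ⟨d1, d2⟩
              exact ⟨d1, fun h => absurd h hwa, fun x hx h => (g4 x hx).symm ▸ d2 x hx h⟩
          rw [c2, filter_insert, if_neg hwa]
          exact c1
  exact key P Subset.rfl h1

end Pool.Agent.MP_a4cd82_co.H14

end MrgPart0

-- ======== part 1: formerly Pool.Agent.MP_a4cd82_co.h14.Reg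
section MrgPart1

/-!
Consequences of the regularity lemma.
-/

set_option autoImplicit false
set_option linter.unusedSectionVars false
set_option linter.unusedVariables false

open Finset

namespace Pool.Agent.MP_a4cd82_co.H14

variable {W : Type} [DecidableEq W]

open Classical in
/-- All but `e` vertices of `A` have about the expected degree into any subset of `B`. -/
def TB (H : SimpleGraph W) (e β : ℝ) (A B : Finset W) : Prop :=
  ∀ X, X ⊆ B →
    ((A.filter fun x => ((X.filter (H.Adj x)).card : ℝ) + e < β * X.card).card : ℝ) ≤ e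

theorem tb_zero (H : SimpleGraph W) {e : ℝ} (he : 0 ≤ e) (A B : Finset W) : TB H e 0 A B := by
  intro X _
  rw [filter_false_of_mem fun x _ => by rw [zero_mul, not_lt]; positivity]
  simpa using he

theorem TB.lr {H : SimpleGraph W} {e β ε d s : ℝ} {A B S T : Finset W} (h : TB H e β A B)
    (hS : S ⊆ A) (hT : T ⊆ B) (h1 : s ≤ S.card) (h2 : s ≤ T.card) (hε : 0 ≤ ε) (h3 : e ≤ ε * s)
    (hd : d ≤ β) (h4 : e ≤ (β - d) * (ε * s)) : LR H ε d S T := by
  classical
  intro X hX hc
  refine le_trans ?_ ((h X (hX.trans hT)).trans (h3.trans (mul_le_mul_of_nonneg_left h1 hε)))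
  refine Nat.cast_le.2 (card_le_card fun x hx => mem_filter.2 ⟨hS (mem_filter.1 hx).1, ?_⟩)
  have a1 := (mem_filter.1 hx).2
  have a2 := mul_le_mul_of_nonneg_left ((mul_le_mul_of_nonneg_left h2 hε).trans hc)
    (sub_nonneg.2 hd)
  linarith

theorem tb_of_uniform {α : Type} [DecidableEq α] {G : SimpleGraph α} [DecidableRel G.Adj]
    {ε m : ℝ} {A B : Finset α} (h : G.IsUniform ε A B) (hA : (A.card : ℝ) ≤ m)
    (hB : (B.card : ℝ) ≤ m) : TB G (ε * m) (G.edgeDensity A B) A B := by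
  classical
  have hε := h.pos
  have hm : 0 ≤ m := (Nat.cast_nonneg _).trans hA
  intro X hX
  by_contra hn
  rw [not_le] at hn
  set Y := A.filter fun x => ((X.filter (G.Adj x)).card : ℝ) + ε * m <
    (G.edgeDensity A B : ℝ) * X.card with hY
  have hn : ε * m < Y.card := lt_of_lt_of_eq hn (by rw [hY]; congr!)
  have a0 : (0 : ℝ) < Y.card := lt_of_le_of_lt (by positivity) hn
  have a1 : ((G.edgeDensity A B : ℚ) : ℝ) ≤ 1 := by exact_mod_cast G.edgeDensity_le_one A B
  have a2 : ε * m < X.card := by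
    obtain ⟨x, hx⟩ : Y.Nonempty := card_pos.1 (by exact_mod_cast a0)
    have b1 := (mem_filter.1 hx).2
    have b2 : (0 : ℝ) ≤ (X.filter (G.Adj x)).card := Nat.cast_nonneg _
    nlinarith [mul_le_mul_of_nonneg_right a1 (Nat.cast_nonneg (α := ℝ) X.card)]
  have a3 : (0 : ℝ) < X.card := lt_of_le_of_lt (by positivity) a2
  have a4 := (abs_lt.1 (h (filter_subset _ _ : Y ⊆ A) hX (by nlinarith) (by nlinarith))).1
  have a5 : ((G.interedges Y X).card : ℝ) = ∑ x ∈ Y, ((X.filter (G.Adj x)).card : ℝ) := by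
    rw [SimpleGraph.interedges_def]
    simp only [card_filter, sum_product]
    push_cast
    rfl
  have a6 : ∑ x ∈ Y, ((X.filter (G.Adj x)).card : ℝ) ≤
      Y.card * ((G.edgeDensity A B : ℝ) * X.card - ε * m) := by
    rw [← nsmul_eq_mul]
    exact sum_le_card_nsmul _ _ _ fun x hx => by linarith [(mem_filter.1 hx).2]
  have a7 : ((G.edgeDensity Y X : ℚ) : ℝ) * (Y.card * X.card) = (G.interedges Y X).card := by
    rw [G.edgeDensity_def Y X]
    push_cast
    field_simp
  have a8 : (X.card : ℝ) ≤ m := (Nat.cast_le.2 (card_le_card hX)).trans hB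
  have a9 := mul_lt_mul_of_pos_right a4 (mul_pos a0 a3)
  nlinarith [mul_le_mul_of_nonneg_left a8 (mul_pos hε a0).le]

theorem uniform_compl {α : Type} [DecidableEq α] {G : SimpleGraph α} [DecidableRel G.Adj]
    {ε : ℝ} {A B : Finset α} (h : G.IsUniform ε A B) (hA : A.Nonempty) (hB : B.Nonempty)
    (hd : Disjoint A B) : Gᶜ.IsUniform ε A B := by
  intro s hs t ht h1 h2
  have hε := h.pos
  have a1 : (0 : ℝ) < A.card := by exact_mod_cast card_pos.2 hA
  have a2 : (0 : ℝ) < B.card := by exact_mod_cast card_pos.2 hB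
  have a3 : s.Nonempty := card_pos.1 (by exact_mod_cast (mul_pos a1 hε).trans_le h1)
  have a4 : t.Nonempty := card_pos.1 (by exact_mod_cast (mul_pos a2 hε).trans_le h2)
  have a5 : ((G.edgeDensity s t : ℚ) : ℝ) + (Gᶜ.edgeDensity s t : ℚ) = 1 := by
    exact_mod_cast G.edgeDensity_add_edgeDensity_compl a3 a4 (hd.mono hs ht)
  have a6 : ((G.edgeDensity A B : ℚ) : ℝ) + (Gᶜ.edgeDensity A B : ℚ) = 1 := by
    exact_mod_cast G.edgeDensity_add_edgeDensity_compl hA hB hd
  have a7 := abs_lt.1 (h hs ht h1 h2)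
  exact abs_lt.2 ⟨by linarith [a7.2], by linarith [a7.1]⟩

theorem TB.map {α : Type} [DecidableEq α] {G : SimpleGraph α} {H : SimpleGraph W} (f : α ↪ W)
    (hf : ∀ x y, H.Adj (f x) (f y) ↔ G.Adj x y) {e β : ℝ} {A B : Finset α} (h : TB G e β A B) :
    TB H e β (A.map f) (B.map f) := by
  intro X hX
  obtain ⟨X, hX', rfl⟩ := subset_map_iff.1 hX
  have := h X hX'
  simp only [filter_map, card_map, Function.comp_def]
  convert this
  exact hf _ _

open Classical in
/-- A regular equipartition of `Y` with red and blue densities. -/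
structure RegSys (H : SimpleGraph W) (Y : Finset W) (ε : ℝ) (l M : ℕ) where
  k : ℕ
  cl : Fin k → Finset W
  m : ℕ
  rr : Fin k → Fin k → ℝ
  bb : Fin k → Fin k → ℝ
  lk : l ≤ k
  kM : k ≤ M
  sub : ∀ a, cl a ⊆ Y
  disj : ∀ a b, a ≠ b → Disjoint (cl a) (cl b)
  tot : ∑ a, (cl a).card = Y.card
  cm : ∀ a, (cl a).card ≤ m
  mc : ∀ a, m ≤ (cl a).card + 1
  r0 : ∀ a b, 0 ≤ rr a b
  r1 : ∀ a b, rr a b ≤ 1
  rs : ∀ a b, rr a b = rr b a
  b0 : ∀ a b, 0 ≤ bb a b
  b1 : ∀ a b, bb a b ≤ 1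
  bs : ∀ a b, bb a b = bb b a
  tr : ∀ a b, TB H (ε * m) (rr a b) (cl a) (cl b)
  tb : ∀ a b, TB Hᶜ (ε * m) (bb a b) (cl a) (cl b)
  few : ∑ a, ((univ.filter fun b => rr a b + bb a b ≠ 1).card : ℝ) ≤ ε * k ^ 2 + k

theorem exists_regSys {ε : ℝ} (hε : 0 < ε) (l : ℕ) : ∃ M : ℕ, ∀ (W : Type) [DecidableEq W]
    (H : SimpleGraph W) (Y : Finset W), l ≤ Y.card → Nonempty (RegSys H Y ε l M) := by
  classical
  refine ⟨SzemerediRegularity.bound ε l, fun W _ H Y hY => ?_⟩
  let f : Y ↪ W := Function.Embedding.subtype _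
  let G : SimpleGraph Y := H.comap f
  obtain ⟨P, p1, p2, p3, p4⟩ := szemeredi_regularity G hε (l := l) (by simpa using hY)
  let φ : Fin P.parts.card → Finset Y := fun a => P.parts.equivFin.symm a
  have φ1 : ∀ a, φ a ∈ P.parts := fun a => (P.parts.equivFin.symm a).2
  have φ2 : Function.Injective φ := fun a b h =>
    P.parts.equivFin.symm.injective (Subtype.ext h)
  have φ3 : ∀ a b, a ≠ b → Disjoint (φ a) (φ b) := fun a b h =>
    P.disjoint (φ1 a) (φ1 b) (φ2.ne h)
  have φ4 : ∀ a, (φ a).Nonempty := fun a => P.nonempty_of_mem_parts (φ1 a)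
  let m := (univ : Finset Y).card / P.parts.card + 1
  have φ5 : ∀ a, (φ a).card ≤ m := fun a => p1.card_part_le_average_add_one (φ1 a)
  have φ6 : ∀ a, ((φ a).card : ℝ) ≤ m := fun a => by exact_mod_cast φ5 a
  let u : Fin P.parts.card → Fin P.parts.card → Prop := fun a b =>
    a ≠ b ∧ G.IsUniform ε (φ a) (φ b)
  have us : ∀ a b, u a b ↔ u b a := fun a b =>
    ⟨fun h => ⟨h.1.symm, h.2.symm⟩, fun h => ⟨h.1.symm, h.2.symm⟩⟩
  have he : 0 ≤ ε * m := by positivity
  refine ⟨⟨P.parts.card, fun a => (φ a).map f, m,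
    fun a b => if u a b then G.edgeDensity (φ a) (φ b) else 0,
    fun a b => if u a b then Gᶜ.edgeDensity (φ a) (φ b) else 0, p2, p3, ?_,
    fun a b h => (disjoint_map f).2 (φ3 a b h), ?_, fun a => by rw [card_map]; exact φ5 a,
    fun a => by rw [card_map]; exact Nat.succ_le_succ (p1.average_le_card_part (φ1 a)),
    ?_, ?_, ?_, ?_, ?_, ?_, ?_, ?_, ?_⟩⟩
  · intro a x hx
    obtain ⟨y, -, rfl⟩ := mem_map.1 hx
    exact y.2
  · simp only [card_map]
    rw [Equiv.sum_comp P.parts.equivFin.symm fun a : P.parts => (a : Finset Y).card,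
      sum_coe_sort P.parts card, P.sum_card_parts]
    simp
  · intro a b
    split_ifs
    · exact_mod_cast G.edgeDensity_nonneg _ _
    · exact le_rfl
  · intro a b
    split_ifs
    · exact_mod_cast G.edgeDensity_le_one _ _
    · exact zero_le_one
  · intro a b
    rw [G.edgeDensity_comm]
    simp only [us a b]
  · intro a b
    split_ifs
    · exact_mod_cast Gᶜ.edgeDensity_nonneg _ _
    · exact le_rfl
  · intro a b
    split_ifs
    · exact_mod_cast Gᶜ.edgeDensity_le_one _ _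
    · exact zero_le_one
  · intro a b
    rw [Gᶜ.edgeDensity_comm]
    simp only [us a b]
  · intro a b
    split_ifs with h
    · exact (tb_of_uniform h.2 (φ6 a) (φ6 b)).map f fun _ _ => Iff.rfl
    · exact tb_zero _ he _ _
  · intro a b
    split_ifs with h
    · refine (tb_of_uniform (uniform_compl h.2 (φ4 a) (φ4 b) (φ3 a b h.1)) (φ6 a) (φ6 b)).map f
        fun x y => ?_
      simp [G]
    · exact tb_zero _ he _ _
  · have a1 : ∀ a, (univ.filter fun b => (if u a b then (G.edgeDensity (φ a) (φ b) : ℝ) else 0) +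
        (if u a b then (Gᶜ.edgeDensity (φ a) (φ b) : ℝ) else 0) ≠ 1).card ≤
        (univ.filter fun b => (φ a, φ b) ∈ P.nonUniforms G ε).card + 1 := by
      intro a
      refine (card_le_card fun b hb => ?_).trans (card_insert_le a _)
      by_contra h
      simp only [mem_insert, mem_filter, mem_univ, true_and, Finpartition.mk_mem_nonUniforms,
        φ1, not_or, not_and, not_not] at h
      have c1 : u a b := ⟨Ne.symm h.1, h.2 (φ2.ne (Ne.symm h.1))⟩
      refine (mem_filter.1 hb).2 ?_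
      rw [if_pos c1, if_pos c1]
      exact_mod_cast G.edgeDensity_add_edgeDensity_compl (φ4 a) (φ4 b) (φ3 a b c1.1)
    have a2 : ∑ a, (univ.filter fun b => (φ a, φ b) ∈ P.nonUniforms G ε).card ≤
        (P.nonUniforms G ε).card := by
      have c1 : ∑ a, (univ.filter fun b => (φ a, φ b) ∈ P.nonUniforms G ε).card =
          (univ.filter fun q : Fin P.parts.card × Fin P.parts.card =>
            (φ q.1, φ q.2) ∈ P.nonUniforms G ε).card := by
        simp only [card_filter, Fintype.sum_prod_type]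
      rw [c1]
      refine card_le_card_of_injOn (fun q => (φ q.1, φ q.2))
        (fun q hq => (mem_filter.1 (mem_coe.1 hq)).2) fun q _ q' _ h => ?_
      simp only [Prod.mk.injEq] at h
      exact Prod.ext (φ2 h.1) (φ2 h.2)
    have a3 := (sum_le_sum fun a (_ : a ∈ univ) => a1 a)
    rw [sum_add_distrib, sum_const, card_univ, Fintype.card_fin, smul_eq_mul, mul_one] at a3
    have a4 : ((P.parts.card * (P.parts.card - 1) : ℕ) : ℝ) ≤ (P.parts.card : ℝ) ^ 2 := by
      rw [sq]
      exact_mod_cast Nat.mul_le_mul_left _ (Nat.sub_le _ _)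
    have a5 := (p4.trans (mul_le_mul_of_nonneg_right a4 hε.le))
    have a6 := a3.trans (Nat.add_le_add_right a2 _)
    rw [← Nat.cast_sum]
    refine (Nat.cast_le.2 a6).trans ?_
    push_cast
    linarith

theorem markov {ι : Type*} (s : Finset ι) (f : ι → ℝ) (hf : ∀ a ∈ s, 0 ≤ f a) (δ : ℝ)
    [DecidablePred fun a => δ < f a] :
    ((s.filter fun a => δ < f a).card : ℝ) * δ ≤ ∑ a ∈ s, f a := by
  rw [← nsmul_eq_mul]
  exact (card_nsmul_le_sum _ _ _ fun a ha => (mem_filter.1 ha).2.le).trans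
    (sum_le_sum_of_subset_of_nonneg (filter_subset _ _) fun a ha _ => hf a ha)

open Classical in
theorem ramsey {ι : Type*} [DecidableEq ι] (r b : ι → ι → Prop) (rs : ∀ x y, r x y → r y x)
    (bs : ∀ x y, b x y → b y x) (δ : ℕ) (n : ℕ) : ∀ i j, i + j = n → ∀ s : Finset ι,
      (∀ x ∈ s, (s.filter fun y => ¬ r x y ∧ ¬ b x y).card ≤ δ) → 3 ^ n * (δ + 1) ≤ s.card →
      (∃ t, t ⊆ s ∧ t.card = i ∧ ∀ x ∈ t, ∀ y ∈ t, x ≠ y → r x y) ∨
        ∃ t, t ⊆ s ∧ t.card = j ∧ ∀ x ∈ t, ∀ y ∈ t, x ≠ y → b x y := by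
  induction n with
  | zero => exact fun i j h s _ _ => Or.inl ⟨∅, by simp, by simp; omega, by simp⟩
  | succ n ih =>
    intro i j h s h1 h2
    rcases i with _ | i
    · exact Or.inl ⟨∅, by simp, by simp, by simp⟩
    rcases j with _ | j
    · exact Or.inr ⟨∅, by simp, by simp, by simp⟩
    have a0 : 1 ≤ 3 ^ n := Nat.one_le_pow _ _ (by norm_num)
    obtain ⟨v, hv⟩ : s.Nonempty := card_pos.1 (lt_of_lt_of_le (by positivity) h2)
    have key : ∀ (c : ι → ι → Prop) (cs : ∀ x y, c x y → c y x) (t : Finset ι),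
        t ⊆ (s.erase v).filter (c v) → (∀ x ∈ t, ∀ y ∈ t, x ≠ y → c x y) →
        insert v t ⊆ s ∧ (insert v t).card = t.card + 1 ∧
          ∀ x ∈ insert v t, ∀ y ∈ insert v t, x ≠ y → c x y := by
      intro c cs t t1 t2
      refine ⟨insert_subset hv (t1.trans ((filter_subset _ _).trans (erase_subset _ _))),
        card_insert_of_notMem fun h => (mem_erase.1 (mem_filter.1 (t1 h)).1).1 rfl,
        fun x hx y hy hxy => ?_⟩
      rcases mem_insert.1 hx with e1 | c1 <;> rcases mem_insert.1 hy with e2 | c2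
      · exact absurd (e1.trans e2.symm) hxy
      · exact e1 ▸ (mem_filter.1 (t1 c2)).2
      · exact e2 ▸ cs _ _ (mem_filter.1 (t1 c1)).2
      · exact t2 x c1 y c2 hxy
    have sub : ∀ c : ι → Prop, (s.erase v).filter c ⊆ s := fun c =>
      (filter_subset _ _).trans (erase_subset _ _)
    have hd : ∀ c : ι → Prop, ∀ x ∈ (s.erase v).filter c,
        (((s.erase v).filter c).filter fun y => ¬ r x y ∧ ¬ b x y).card ≤ δ := fun c x hx =>
      (card_le_card (filter_subset_filter _ (sub c))).trans (h1 x (sub c hx))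
    have a1 : s ⊆ insert v ((s.erase v).filter (r v) ∪ (s.erase v).filter (b v) ∪
        s.filter fun y => ¬ r v y ∧ ¬ b v y) := by
      intro y hy
      simp only [mem_insert, mem_union, mem_filter, mem_erase]
      tauto
    have a2 := (card_le_card a1).trans ((card_insert_le _ _).trans (Nat.add_le_add_right
      ((card_union_le _ _).trans (Nat.add_le_add (card_union_le _ _) (h1 v hv))) 1))
    have a3 : 3 ^ n * (δ + 1) ≤ ((s.erase v).filter (r v)).card ∨
        3 ^ n * (δ + 1) ≤ ((s.erase v).filter (b v)).card := by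
      rw [pow_succ] at h2
      by_contra hn
      rw [not_or, not_le, not_le] at hn
      nlinarith [hn.1, hn.2, Nat.mul_le_mul_right (δ + 1) a0]
    rcases a3 with a3 | a3
    · rcases ih i (j + 1) (by omega) _ (hd _) a3 with ⟨t, t1, t2, t3⟩ | ⟨t, t1, t2, t3⟩
      · exact Or.inl ⟨_, t2 ▸ key r rs t t1 t3⟩
      · exact Or.inr ⟨t, t1.trans (sub _), t2, t3⟩
    · rcases ih (i + 1) j (by omega) _ (hd _) a3 with ⟨t, t1, t2, t3⟩ | ⟨t, t1, t2, t3⟩
      · exact Or.inl ⟨t, t1.trans (sub _), t2, t3⟩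
      · exact Or.inr ⟨_, t2 ▸ key b bs t t1 t3⟩

/-- `Y` contains five large sets that are pairwise lower regular. -/
def Tup (H : SimpleGraph W) (ε d s : ℝ) (Y : Finset W) : Prop :=
  ∃ Q : Fin 5 → Finset W, (∀ c, Q c ⊆ Y ∧ s ≤ (Q c).card) ∧
    ∀ c c', c ≠ c' → LR H ε d (Q c) (Q c')

theorem Tup.mono {H : SimpleGraph W} {ε d s s' : ℝ} {Y Y' : Finset W} (h : Tup H ε d s Y)
    (h1 : Y ⊆ Y') (h2 : s' ≤ s) : Tup H ε d s' Y' := by
  obtain ⟨Q, q1, q2⟩ := h
  exact ⟨Q, fun c => ⟨(q1 c).1.trans h1, h2.trans (q1 c).2⟩, q2⟩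

theorem tup_of_clique {H : SimpleGraph W} {ε d s : ℝ} {Y : Finset W} {ι : Type*}
    {cl : ι → Finset W} (h1 : ∀ a, cl a ⊆ Y ∧ s ≤ (cl a).card) {t : Finset ι} (ht : t.card = 5)
    (h2 : ∀ x ∈ t, ∀ y ∈ t, x ≠ y → LR H ε d (cl x) (cl y)) : Tup H ε d s Y := by
  let f : Fin 5 → t := fun i => t.equivFin.symm (Fin.cast ht.symm i)
  exact ⟨fun c => cl (f c), fun c => h1 _, fun c c' h => h2 _ (f c).2 _ (f c').2 fun e =>
    h (Fin.cast_injective _ (t.equivFin.symm.injective (Subtype.ext e)))⟩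

theorem inner {ε d : ℝ} (hε : 0 < ε) (hd : d ≤ 1 / 4) : ∃ μ : ℝ, 0 < μ ∧ ∃ N : ℕ,
    ∀ (W : Type) [DecidableEq W] (H : SimpleGraph W) (Y : Finset W), N ≤ Y.card →
      Tup H ε d (μ * Y.card) Y ∨ Tup Hᶜ ε d (μ * Y.card) Y := by
  classical
  have h0 : 0 < min (ε / 8) (1 / 10 ^ 7) := by positivity
  obtain ⟨M, hM⟩ := exists_regSys h0 (10 ^ 7)
  refine ⟨1 / (2 * (M + 1)), by positivity, 10 ^ 7 + 2 * M, fun W _ H Y hY => ?_⟩
  obtain ⟨σ⟩ := hM W H Y (by omega)
  set ε₂ := min (ε / 8) (1 / 10 ^ 7) with hε₂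
  have e1 : ε₂ ≤ ε / 8 := min_le_left _ _
  have e2 : ε₂ ≤ 1 / 10 ^ 7 := min_le_right _ _
  have k1 := σ.lk
  have k2 := σ.kM
  have m1 : Y.card ≤ M * σ.m := by
    rw [← σ.tot]
    refine (sum_le_card_nsmul _ _ _ fun a _ => σ.cm a).trans ?_
    rw [card_univ, Fintype.card_fin, smul_eq_mul]
    exact Nat.mul_le_mul_right _ k2
  have m2 : 2 ≤ σ.m := by
    by_contra h
    have : M * σ.m ≤ M * 1 := Nat.mul_le_mul_left _ (by omega)
    omega
  have m3 : ∀ a, (σ.m : ℝ) / 2 ≤ (σ.cl a).card := fun a => by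
    have := σ.mc a
    have : σ.m ≤ 2 * (σ.cl a).card := by omega
    have : (σ.m : ℝ) ≤ 2 * (σ.cl a).card := by exact_mod_cast this
    linarith
  have m4 : 1 / (2 * ((M : ℝ) + 1)) * Y.card ≤ σ.m / 2 := by
    have : (Y.card : ℝ) ≤ M * σ.m := by exact_mod_cast m1
    rw [div_mul_eq_mul_div, div_le_div_iff₀ (by positivity) (by positivity)]
    nlinarith [Nat.cast_nonneg (α := ℝ) σ.m]
  have m5 : (0 : ℝ) ≤ σ.m := Nat.cast_nonneg _
  have lr : ∀ (H' : SimpleGraph W) (β : ℝ) a b, TB H' (ε₂ * σ.m) β (σ.cl a) (σ.cl b) →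
      1 / 2 ≤ β → LR H' ε d (σ.cl a) (σ.cl b) := fun H' β a b h hβ => by
    have c1 : ε₂ * σ.m ≤ 1 / 4 * (ε * (σ.m / 2)) := by nlinarith
    have c2 : 0 ≤ ε * (σ.m / 2) := by positivity
    exact h.lr Subset.rfl Subset.rfl (m3 a) (m3 b) hε.le (by linarith) (by linarith)
      (c1.trans (mul_le_mul_of_nonneg_right (by linarith) c2))
  let g : Fin σ.k → ℝ := fun a => (univ.filter fun b => σ.rr a b + σ.bb a b ≠ 1).card
  let δ := σ.k / 10 ^ 6
  have k3 : (10 ^ 7 : ℝ) ≤ σ.k := by exact_mod_cast k1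
  have a1 := (markov univ g (fun a _ => Nat.cast_nonneg _) (σ.k / 10 ^ 6)).trans σ.few
  have a2 : 2 * (univ.filter fun a => (σ.k : ℝ) / 10 ^ 6 < g a).card ≤ σ.k := by
    have : 2 * ((univ.filter fun a => (σ.k : ℝ) / 10 ^ 6 < g a).card : ℝ) ≤ σ.k := by
      by_contra h
      have c1 := mul_lt_mul_of_pos_right (not_le.1 h) (show (0 : ℝ) < σ.k by linarith)
      nlinarith [mul_le_mul_of_nonneg_right e2 (sq_nonneg (σ.k : ℝ))]
    exact_mod_cast this
  have a3 := card_filter_add_card_filter_not (s := univ) fun a => (σ.k : ℝ) / 10 ^ 6 < g a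
  rw [card_univ, Fintype.card_fin] at a3
  rcases ramsey (fun a b => 1 / 2 ≤ σ.rr a b) (fun a b => 1 / 2 ≤ σ.bb a b)
    (fun x y h => σ.rs x y ▸ h) (fun x y h => σ.bs x y ▸ h) δ 10 5 5 rfl
    (univ.filter fun a => ¬ (σ.k : ℝ) / 10 ^ 6 < g a)
    (fun x hx => by
      have c1 := not_lt.1 (mem_filter.1 hx).2
      have c2 : (univ.filter fun b => σ.rr x b + σ.bb x b ≠ 1).card ≤ δ := by
        rw [le_div_iff₀ (by norm_num)] at c1
        exact (Nat.le_div_iff_mul_le (by norm_num)).2 (by simp only [g] at c1; exact_mod_cast c1)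
      refine le_trans (card_le_card fun y hy => ?_) c2
      have c3 := (mem_filter.1 hy).2
      refine mem_filter.2 ⟨mem_univ _, ?_⟩
      intro e
      linarith [not_le.1 c3.1, not_le.1 c3.2])
    (by omega) with ⟨t, -, t2, t3⟩ | ⟨t, -, t2, t3⟩
  · exact Or.inl (tup_of_clique (fun a => ⟨σ.sub a, m4.trans (m3 a)⟩) t2
      fun x hx y hy h => lr _ _ _ _ (σ.tr x y) (t3 x hx y hy h))
  · exact Or.inr (tup_of_clique (fun a => ⟨σ.sub a, m4.trans (m3 a)⟩) t2
      fun x hx y hy h => lr _ _ _ _ (σ.tb x y) (t3 x hx y hy h))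

theorem split (r b : Finset W → Prop) (bm : ∀ X Y, X ⊆ Y → b X → b Y)
    (rm : ∀ X Y, X ⊆ Y → r X → r Y) {q g : ℝ} (hg : 0 < g) (h0 : 0 ≤ q)
    (hq : ∀ Y : Finset W, q ≤ Y.card → r Y ∨ b Y) (j : ℕ) : ∀ A : Finset W, (A.card : ℝ) ≤ j * g →
      ∃ R, R ⊆ A ∧ (∀ Y, Y ⊆ R → g ≤ Y.card → r Y) ∧
        ∀ Y, Y ⊆ A \ R → j * q < Y.card → b Y := by
  induction j with
  | zero =>
    intro A hA
    have a1 : ∀ Y, Y ⊆ A → (Y.card : ℝ) ≤ 0 := fun Y hY =>
      (Nat.cast_le.2 (card_le_card hY)).trans (by simpa using hA)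
    refine ⟨A, Subset.rfl, fun Y h1 h2 => ?_, fun Y h1 h2 => ?_⟩
    · linarith [a1 Y h1]
    · simp only [Nat.cast_zero, zero_mul] at h2
      linarith [a1 Y (h1.trans sdiff_subset)]
  | succ j ih =>
    intro A hA
    push_cast at hA ⊢
    by_cases h : ∃ Z, Z ⊆ A ∧ g ≤ Z.card ∧ ¬ r Z
    · obtain ⟨Z, z1, z2, z3⟩ := h
      have a1 : ((A \ Z).card : ℝ) + Z.card = A.card := by
        exact_mod_cast card_sdiff_add_card_eq_card z1
      obtain ⟨R, r1, r2, r3⟩ := ih (A \ Z) (by linarith)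
      refine ⟨R, r1.trans sdiff_subset, r2, fun Y h1 h2 => ?_⟩
      have a2 : ((Y \ Z).card : ℝ) + (Y ∩ Z).card = Y.card := by
        exact_mod_cast card_sdiff_add_card_inter Y Z
      by_cases c : q ≤ (Y ∩ Z).card
      · exact bm _ _ inter_subset_left
          ((hq _ c).resolve_left fun k => z3 (rm _ _ inter_subset_right k))
      · refine bm _ _ sdiff_subset (r3 (Y \ Z) (fun y hy => ?_) (by linarith))
        have c1 := mem_sdiff.1 hy
        have c2 := mem_sdiff.1 (h1 c1.1)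
        exact mem_sdiff.2 ⟨mem_sdiff.2 ⟨c2.1, c1.2⟩, c2.2⟩
    · push Not at h
      refine ⟨A, Subset.rfl, h, fun Y h1 h2 => ?_⟩
      rw [sdiff_self, bot_eq_empty, subset_empty] at h1
      rw [h1, card_empty, Nat.cast_zero] at h2
      exact absurd h2 (not_lt.2 (by positivity))

end Pool.Agent.MP_a4cd82_co.H14

end MrgPart1

-- ======== part 2: formerly Pool.Agent.MP_a4cd82_co.h14.Embed
section MrgPart2

/-!
Embedding a structured five-coloured graph into a host.
-/

set_option autoImplicit false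
set_option linter.unusedSectionVars false
set_option linter.unusedVariables false

open Finset

namespace Pool.Agent.MP_a4cd82_co.H14

variable {V W : Type} [Fintype V] [DecidableEq V] [DecidableEq W]

open Classical in
/-- The data extracted from the host graph; `L c c' a` is the number of vertices of colour `a` in
pieces whose hubs have colours `c` and `c'`. -/
structure Host (H : SimpleGraph W) (ε d s₀ : ℝ) (T : ℕ) (L : Fin 5 → Fin 5 → Fin 5 → ℕ) where
  Q : Fin 5 → Finset W
  Res : Finset W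
  T1 : Fin 5 → W → Prop
  T2 : Fin 5 → W → Fin 5 → W → Prop
  Ok : (Fin 5 → Fin 5 → Fin 5 → ℕ) → Finset W → Prop
  cQ : ∀ c, s₀ ≤ (Q c).card
  QR : ∀ c, Q c ⊆ Res
  lr : ∀ c c', c ≠ c' → LR H ε d (Q c) (Q c')
  b1 : ∀ c, (((Q c).filter fun y => ¬ T1 c y).card : ℝ) ≤ ε * (Q c).card
  b2 : ∀ c x c', (((Q c').filter fun y => ¬ T2 c x c' y).card : ℝ) ≤ ε * (Q c').card
  t12 : ∀ c x, T2 c x c x
  ok0 : Ok (fun _ _ _ => 0) ∅
  av : ∀ c x c' x', T1 c x → T1 c' x' → T2 c x c' x' →
    ∀ (M : Fin 5 → Fin 5 → Fin 5 → ℕ) (U : Finset W) (n : Fin 5 → ℕ), Ok M U →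
    (∀ c c' a, M c c' a ≤ L c c' a) → (∀ a, (n a : ℝ) ≤ s₀) → ∃ S : ℕ → Fin 5 → Finset W,
      (∀ a, S 0 a = Q a) ∧ (∀ t a, s₀ ≤ (S t a).card) ∧
      (∀ t a, t ≠ 0 → ∀ y ∈ S t a, (a ≠ c → H.Adj x y) ∧ (a ≠ c' → H.Adj x' y)) ∧
      (∀ t a, S t a ⊆ Res ∨ (Disjoint (S t a) Res ∧ Disjoint (S t a) U)) ∧
      (∀ a, Disjoint (S T a) Res) ∧
      (∀ t t' a a', t ≤ t' + 1 → t' ≤ t + 1 → a ≠ a' → LR H ε d (S t a) (S t' a')) ∧
      ∀ (N : Fin 5 → Finset W) (M' : Fin 5 → Fin 5 → Fin 5 → ℕ), (∀ a, (N a).card ≤ n a) →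
        (∀ a, ∀ y ∈ N a, ∃ t, y ∈ S t a) → (∀ a, M c c' a + n a ≤ M' c c' a) →
        (∀ c c' a, M c c' a ≤ M' c c' a) → Ok M' (U ∪ univ.biUnion N)

open Classical in
theorem embed {G : SimpleGraph V} {H : SimpleGraph W} {p K T : ℕ} {ε d s₀ : ℝ} (σ : Str G p K T)
    (col : V → Fin 5) (hcol : ∀ v w, G.Adj v w → col v ≠ col w) (h h' : Finset V → V)
    (hub : ∀ P, h P ∈ σ.I ∧ h' P ∈ σ.I ∧
      (h P = h' P ∨ (σ.rk (h P) < σ.rk (h' P) ∧ h P ∈ σ.Lk (h' P))) ∧
      ∀ w, w ∉ σ.E → σ.pc w = P → ∀ u ∈ σ.I, G.Adj w u → u = h P ∨ u = h' P)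
    (η : Host H ε d s₀ T fun c c' a => (univ.filter fun v =>
      col (h (σ.pc v)) = c ∧ col (h' (σ.pc v)) = c' ∧ col v = a).card)
    (hd0 : 0 < d) (hd1 : d ≤ 1) (hε0 : 0 ≤ ε)
    (hε : (((T + 1) * 5 : ℕ) * 2 ^ p + p + 1) * ε ≤ d ^ p / 2)
    (hK : 6 * (Fintype.card V : ℝ) < K * (d ^ p * s₀)) :
    ∃ f : V → W, Function.Injective f ∧ ∀ v w, G.Adj v w → H.Adj (f v) (f w) := by
  set κ := (T + 1) * 5 with hκ
  have hdp : 0 < d ^ p := by positivity
  have hK0 : (0 : ℝ) < K := by
    rcases Nat.eq_zero_or_pos K with h | h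
    · rw [h] at hK
      have : (0 : ℝ) ≤ Fintype.card V := Nat.cast_nonneg _
      simp only [Nat.cast_zero, zero_mul] at hK
      linarith
    · exact_mod_cast h
  have hsm : ∀ m : ℕ, K * m ≤ Fintype.card V → (m : ℝ) < d ^ p * s₀ / 6 := by
    intro m hm
    have : (K : ℝ) * m ≤ Fintype.card V := by exact_mod_cast hm
    by_contra h
    nlinarith [mul_le_mul_of_nonneg_left (not_lt.1 h) hK0.le]
  have hs0 : 0 < s₀ := by
    have := hsm 0 (by simp)
    by_contra h
    have := mul_nonpos_of_nonneg_of_nonpos hdp.le (not_lt.1 h)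
    simp only [Nat.cast_zero] at *
    linarith
  have hε1 : ε ≤ d ^ p := by
    have a1 : (0 : ℝ) ≤ κ * 2 ^ p + p := by positivity
    nlinarith [mul_nonneg a1 hε0]
  have hroom : ∀ (X : Finset W) (a : ℝ), s₀ ≤ X.card → a < d ^ p * s₀ / 2 →
      a + (κ * 2 ^ p + p + 1) * (ε * X.card) < d ^ p * X.card := by
    intro X a a1 a2
    have a3 := mul_le_mul_of_nonneg_right hε (Nat.cast_nonneg (α := ℝ) X.card)
    nlinarith [mul_le_mul_of_nonneg_left a1 hdp.le]
  obtain ⟨y0, -⟩ : (η.Q 0).Nonempty := card_pos.1 (by exact_mod_cast hs0.trans_le (η.cQ 0))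
  obtain ⟨e, -, e2, e3, e4, e5, e6⟩ := run (G := G) (H := H) (κ := κ) hd0.le hd1 hε0 hε1 σ.inj
    σ.back σ.cR σ.memR σ.cL (fun v => η.Q (col v)) ∅ σ.E univ (subset_univ _) (by simp)
    (by
      have a1 : (univ.image fun v => η.Q (col v)) ⊆ univ.image η.Q := fun X hX => by
        obtain ⟨v, -, rfl⟩ := mem_image.1 hX
        exact mem_image_of_mem _ (mem_univ _)
      exact ((card_le_card a1).trans card_image_le).trans (by simp; omega))
    (fun v _ w _ h => η.lr _ _ (hcol v w h)) (fun v hv w _ hw => σ.first v hv w hw) (by simp)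
    (fun v => η.T1 (col v)) (fun x x' v => η.T2 (col x) x' (col v)) (fun v _ => η.b1 _)
    (fun x _ x' _ _ v _ => η.b2 _ _ _) (fun _ => y0)
    (fun v _ => hroom _ _ (η.cQ _) (by
      have := hsm _ σ.cE
      simp only [image_empty, inter_empty, card_empty, Nat.cast_zero, zero_add]
      nlinarith [mul_pos hdp hs0]))
    (fun w _ => by simp [Inv, cand])
  rw [empty_union] at e4 e6
  let D : Finset (Finset V) → Finset V := fun s => univ.filter fun w => w ∈ σ.E ∨ σ.pc w ∈ s
  have mD : ∀ s w, w ∈ D s ↔ w ∈ σ.E ∨ σ.pc w ∈ s := by simp [D]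
  let M : Finset (Finset V) → Fin 5 → Fin 5 → Fin 5 → ℕ := fun s c c' a =>
    (univ.filter fun v => (v ∉ σ.E ∧ σ.pc v ∈ s) ∧
      col (h (σ.pc v)) = c ∧ col (h' (σ.pc v)) = c' ∧ col v = a).card
  have key : ∀ s : Finset (Finset V), ∃ f : V → W, (∀ x ∈ σ.E, f x = e x) ∧ Set.InjOn f (D s) ∧
      (∀ v ∈ D s, ∀ x ∈ D s, G.Adj v x → H.Adj (f x) (f v)) ∧
      η.Ok (M s) ((D s \ σ.E).image f) ∧
      ∀ x ∈ D s, x ∉ σ.E → σ.t x = T → f x ∉ η.Res := by
    intro s
    induction s using Finset.induction_on with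
    | empty =>
      have a1 : D ∅ = σ.E := by ext w; simp [mD]
      rw [a1]
      refine ⟨e, fun _ _ => rfl, e3, e4, ?_, fun x hx h => absurd hx h⟩
      simpa [M] using η.ok0
    | insert P₀ s hP ih =>
      obtain ⟨f, f1, f2, f3, f4, f5⟩ := ih
      obtain ⟨hI, hI', hh, hub⟩ := hub P₀
      let P := univ.filter fun w => w ∉ σ.E ∧ σ.pc w = P₀
      have mP : ∀ w, w ∈ P ↔ w ∉ σ.E ∧ σ.pc w = P₀ := by simp [P]
      have a1 : D (insert P₀ s) = D s ∪ P := by
        ext w
        simp only [mD, mP, mem_insert, mem_union]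
        tauto
      have a2 : ∀ w ∈ D s, w ∉ P := by
        intro w h1 h2
        obtain ⟨c1, c2⟩ := (mP w).1 h2
        rcases (mD s w).1 h1 with c | c
        · exact c1 c
        · exact hP (c2 ▸ c)
      have a3 : ∀ w ∈ P, ∀ x ∈ D s, G.Adj w x → x ∈ σ.E := by
        intro w hw x hx hwx
        by_contra c
        obtain ⟨c1, c2⟩ := (mP w).1 hw
        exact a2 x hx ((mP x).2 ⟨c, (σ.pcadj w x c1 c hwx).symm.trans c2⟩)
      have a4 : σ.E ⊆ D s := fun x hx => (mD s x).2 (Or.inl hx)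
      have a5 := hsm _ (σ.cpc P₀)
      obtain ⟨S, s1, s2, s3, s4, s5, s6, s7⟩ := η.av (col (h P₀)) (e (h P₀)) (col (h' P₀))
        (e (h' P₀)) (e2 _ (σ.IE hI)).2.1 (e2 _ (σ.IE hI')).2.1
        (by
          rcases hh with c | ⟨c1, c2⟩
          · rw [c]; exact η.t12 _ _
          · exact e5 _ (σ.IE hI') _ (σ.IE hI) c2 c1)
        (M s) _ (fun a => (P.filter fun v => col v = a).card) f4
        (fun c c' a => card_le_card fun v hv => mem_filter.2 ⟨mem_univ _, (mem_filter.1 hv).2.2⟩)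
        (fun a => by
          have c1 : ((P.filter fun v => col v = a).card : ℝ) ≤ P.card :=
            Nat.cast_le.2 (card_filter_le _ _)
          have c2 : d ^ p * s₀ ≤ s₀ := mul_le_of_le_one_left hs0.le (pow_le_one₀ hd0.le hd1)
          simp only [P] at c1 ⊢
          linarith)
      obtain ⟨g, g1, g2, g3, g4, -, -⟩ := run (G := G) (H := H) (κ := κ) hd0.le hd1 hε0 hε1 σ.inj
        σ.back σ.cR σ.memR σ.cL (fun v => S (σ.t v) (col v)) (D s) P P Subset.rfl
        (disjoint_left.2 a2)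
        (by
          have c1 : (P.image fun v => S (σ.t v) (col v)) ⊆
              (range (T + 1) ×ˢ univ).image fun q : ℕ × Fin 5 => S q.1 q.2 := fun X hX => by
            obtain ⟨v, -, rfl⟩ := mem_image.1 hX
            exact mem_image.2 ⟨(σ.t v, col v), mem_product.2
              ⟨mem_range.2 (Nat.lt_succ_of_le (σ.t6 v)), mem_univ _⟩, rfl⟩
          exact ((card_le_card c1).trans card_image_le).trans (by simp [hκ]))
        (fun v hv w hw h => s6 _ _ _ _ (σ.tadj w v ((mP w).1 hw).1 ((mP v).1 hv).1 h.symm)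
          (σ.tadj v w ((mP v).1 hv).1 ((mP w).1 hw).1 h) (hcol v w h))
        (fun v _ w hw h => absurd hw h)
        (fun w hw x hx h v hv => σ.first x (a3 w hw x hx h) v ((mP v).1 hv).1)
        (fun _ _ => True) (fun _ _ _ _ => True) (fun v _ => by simp; positivity)
        (fun _ _ _ _ _ v _ => by simp; positivity) f
        (fun v _ => hroom _ _ (s2 _ _) (by
          have c1 := hsm _ σ.cE
          have c2 := hsm _ σ.ct
          have c4 : (S (σ.t v) (col v) ∩ (D s).image f).card ≤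
              σ.E.card + (univ.filter fun w => σ.t w < T).card := by
            have d1 : S (σ.t v) (col v) ∩ (D s).image f ⊆
                (σ.E ∪ univ.filter fun w => σ.t w < T).image f := by
              intro y hy
              obtain ⟨d2, d3⟩ := mem_inter.1 hy
              obtain ⟨x, hx, rfl⟩ := mem_image.1 d3
              refine mem_image_of_mem _ ?_
              by_contra d5
              rw [mem_union, not_or, mem_filter] at d5
              rcases s4 (σ.t v) (col v) with d4 | ⟨-, d4⟩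
              · have d6 := σ.t6 x
                exact f5 x hx d5.1 (by by_contra d7; exact d5.2 ⟨mem_univ _, by omega⟩) (d4 d2)
              · exact disjoint_left.1 d4 d2 (mem_image_of_mem _ (mem_sdiff.2 ⟨hx, d5.1⟩))
            exact ((card_le_card d1).trans card_image_le).trans (card_union_le _ _)
          have c5 : ((S (σ.t v) (col v) ∩ (D s).image f).card : ℝ) ≤
              σ.E.card + (univ.filter fun w => σ.t w < T).card := by exact_mod_cast c4
          simp only [P]
          linarith))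
        (fun w hw => by
          obtain ⟨c1, c2⟩ := (mP w).1 hw
          by_cases c3 : σ.t w = 0
          · have c4 := e6 w (mem_univ _) c1
            have c5 : (D s).filter (G.Adj w) = σ.E.filter (G.Adj w) := by
              ext x
              simp only [mem_filter]
              exact ⟨fun h => ⟨a3 w hw x h.1 h.2, h.2⟩, fun h => ⟨a4 h.1, h.2⟩⟩
            have c6 : cand G H f (D s) (η.Q (col w)) w = cand G H e σ.E (η.Q (col w)) w := by
              ext y
              simp only [mem_cand]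
              exact ⟨fun h => ⟨h.1, fun x hx k => f1 x hx ▸ h.2 x (a4 hx) k⟩, fun h => ⟨h.1,
                fun x hx k => (f1 x (a3 w hw x hx k)).symm ▸ h.2 x (a3 w hw x hx k) k⟩⟩
            unfold Inv at c4 ⊢
            rw [c3, s1, c5, c6]
            exact c4
          · have c6 : cand G H f (D s) (S (σ.t w) (col w)) w = S (σ.t w) (col w) := by
              refine Subset.antisymm (fun y hy => (mem_cand.1 hy).1)
                fun y hy => mem_cand.2 ⟨hy, fun x hx k => ?_⟩
              have d1 := a3 w hw x hx k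
              have d2 : x ∈ σ.I := by
                by_contra d2
                exact c3 (σ.t0 x w d1 d2 c1 k)
              rw [f1 x d1]
              rcases hub w c1 c2 x d2 k with rfl | rfl
              · exact (s3 _ _ c3 y hy).1 (hcol _ _ k)
              · exact (s3 _ _ c3 y hy).2 (hcol _ _ k)
            unfold Inv
            rw [c6]
            exact mul_le_of_le_one_left (Nat.cast_nonneg _) (pow_le_one₀ hd0.le hd1))
      have g5 : ∀ x ∈ D s, g x = f x := fun x hx => g1 x (a2 x hx)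
      rw [a1]
      refine ⟨g, fun x hx => by rw [g5 x (a4 hx), f1 x hx], ?_, ?_, ?_, ?_⟩
      · intro u hu v hv k
        rcases mem_union.1 (mem_coe.1 hu) with c1 | c1 <;>
          rcases mem_union.1 (mem_coe.1 hv) with c2 | c2
        · rw [g5 u c1, g5 v c2] at k
          exact f2 c1 c2 k
        · rw [g5 u c1] at k
          exact absurd (k ▸ mem_image_of_mem f c1) (g2 v c2).2.2
        · rw [g5 v c2] at k
          exact absurd (k ▸ mem_image_of_mem f c2) (g2 u c1).2.2
        · exact g3 c1 c2 k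
      · intro v hv x hx k
        rcases mem_union.1 hv with c1 | c1
        · rcases mem_union.1 hx with c2 | c2
          · rw [g5 v c1, g5 x c2]
            exact f3 v c1 x c2 k
          · exact (g4 x c2 v hv k.symm).symm
        · exact g4 v c1 x hx k
      · have c1 : ((D s ∪ P) \ σ.E).image g = (D s \ σ.E).image f ∪
            univ.biUnion fun a => (P.filter fun v => col v = a).image g := by
          ext y
          simp only [mem_image, mem_union, mem_sdiff, mem_biUnion, mem_univ, true_and,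
            mem_filter (s := P)]
          constructor
          · rintro ⟨x, ⟨k | k, k'⟩, rfl⟩
            · exact Or.inl ⟨x, ⟨k, k'⟩, (g5 x k).symm⟩
            · exact Or.inr ⟨_, x, ⟨k, rfl⟩, rfl⟩
          · rintro (⟨x, ⟨k, k'⟩, rfl⟩ | ⟨a, x, ⟨k, -⟩, rfl⟩)
            · exact ⟨x, ⟨Or.inl k, k'⟩, g5 x k⟩
            · exact ⟨x, ⟨Or.inr k, ((mP x).1 k).1⟩, rfl⟩
        rw [c1]
        refine s7 _ _ (fun a => card_image_le) (fun a y hy => ?_) (fun a => ?_)
          fun c c' a => card_le_card fun v hv => ?_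
        · obtain ⟨x, hx, rfl⟩ := mem_image.1 hy
          obtain ⟨k, rfl⟩ := mem_filter.1 hx
          exact ⟨_, (g2 x k).1⟩
        · simp only [M]
          refine (card_union_of_disjoint (disjoint_left.2 fun v k1 k2 => ?_)).ge.trans
            (card_le_card fun v hv => mem_filter.2 ⟨mem_univ _, ?_⟩)
          · exact hP (((mP v).1 (mem_filter.1 k2).1).2 ▸ (mem_filter.1 k1).2.1.2)
          rcases mem_union.1 hv with k | k
          · obtain ⟨-, k1, k2⟩ := mem_filter.1 k
            exact ⟨⟨k1.1, mem_insert_of_mem k1.2⟩, k2⟩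
          · obtain ⟨k1, k2⟩ := mem_filter.1 k
            obtain ⟨k3, k4⟩ := (mP v).1 k1
            rw [k4]
            exact ⟨⟨k3, mem_insert_self _ _⟩, rfl, rfl, k2⟩
        · obtain ⟨-, k1, k2⟩ := mem_filter.1 hv
          exact mem_filter.2 ⟨mem_univ _, ⟨k1.1, mem_insert_of_mem k1.2⟩, k2⟩
      · intro x hx k1 k2
        rcases mem_union.1 hx with c1 | c1
        · rw [g5 x c1]; exact f5 x c1 k1 k2
        · exact disjoint_left.1 (s5 _) (k2 ▸ (g2 x c1).1)
  obtain ⟨f, -, f2, f3, -⟩ := key univ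
  have a1 : ∀ w, w ∈ D univ := fun w => (mD _ _).2 (Or.inr (mem_univ _))
  exact ⟨f, fun x y h => f2 (a1 x) (a1 y) h, fun v w h => f3 w (a1 w) v (a1 v) h.symm⟩

end Pool.Agent.MP_a4cd82_co.H14

end MrgPart2

-- ======== part 3: formerly Pool.Agent.MP_a4cd82_co.h14.Host
section MrgPart3

/-!
Typical vertices, and the construction of a host from a system of clusters.
-/

set_option autoImplicit false
set_option linter.unusedSectionVars false
set_option linter.unusedVariables false

open Finset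

namespace Pool.Agent.MP_a4cd82_co.H14

variable {W : Type} [DecidableEq W] {ι : Type} [Fintype ι] [DecidableEq ι]
  {J : Type} [Fintype J] [DecidableEq J]

/-- A system of clusters with densities `β`. -/
structure Sys (H : SimpleGraph W) (ι : Type) [Fintype ι] (ν m e : ℝ) where
  cl : ι → Finset W
  R : ι → Finset W
  β : ι → ι → ℝ
  disj : ∀ a b, a ≠ b → Disjoint (cl a) (cl b)
  sub : ∀ a, R a ⊆ cl a
  cm : ∀ a, ((cl a).card : ℝ) ≤ m
  big : ∀ a, m / 10 ^ 6 ≤ (R a).card
  km : Fintype.card ι * m ≤ 13 * ν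
  β0 : ∀ a b, 0 ≤ β a b
  β1 : ∀ a b, β a b ≤ 1
  βs : ∀ a b, β a b = β b a
  tb : ∀ a b, TB H e (β a b) (cl a) (cl b)

theorem exists_parts_nat (R : Finset W) (n : J → ℕ) (s : Finset J) (h : ∑ j ∈ s, n j ≤ R.card) :
    ∃ P : J → Finset W, (∀ j, P j ⊆ R) ∧ (∀ j j', j ≠ j' → Disjoint (P j) (P j')) ∧
      (∀ j ∈ s, (P j).card = n j) ∧ ∀ j, j ∉ s → P j = ∅ := by
  induction s using Finset.induction_on with
  | empty => exact ⟨fun _ => ∅, by simp, by simp, by simp, by simp⟩
  | insert a s ha ih =>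
    rw [sum_insert ha] at h
    obtain ⟨P, p1, p2, p3, p4⟩ := ih (by omega)
    have a1 : (s.biUnion P).card ≤ ∑ j ∈ s, n j :=
      card_biUnion_le.trans (sum_congr rfl p3).le
    have a2 := le_card_sdiff (s.biUnion P) R
    obtain ⟨X, x1, x2⟩ := exists_subset_card_eq (s := R \ s.biUnion P) (n := n a) (by omega)
    have a3 : ∀ j, Disjoint X (P j) := fun j => by
      by_cases k : j ∈ s
      · exact sdiff_disjoint.mono x1 (subset_biUnion_of_mem P k)
      · simp [p4 j k]
    refine ⟨Function.update P a X, fun j => ?_, fun j j' k => ?_, fun j hj => ?_, fun j hj => ?_⟩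
    · by_cases e : j = a
      · rw [e, Function.update_self]; exact x1.trans sdiff_subset
      · rw [Function.update_of_ne e]; exact p1 j
    · by_cases e : j = a
      · rw [e, Function.update_self, Function.update_of_ne (e ▸ k.symm)]; exact a3 _
      by_cases e' : j' = a
      · rw [e', Function.update_self, Function.update_of_ne e]; exact (a3 _).symm
      rw [Function.update_of_ne e, Function.update_of_ne e']
      exact p2 j j' k
    · by_cases e : j = a
      · rw [e, Function.update_self, x2]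
      · rw [Function.update_of_ne e]; exact p3 j ((mem_insert.1 hj).resolve_left e)
    · rw [mem_insert, not_or] at hj
      rw [Function.update_of_ne hj.1]
      exact p4 j hj.2

theorem exists_parts (R : Finset W) (k : J → ℝ) (h0 : ∀ j, 0 ≤ k j)
    (h1 : (∑ j, k j) * R.card + Fintype.card J ≤ R.card) :
    ∃ P : J → Finset W, (∀ j, P j ⊆ R) ∧ (∀ j j', j ≠ j' → Disjoint (P j) (P j')) ∧
      ∀ j, k j * R.card ≤ (P j).card := by
  obtain ⟨P, p1, p2, p3, -⟩ := exists_parts_nat R (fun j => ⌈k j * R.card⌉₊) univ (by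
    have a1 := sum_le_sum fun j (_ : j ∈ univ) =>
      (Nat.ceil_lt_add_one (mul_nonneg (h0 j) (Nat.cast_nonneg (α := ℝ) R.card))).le
    rw [sum_add_distrib, ← sum_mul, sum_const, card_univ, nsmul_eq_mul, mul_one,
      ← Nat.cast_sum] at a1
    exact_mod_cast a1.trans h1)
  exact ⟨P, p1, p2, fun j => by rw [p3 j (mem_univ _)]; exact Nat.le_ceil _⟩

variable {H : SimpleGraph W} {ν m e : ℝ}

open Classical in
/-- `x` has too few neighbours in `X` for a vertex of cluster `i` and a subset of cluster `b`. -/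
def Sys.aty (σ : Sys H ι ν m e) (i : ι) (X : Finset W) (b : ι) (x : W) : Prop :=
  ((X.filter (H.Adj x)).card : ℝ) + e < σ.β i b * X.card

open Classical in
/-- `x` is typical for most of the test sets and for the five central ones. -/
def Sys.Typ (σ : Sys H ι ν m e) (j₀ : J) (A : Fin 5 → ι) (X : ι → J → Finset W) (i : ι) (x : W) :
    Prop :=
  ((univ.filter fun q : ι × J => σ.aty i (X q.1 q.2) q.1 x).card : ℝ) * m ≤ ν / 10 ^ 6 ∧
    ∀ c, ¬ σ.aty i (X (A c) j₀) (A c) x

open Classical in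
theorem Sys.typ_count (σ : Sys H ι ν m e) (hν : 0 < ν) (hm : 0 ≤ m) (he : 0 ≤ e)
    (hJ : Fintype.card J ≤ 76) (j₀ : J) (A : Fin 5 → ι)
    {X : ι → J → Finset W} (hX : ∀ b j, X b j ⊆ σ.cl b) (i : ι) :
    (((σ.cl i).filter fun x => ¬ σ.Typ j₀ A X i x).card : ℝ) ≤ 10 ^ 10 * e := by
  have a0 : ∀ b j, (((σ.cl i).filter fun x => σ.aty i (X b j) b x).card : ℝ) ≤ e := fun b j => by
    have := σ.tb i b _ (hX b j)
    convert this
    rfl
  let f : W → ℝ := fun x =>
    ((univ.filter fun q : ι × J => σ.aty i (X q.1 q.2) q.1 x).card : ℝ) * m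
  have a1 := markov (σ.cl i) f (fun x _ => by positivity) (ν / 10 ^ 6)
  have a2 : ∑ x ∈ σ.cl i, f x ≤ 988 * ν * e := by
    have b1 : ∑ x ∈ σ.cl i, (univ.filter fun q : ι × J => σ.aty i (X q.1 q.2) q.1 x).card =
        ∑ q : ι × J, ((σ.cl i).filter fun x => σ.aty i (X q.1 q.2) q.1 x).card := by
      simp only [card_filter]
      exact sum_comm
    have b2 := sum_le_card_nsmul univ (fun q : ι × J =>
      (((σ.cl i).filter fun x => σ.aty i (X q.1 q.2) q.1 x).card : ℝ)) e fun q _ => a0 q.1 q.2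
    rw [← sum_mul, ← Nat.cast_sum, b1, Nat.cast_sum]
    rw [card_univ, Fintype.card_prod, nsmul_eq_mul] at b2
    push_cast at b2
    have b3 : (Fintype.card J : ℝ) ≤ 76 := by exact_mod_cast hJ
    have b4 : 0 ≤ (Fintype.card ι : ℝ) * m * e := by positivity
    nlinarith [mul_le_mul_of_nonneg_right b2 hm, mul_le_mul_of_nonneg_right σ.km he,
      mul_le_mul_of_nonneg_right b3 b4]
  have a3 : (((σ.cl i).filter fun x => ν / 10 ^ 6 < f x).card : ℝ) ≤ 988 * 10 ^ 6 * e := by
    by_contra h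
    nlinarith [mul_lt_mul_of_pos_right (not_le.1 h) hν]
  have a4 := card_biUnion_real (univ : Finset (Fin 5))
    (fun c => (σ.cl i).filter fun x => σ.aty i (X (A c) j₀) (A c) x) e fun c _ => a0 _ _
  have a5 : ((σ.cl i).filter fun x => ¬ σ.Typ j₀ A X i x) ⊆
      ((σ.cl i).filter fun x => ν / 10 ^ 6 < f x) ∪ (univ : Finset (Fin 5)).biUnion
        fun c => (σ.cl i).filter fun x => σ.aty i (X (A c) j₀) (A c) x := by
    intro x hx
    obtain ⟨b1, b2⟩ := mem_filter.1 hx
    by_contra h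
    simp only [mem_union, mem_filter, mem_biUnion, mem_univ, b1, true_and, not_or, not_lt,
      not_exists] at h
    exact b2 h
  have a6 := (Nat.cast_le.2 (card_le_card a5)).trans (card_union_real _ _)
  simp only [card_univ, Fintype.card_fin, Nat.cast_ofNat] at a4
  linarith

open Classical in
/-- The vertices of `X` adjacent to `x` if `u` holds and to `x'` if `v` holds. -/
noncomputable def nbr (H : SimpleGraph W) (u v : Prop) (x x' : W) (X : Finset W) : Finset W :=
  X.filter fun y => (u → H.Adj x y) ∧ (v → H.Adj x' y)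

theorem mem_nbr {u v : Prop} {x x' y : W} {X : Finset W} :
    y ∈ nbr H u v x x' X ↔ y ∈ X ∧ (u → H.Adj x y) ∧ (v → H.Adj x' y) := by
  simp [nbr]

theorem nbr_subset {u v : Prop} {x x' : W} {X : Finset W} : nbr H u v x x' X ⊆ X :=
  fun _ h => (mem_nbr.1 h).1

open Classical in
/-- The expected density of `nbr`. -/
noncomputable def Sys.g (σ : Sys H ι ν m e) (u v : Prop) (i i' b : ι) : ℝ :=
  (if u then σ.β i b else 1) * (if v then σ.β i' b else 1)

open Classical in
theorem Sys.typ_pair (σ : Sys H ι ν m e) (hm : 0 ≤ m) (he : 0 ≤ e) {j₀ : J} {A : Fin 5 → ι}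
    {P : ι → J → Finset W} {i i' : ι} {x x' : W} (h1 : σ.Typ j₀ A P i x)
    (h2 : σ.Typ j₀ A P i' x') (h3 : σ.Typ j₀ A (fun b j => (P b j).filter (H.Adj x)) i' x') :
    ∃ Bad : Finset ι, Bad.card * m ≤ 3 * ν / 10 ^ 6 ∧
      ∀ b j, (b ∉ Bad ∨ (j = j₀ ∧ ∃ c, b = A c)) → ∀ u v : Prop,
        σ.g u v i i' b * (P b j).card ≤ (nbr H u v x x' (P b j)).card + 2 * e := by
  let s1 := univ.filter fun q : ι × J => σ.aty i (P q.1 q.2) q.1 x
  let s2 := univ.filter fun q : ι × J => σ.aty i' (P q.1 q.2) q.1 x'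
  let s3 := univ.filter fun q : ι × J => σ.aty i' ((P q.1 q.2).filter (H.Adj x)) q.1 x'
  refine ⟨(s1 ∪ s2 ∪ s3).image Prod.fst, ?_, fun b j hb u v => ?_⟩
  · have a1 : ((s1 ∪ s2 ∪ s3).image Prod.fst).card ≤ s1.card + s2.card + s3.card :=
      card_image_le.trans ((card_union_le _ _).trans (Nat.add_le_add_right (card_union_le _ _) _))
    have a2 : (((s1 ∪ s2 ∪ s3).image Prod.fst).card : ℝ) ≤ s1.card + s2.card + s3.card := by
      exact_mod_cast a1
    have a3 : (s1.card : ℝ) * m ≤ _ := h1.1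
    have a4 : (s2.card : ℝ) * m ≤ _ := h2.1
    have a5 : (s3.card : ℝ) * m ≤ _ := h3.1
    nlinarith [mul_le_mul_of_nonneg_right a2 hm]
  · have a1 : ¬ σ.aty i (P b j) b x ∧ ¬ σ.aty i' (P b j) b x' ∧
        ¬ σ.aty i' ((P b j).filter (H.Adj x)) b x' := by
      rcases hb with hb | ⟨rfl, c, rfl⟩
      · have : (b, j) ∉ s1 ∪ s2 ∪ s3 := fun h => hb (mem_image_of_mem Prod.fst h)
        simpa only [s1, s2, s3, mem_union, mem_filter, mem_univ, true_and, not_or, and_assoc]
          using this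
      · exact ⟨h1.2 c, h2.2 c, h3.2 c⟩
    simp only [Sys.aty, not_lt] at a1
    obtain ⟨a1, a2, a3⟩ := a1
    unfold Sys.g
    by_cases hu : u <;> by_cases hv : v
    · have b1 : nbr H u v x x' (P b j) = ((P b j).filter (H.Adj x)).filter (H.Adj x') := by
        ext y; simp [mem_nbr, hu, hv, and_assoc]
      rw [if_pos hu, if_pos hv, b1]
      nlinarith [mul_le_mul_of_nonneg_left a1 (σ.β0 i' b),
        mul_le_mul_of_nonneg_right (σ.β1 i' b) he]
    · have b1 : nbr H u v x x' (P b j) = (P b j).filter (H.Adj x) := by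
        ext y; simp [mem_nbr, hu, hv]
      rw [if_pos hu, if_neg hv, b1]
      linarith
    · have b1 : nbr H u v x x' (P b j) = (P b j).filter (H.Adj x') := by
        ext y; simp [mem_nbr, hu, hv]
      rw [if_neg hu, if_pos hv, b1]
      linarith
    · have b1 : nbr H u v x x' (P b j) = P b j := by
        ext y; simp [mem_nbr, hu, hv]
      rw [if_neg hu, if_neg hv, b1]
      linarith

open Classical in
theorem Sys.mk_host (σ : Sys H ι ν m e) (hν : 0 < ν) (hm : 0 ≤ m) (he : 0 ≤ e) {ε d s₀ : ℝ}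
    (hε : 0 ≤ ε) (hes : 10 ^ 10 * e ≤ ε * s₀) {T : ℕ} {L : Fin 5 → Fin 5 → Fin 5 → ℕ}
    (hJ : Fintype.card J ≤ 76) (j₀ : J) {P : ι → J → Finset W} (p1 : ∀ b j, P b j ⊆ σ.cl b)
    (p2 : ∀ b j j', j ≠ j' → Disjoint (P b j) (P b j'))
    (A : Fin 5 → ι) (Q : Fin 5 → Finset W) (q1 : ∀ c, Q c ⊆ P (A c) j₀)
    (q2 : ∀ c, s₀ ≤ (Q c).card) (q3 : ∀ c c', c ≠ c' → LR H ε d (Q c) (Q c'))
    (Ok : (Fin 5 → Fin 5 → Fin 5 → ℕ) → (ι → J → ℕ) → Prop) (ok0 : Ok (fun _ _ _ => 0) fun _ _ => 0)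
    (av : ∀ (c c' : Fin 5) (x x' : W) (Bad : Finset ι) (M : Fin 5 → Fin 5 → Fin 5 → ℕ)
      (U : Finset W) (n : Fin 5 → ℕ), Bad.card * m ≤ 3 * ν / 10 ^ 6 →
      (∀ b j, (b ∉ Bad ∨ (j = j₀ ∧ ∃ c, b = A c)) → ∀ u v : Prop,
        σ.g u v (A c) (A c') b * (P b j).card ≤ (nbr H u v x x' (P b j)).card + 2 * e) →
      Ok M (fun b j => (P b j ∩ U).card) → (∀ c c' a, M c c' a ≤ L c c' a) →
      (∀ a, (n a : ℝ) ≤ s₀) →
      ∃ (S : ℕ → Fin 5 → Finset W) (B : Fin 5 → ι) (ja : Fin 5 → J), (∀ a, ja a ≠ j₀) ∧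
        (∀ a, S 0 a = Q a) ∧ (∀ t a, s₀ ≤ (S t a).card) ∧
        (∀ t a, t ≠ 0 → ∀ y ∈ S t a, (a ≠ c → H.Adj x y) ∧ (a ≠ c' → H.Adj x' y)) ∧
        (∀ t a, (∃ b, S t a ⊆ P b j₀) ∨ S t a ⊆ P (B a) (ja a) \ U) ∧
        (∀ a, S T a ⊆ P (B a) (ja a)) ∧
        (∀ t t' a a', t ≤ t' + 1 → t' ≤ t + 1 → a ≠ a' → LR H ε d (S t a) (S t' a')) ∧
        ∀ (u' : ι → J → ℕ) (M' : Fin 5 → Fin 5 → Fin 5 → ℕ), (∀ b j, j ≠ j₀ →
          u' b j ≤ (P b j ∩ U).card + ∑ a, if B a = b ∧ ja a = j then n a else 0) →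
          (∀ a, M c c' a + n a ≤ M' c c' a) → (∀ c c' a, M c c' a ≤ M' c c' a) → Ok M' u') :
    Nonempty (Host H ε d s₀ T L) := by
  have p3 : ∀ b j b' j', ∀ y ∈ P b j, y ∈ P b' j' → b = b' ∧ j = j' := by
    intro b j b' j' y h1 h2
    by_cases hb : b = b'
    · subst hb
      refine ⟨rfl, ?_⟩
      by_contra h
      exact disjoint_left.1 (p2 b j j' h) h1 h2
    · exact absurd (p1 _ _ h2) (disjoint_left.1 (σ.disj b b' hb) (p1 _ _ h1))
  have p4 : ∀ b j, j ≠ j₀ → Disjoint (P b j) (univ.biUnion fun b => P b j₀) := fun b j hj =>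
    disjoint_left.2 fun y h1 h2 => by
      obtain ⟨b', -, h2⟩ := mem_biUnion.1 h2
      exact hj (p3 _ _ _ _ y h1 h2).2
  have cnt : ∀ X : ι → J → Finset W, (∀ b j, X b j ⊆ σ.cl b) → ∀ c,
      (((Q c).filter fun y => ¬ σ.Typ j₀ A X (A c) y).card : ℝ) ≤ ε * (Q c).card := fun X hX c =>
    (Nat.cast_le.2 (card_le_card (filter_subset_filter _ ((q1 c).trans (p1 _ _))))).trans
      ((σ.typ_count hν hm he hJ j₀ A hX _).trans
        (hes.trans (mul_le_mul_of_nonneg_left (q2 c) hε)))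
  refine ⟨⟨Q, univ.biUnion fun b => P b j₀, fun c => σ.Typ j₀ A P (A c),
    fun c x c' => σ.Typ j₀ A (fun b j => (P b j).filter (H.Adj x)) (A c'),
    fun M U => Ok M fun b j => (P b j ∩ U).card, q2,
    fun c => (q1 c).trans (subset_biUnion_of_mem (fun b => P b j₀) (mem_univ _)), q3, cnt P p1,
    fun c x => cnt _ fun b j => (filter_subset _ _).trans (p1 b j), ?_, by simpa using ok0, ?_⟩⟩
  · intro c x
    have a1 : ∀ (X : Finset W) b, ¬ σ.aty (A c) (X.filter (H.Adj x)) b x := by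
      intro X b
      unfold Sys.aty
      rw [filter_true_of_mem (s := X.filter (H.Adj x)) fun y hy => (mem_filter.1 hy).2, not_lt]
      nlinarith [mul_le_mul_of_nonneg_right (σ.β1 (A c) b)
        (Nat.cast_nonneg (α := ℝ) (X.filter (H.Adj x)).card)]
    refine ⟨?_, fun c => a1 _ _⟩
    rw [filter_false_of_mem fun q _ => a1 _ _]
    simp only [card_empty, Nat.cast_zero, zero_mul]
    positivity
  · intro c x c' x' t1 t2 t3 M U n u1 u2 u3
    obtain ⟨Bad, a1, a2⟩ := σ.typ_pair hm he t1 t2 t3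
    obtain ⟨S, B, ja, s0, s1, s2, s3, s4, s5, s6, s7⟩ := av c c' x x' Bad M U n a1 a2 u1 u2 u3
    refine ⟨S, s1, s2, s3, fun t a => ?_, fun a => (p4 _ _ (s0 a)).mono_left (s5 a), s6,
      fun N M' n1 n2 n3 n4 => s7 _ M' (fun b j hj => ?_) n3 n4⟩
    · rcases s4 t a with ⟨b, h⟩ | h
      · exact Or.inl (h.trans (subset_biUnion_of_mem (fun b => P b j₀) (mem_univ _)))
      · exact Or.inr ⟨(p4 _ _ (s0 a)).mono_left (h.trans sdiff_subset),
          sdiff_disjoint.mono_left h⟩
    · have c1 : P b j ∩ (U ∪ univ.biUnion N) ⊆ (P b j ∩ U) ∪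
          univ.biUnion fun a => if B a = b ∧ ja a = j then N a else ∅ := by
        intro y hy
        obtain ⟨d1, d2⟩ := mem_inter.1 hy
        rcases mem_union.1 d2 with d2 | d2
        · exact mem_union_left _ (mem_inter.2 ⟨d1, d2⟩)
        obtain ⟨a, -, d2⟩ := mem_biUnion.1 d2
        obtain ⟨t, d3⟩ := n2 a y d2
        refine mem_union_right _ (mem_biUnion.2 ⟨a, mem_univ _, ?_⟩)
        rcases s4 t a with ⟨b', h⟩ | h
        · exact absurd (p3 _ _ _ _ y d1 (h d3)).2 hj
        · rw [if_pos (p3 _ _ _ _ y (mem_sdiff.1 (h d3)).1 d1)]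
          exact d2
      refine (card_le_card c1).trans ((card_union_le _ _).trans (Nat.add_le_add_left
        (card_biUnion_le.trans (sum_le_sum fun a _ => ?_)) _))
      split_ifs
      · exact n1 a
      · simp

end Pool.Agent.MP_a4cd82_co.H14

end MrgPart3

-- marker of a merged file
example : 731051 + 379710 = 731051 + 379710 := rfl
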